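import Mathlib
import Pool.Agent.Y91.JP.Sharp

/-!
# Matrix units in the associative algebra generated by an ideal
-/

set_option linter.unusedSectionVars false

namespace Pool.Agent.Y91.P

open Module LinearMap Pool.Agent.W548.Odd Pool.Agent.Y91.JP

section burnside

variable {K : Type*} [Field K] {A : Type*} [Ring A] [Algebra K A] {U : Type*} [AddCommGroup U]
  [Module K U] [Module A U] [IsScalarTower K A U] [IsSimpleModule A U] [FiniteDimensional K U]
  [IsAlgClosed K]

/-- Burnside's theorem. -/
theorem burnside (T : U →ₗ[K] U) : ∃ a : A, ∀ u : U, a • u = T u := by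
  obtain ⟨s, hs⟩ := Module.Finite.fg_top (R := K) (M := U)
  let f : End (End A U) U :=
    { toFun := T
      map_add' := map_add T
      map_smul' := fun φ u => by
        obtain ⟨c, rfl⟩ := (IsSimpleModule.algebraMap_end_bijective_of_isAlgClosed (A := A)
          (V := U) K).2 φ
        exact map_smul T c u }
  obtain ⟨a, ha⟩ := jacobson_density f s
  refine ⟨a, fun u => ?_⟩
  have hu : u ∈ Submodule.span K (s : Set U) := by
    rw [hs]
    trivial
  induction hu using Submodule.span_induction with
  | mem x hx => exact (ha x hx).symm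
  | zero => rw [smul_zero, map_zero]
  | add x y _ _ hx hy => rw [smul_add, map_add, hx, hy]
  | smul c x _ hx => rw [smul_comm, map_smul, hx]

/-- A faithful simple module over an algebraically closed field. -/
theorem exists_matrix (hinj : ∀ a : A, (∀ u : U, a • u = 0) → a = 0) :
    ∃ (d : ℕ) (_ : NeZero d), Nonempty (A ≃ₐ[K] Matrix (Fin d) (Fin d) K) := by
  have hntr : Nontrivial U := IsSimpleModule.nontrivial A U
  let ρ : A →ₐ[K] End K U := Algebra.lsmul K K U
  have hi : Function.Injective ρ := by
    rw [injective_iff_map_eq_zero]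
    intro a ha
    refine hinj a fun u => ?_
    exact LinearMap.congr_fun ha u
  have hs : Function.Surjective ρ := by
    intro T
    obtain ⟨a, ha⟩ := burnside (A := A) T
    exact ⟨a, LinearMap.ext ha⟩
  exact ⟨finrank K U, ⟨Module.finrank_pos.ne'⟩,
    ⟨(AlgEquiv.ofBijective ρ ⟨hi, hs⟩).trans (algEquivMatrix (Module.finBasis K U))⟩⟩

end burnside

variable {K : Type*} [Field K] [CharZero K] {V : Type*} [AddCommGroup V] [Module K V]
  [FiniteDimensional K V]

/-- Matrix units. -/
structure MU (A : Subalgebra K (End K V)) {d : ℕ} (e : Fin d → Fin d → End K V) : Prop where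
  mem : ∀ i j, e i j ∈ A
  mul : ∀ i j k l, e i j * e k l = if j = k then e i l else 0
  sum : ∑ i, e i i = 1
  span : ∀ x ∈ A, ∃ c : Fin d → Fin d → K, x = ∑ i, ∑ j, c i j • e i j

theorem exists_mu [IsAlgClosed K] [Nontrivial V] {A : Subalgebra K (End K V)}
    (hA : ∀ U : Submodule K V, U ≠ ⊥ → (∀ a ∈ A, ∀ u ∈ U, a u ∈ U) →
      ∀ a ∈ A, (∀ u ∈ U, a u = 0) → a = 0) :
    ∃ (d : ℕ) (_ : NeZero d) (e : Fin d → Fin d → End K V), MU A e := by
  classical
  have hart : IsArtinian A V := isArtinian_of_tower K inferInstance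
  obtain ⟨U, hU⟩ := IsAtomic.exists_atom (Submodule A V)
  have hsim : IsSimpleModule A U := isSimpleModule_iff_isAtom.2 hU
  have hfin : FiniteDimensional K U :=
    Module.Finite.of_injective (U.subtype.restrictScalars K) U.injective_subtype
  have hUne : U ≠ ⊥ := hU.1
  obtain ⟨d, hd, ⟨φ⟩⟩ := exists_matrix (K := K) (A := A) (U := U) (by
    intro a ha
    apply Subtype.ext
    refine hA (U.restrictScalars K) ?_ ?_ a a.2 ?_
    · intro h0
      apply hUne
      rwa [Submodule.restrictScalars_eq_bot_iff] at h0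
    · intro b hb u hu
      exact U.smul_mem (⟨b, hb⟩ : A) hu
    · intro u hu
      exact congrArg Subtype.val (ha ⟨u, hu⟩))
  refine ⟨d, hd,
    fun i j => (φ.symm (Matrix.single i j 1) : End K V), fun i j => Subtype.mem _, ?_, ?_, ?_⟩
  · intro i j k l
    rw [← Subalgebra.coe_mul, ← map_mul]
    by_cases h1 : j = k
    · subst h1
      rw [if_pos rfl, Matrix.single_mul_single_same, one_mul]
    · rw [if_neg h1, Matrix.single_mul_single_of_ne _ _ _ _ h1, map_zero]
      rfl
  · have h0 : ((φ.symm 1 : A) : End K V) = 1 := by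
      rw [map_one]
      rfl
    rw [← h0]
    have h1 : (1 : Matrix (Fin d) (Fin d) K) =
        ∑ i, Matrix.single i i 1 := by
      rw [Matrix.sum_single_one]
    rw [h1, map_sum]
    simp
  · intro x hx
    refine ⟨fun i j => φ ⟨x, hx⟩ i j, ?_⟩
    have h1 : (⟨x, hx⟩ : A) = ∑ i, ∑ j, (φ ⟨x, hx⟩ i j) • φ.symm (Matrix.single i j 1) := by
      apply φ.injective
      rw [map_sum]
      simp_rw [map_sum, map_smul, AlgEquiv.apply_symm_apply]
      conv_lhs => rw [Matrix.matrix_eq_sum_single (φ ⟨x, hx⟩)]
      refine Finset.sum_congr rfl fun i _ => Finset.sum_congr rfl fun j _ => ?_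
      rw [Matrix.smul_single, smul_eq_mul, mul_one]
    have h2 := congrArg Subtype.val h1
    refine h2.trans ?_
    simp

end Pool.Agent.Y91.P
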