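import Mathlib
import Pool.Agent.Y91.P.Ten

/-!
# Several ideals: the dimension is a power with an odd exponent
-/

set_option linter.unusedSectionVars false

namespace Pool.Agent.Y91.P

open Module LinearMap Pool.Agent.W548.Odd Pool.Agent.Y91.JP

variable {K : Type*} [Field K] [CharZero K] {V : Type*} [AddCommGroup V] [Module K V]
  [FiniteDimensional K V]

section mu

variable {A : Subalgebra K (End K V)} {d : ℕ} {e : Fin d → Fin d → End K V} (M : MU A e)

include M

theorem MU.min (o : Fin d) {x : End K V} (hx : x ∈ A) : ∃ c : K, e o o * x * e o o = c • e o o := by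
  obtain ⟨c, rfl⟩ := M.span x hx
  refine ⟨c o o, ?_⟩
  rw [Finset.mul_sum, Finset.sum_mul, Finset.sum_eq_single o]
  · rw [Finset.mul_sum, Finset.sum_mul, Finset.sum_eq_single o]
    · rw [mul_smul_comm, M.mul, if_pos rfl, smul_mul_assoc, M.mul, if_pos rfl]
    · intro j _ hj
      rw [mul_smul_comm, M.mul, if_pos rfl, smul_mul_assoc, M.mul, if_neg hj, smul_zero]
    · intro h
      exact absurd (Finset.mem_univ _) h
  · intro i _ hi
    rw [Finset.mul_sum, Finset.sum_mul]
    refine Finset.sum_eq_zero fun j _ => ?_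
    rw [mul_smul_comm, M.mul, if_neg (Ne.symm hi), smul_zero, zero_mul]
  · intro h
    exact absurd (Finset.mem_univ _) h

/-- The trace of a product with a minimal idempotent. -/
theorem MU.tr (o : Fin d) {f : End K V} (hf : ∀ x ∈ A, f * x = x * f) :
    trace K V f = d * trace K V (f * e o o) := by
  have h1 : ∀ i, trace K V (f * e i i) = trace K V (f * e o o) := by
    intro i
    have e1 : e i i = e i o * e o i := by rw [M.mul, if_pos rfl]
    have e2 : e o o = e o i * e i o := by rw [M.mul, if_pos rfl]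
    calc trace K V (f * e i i) = trace K V (f * e i o * e o i) := by rw [e1, mul_assoc]
    _ = trace K V (e o i * (f * e i o)) := LinearMap.trace_mul_comm K _ _
    _ = trace K V (f * e o o) := by rw [← mul_assoc, ← hf _ (M.mem o i), mul_assoc, ← e2]
  calc trace K V f = trace K V (f * ∑ i, e i i) := by rw [M.sum, mul_one]
  _ = ∑ i, trace K V (f * e i i) := by rw [Finset.mul_sum, map_sum]
  _ = ∑ i : Fin d, trace K V (f * e o o) := Finset.sum_congr rfl fun i _ => h1 i
  _ = d * trace K V (f * e o o) := by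
    rw [Finset.sum_const, Finset.card_univ, Fintype.card_fin, nsmul_eq_mul]

theorem MU.ne (o : Fin d) (h1 : (1 : End K V) ≠ 0) : e o o ≠ 0 := by
  intro h0
  apply h1
  rw [← M.sum]
  refine Finset.sum_eq_zero fun i _ => ?_
  have e1 : e i i = e i o * e o o * e o i := by
    rw [M.mul, if_pos rfl, M.mul, if_pos rfl]
  rw [e1, h0, mul_zero, zero_mul]

end mu

/-- The type of a minimal idempotent. -/
structure Sg (A : Subalgebra K (End K V)) (st : End K V →ₗ[K] End K V) (e y z : End K V) (ε : K) :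
    Prop where
  y_mem : y ∈ A
  z_mem : z ∈ A
  sy : st e * y = y
  ye : y * e = y
  zy : z * y = e
  sgn : st y = ε • y
  one : ε = 1 ∨ ε = -1

theorem exists_sg {A : Subalgebra K (End K V)} {d : ℕ} {e : Fin d → Fin d → End K V} (M : MU A e)
    {st : End K V →ₗ[K] End K V} (hst : ∀ x ∈ A, st x ∈ A)
    (hmul : ∀ a b, st (a * b) = st b * st a) (hss : ∀ x, st (st x) = x) (o : Fin d)
    (h1 : (1 : End K V) ≠ 0) : ∃ (y z : End K V) (ε : K), Sg A st (e o o) y z ε := by
  obtain ⟨e0, he0⟩ : ∃ e0, e0 = e o o := ⟨_, rfl⟩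
  obtain ⟨f, hf⟩ : ∃ f, f = st e0 := ⟨_, rfl⟩
  have hee : e0 * e0 = e0 := by rw [he0, M.mul, if_pos rfl]
  have hff : f * f = f := by rw [hf, ← hmul, hee]
  have hfA : f ∈ A := by
    rw [hf, he0]
    exact hst _ (M.mem o o)
  have he0A : e0 ∈ A := by
    rw [he0]
    exact M.mem o o
  have hsf : st f = e0 := by rw [hf, hss]
  have he0n : e0 ≠ 0 := by
    rw [he0]
    exact M.ne o h1
  have hf0 : f ≠ 0 := by
    intro h0
    apply he0n
    rw [← hsf, h0, map_zero]
  obtain ⟨i, hi⟩ : ∃ i, f * e i o ≠ 0 := by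
    by_contra hcon
    push Not at hcon
    apply hf0
    rw [← mul_one f, ← M.sum, Finset.mul_sum]
    refine Finset.sum_eq_zero fun i _ => ?_
    have e1 : e i i = e i o * e o i := by rw [M.mul, if_pos rfl]
    rw [e1, ← mul_assoc, hcon, zero_mul]
  obtain ⟨y, hy⟩ : ∃ y, y = f * e i o := ⟨_, rfl⟩
  have hy0 : y ≠ 0 := by rwa [hy]
  have hyA : y ∈ A := by
    rw [hy]
    exact A.mul_mem hfA (M.mem i o)
  have hfy : f * y = y := by rw [hy, ← mul_assoc, hff]
  have hye : y * e0 = y := by rw [hy, he0, mul_assoc, M.mul, if_pos rfl]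
  have hmin : ∀ x ∈ A, ∃ c : K, e0 * x * e0 = c • e0 := by
    intro x hx
    rw [he0]
    exact M.min o hx
  obtain ⟨z, hz, hzy⟩ : ∃ z ∈ A, z * y = e0 := by
    have h2 : ∀ k, ∃ c : K, e o k * y = c • e0 := by
      intro k
      obtain ⟨c, hc⟩ := hmin (e o k * y) (A.mul_mem (M.mem o k) hyA)
      refine ⟨c, ?_⟩
      rw [← hc, mul_assoc, mul_assoc, hye, ← mul_assoc, he0, M.mul, if_pos rfl]
    choose c hc using h2
    obtain ⟨k, hk⟩ : ∃ k, c k ≠ 0 := by
      by_contra hcon
      push Not at hcon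
      apply hy0
      rw [← one_mul y, ← M.sum, Finset.sum_mul]
      refine Finset.sum_eq_zero fun k _ => ?_
      have e1 : e k k = e k o * e o k := by rw [M.mul, if_pos rfl]
      rw [e1, mul_assoc, hc, hcon, zero_smul, mul_zero]
    refine ⟨(c k)⁻¹ • e o k, A.smul_mem (M.mem o k) _, ?_⟩
    rw [smul_mul_assoc, hc, smul_smul, inv_mul_cancel₀ hk, one_smul]
  obtain ⟨z', hz'⟩ : ∃ z', z' = e0 * z * f := ⟨_, rfl⟩
  have hz'A : z' ∈ A := by
    rw [hz']
    exact A.mul_mem (A.mul_mem he0A hz) hfA
  have hz'y : z' * y = e0 := by rw [hz', mul_assoc, hfy, mul_assoc, hzy, hee]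
  have hyz : y * z' = f := by
    obtain ⟨c, hc⟩ := hmin (st (y * z')) (hst _ (A.mul_mem hyA hz'A))
    have h2 : y * z' = c • f := by
      have e1 : y * z' = f * (y * z') * f := by
        rw [← mul_assoc, hfy, hz', mul_assoc y, mul_assoc (e0 * z), hff]
      have e2 : st (e0 * st (y * z') * e0) = f * (y * z') * f := by
        rw [hmul, hmul, hss, ← hf, ← mul_assoc f (y * z') f]
      rw [e1, ← e2, hc, map_smul, ← hf]
    have h3 : c • y = y := by
      have e1 : y * z' * y = y := by rw [mul_assoc, hz'y, hye]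
      rw [h2, smul_mul_assoc, hfy] at e1
      exact e1
    have h4 : c = 1 := by
      have h5 : (c - 1) • y = 0 := by rw [sub_smul, one_smul, h3, sub_self]
      exact sub_eq_zero.1 ((smul_eq_zero.1 h5).resolve_right hy0)
    rw [h2, h4, one_smul]
  have hsy1 : f * st y = st y := by
    rw [hf, ← hmul, hye]
  have hsy2 : st y * e0 = st y := by
    rw [← hsf, ← hmul, hfy]
  obtain ⟨c, hc⟩ := hmin (z' * st y) (A.mul_mem hz'A (hst _ hyA))
  have hcy : st y = c • y := by
    have e1 : e0 * z' = z' := by rw [hz', ← mul_assoc, ← mul_assoc, hee]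
    have e2 : e0 * (z' * st y) * e0 = z' * st y := by
      rw [← mul_assoc, e1, mul_assoc, hsy2]
    rw [e2] at hc
    calc st y = y * z' * st y := by rw [hyz, hsy1]
    _ = y * (z' * st y) := by rw [mul_assoc]
    _ = c • y := by rw [hc, mul_smul_comm, hye]
  have hcc : c * c = 1 := by
    have e1 := hss y
    rw [hcy, map_smul, hcy, smul_smul] at e1
    have h5 : (c * c - 1) • y = 0 := by rw [sub_smul, one_smul, e1, sub_self]
    exact sub_eq_zero.1 ((smul_eq_zero.1 h5).resolve_right hy0)
  refine ⟨y, z, c, hyA, hz, ?_, ?_, ?_, hcy, mul_self_eq_one_iff.1 hcc⟩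
  · rw [← he0, ← hf, hfy]
  · rw [← he0, hye]
  · rw [hzy, he0]

section adj

theorem comm_adjoin {I : Submodule K (End K V)} {z : End K V} (hz : ∀ x ∈ I, z * x = x * z)
    {a : End K V} (ha : a ∈ Algebra.adjoin K (I : Set (End K V))) : z * a = a * z :=
  Algebra.commute_of_mem_adjoin_of_forall_mem_commute ha fun x hx => hz x hx

theorem comm_adjoin' {I J : Submodule K (End K V)} (hz : ∀ z ∈ J, ∀ x ∈ I, z * x = x * z)
    {a b : End K V} (ha : a ∈ Algebra.adjoin K (I : Set (End K V)))
    (hb : b ∈ Algebra.adjoin K (J : Set (End K V))) : b * a = a * b :=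
  (comm_adjoin (fun z hzJ => (comm_adjoin (hz z hzJ) ha).symm) hb).symm

/-- Products of elements of commuting algebras. -/
theorem adjoin_sup {I J : Submodule K (End K V)} (hz : ∀ z ∈ J, ∀ x ∈ I, z * x = x * z)
    {x : End K V} (hx : x ∈ Algebra.adjoin K ((I ⊔ J : Submodule K (End K V)) : Set (End K V))) :
    x ∈ Subalgebra.toSubmodule (Algebra.adjoin K (I : Set (End K V))) *
      Subalgebra.toSubmodule (Algebra.adjoin K (J : Set (End K V))) := by
  obtain ⟨A, hA⟩ : ∃ A, A = Algebra.adjoin K (I : Set (End K V)) := ⟨_, rfl⟩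
  obtain ⟨B, hB⟩ : ∃ B, B = Algebra.adjoin K (J : Set (End K V)) := ⟨_, rfl⟩
  rw [← hA, ← hB]
  have hBA : Subalgebra.toSubmodule B * Subalgebra.toSubmodule A =
      Subalgebra.toSubmodule A * Subalgebra.toSubmodule B := by
    refine Submodule.mul_comm_of_commute fun b hb a ha => ?_
    rw [Subalgebra.mem_toSubmodule] at ha hb
    rw [hA] at ha
    rw [hB] at hb
    exact comm_adjoin' hz ha hb
  have hA1 : A ≤ A := le_rfl
  have hAA : Subalgebra.toSubmodule A * Subalgebra.toSubmodule A = Subalgebra.toSubmodule A :=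
    (Subalgebra.isIdempotentElem_toSubmodule A)
  have hBB : Subalgebra.toSubmodule B * Subalgebra.toSubmodule B = Subalgebra.toSubmodule B :=
    (Subalgebra.isIdempotentElem_toSubmodule B)
  let P : Subalgebra K (End K V) :=
    (Subalgebra.toSubmodule A * Subalgebra.toSubmodule B).toSubalgebra
      (by
        rw [← mul_one (1 : End K V)]
        exact Submodule.mul_mem_mul A.one_mem B.one_mem)
      (by
        intro x y hx hy
        have h1 := Submodule.mul_mem_mul hx hy
        rw [mul_assoc, ← mul_assoc (Subalgebra.toSubmodule B), hBA, mul_assoc (Subalgebra.toSubmodule A)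
          (Subalgebra.toSubmodule B), hBB, ← mul_assoc, hAA] at h1
        exact h1)
  have h1 : Algebra.adjoin K ((I ⊔ J : Submodule K (End K V)) : Set (End K V)) ≤ P := by
    refine Algebra.adjoin_le ?_
    have h2 : I ⊔ J ≤ Subalgebra.toSubmodule P := by
      refine sup_le (fun x hx => ?_) fun x hx => ?_
      · change x ∈ Subalgebra.toSubmodule A * Subalgebra.toSubmodule B
        rw [← mul_one x]
        refine Submodule.mul_mem_mul ?_ B.one_mem
        rw [Subalgebra.mem_toSubmodule, hA]
        exact Algebra.subset_adjoin hx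
      · change x ∈ Subalgebra.toSubmodule A * Subalgebra.toSubmodule B
        rw [← one_mul x]
        refine Submodule.mul_mem_mul A.one_mem ?_
        rw [Subalgebra.mem_toSubmodule, hB]
        exact Algebra.subset_adjoin hx
    exact h2
  exact h1 hx

end adj

variable {G I : Submodule K (End K V)} {st : End K V →ₗ[K] End K V} (h : Setup G st)

include h in
theorem st_adjoin (h1 : st 1 = 1) (hI : I ≤ G) {x : End K V}
    (hx : x ∈ Algebra.adjoin K (I : Set (End K V))) :
    st x ∈ Algebra.adjoin K (I : Set (End K V)) := by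
  induction hx using Algebra.adjoin_induction with
  | mem x hx =>
    rw [h.skew x (hI hx)]
    exact neg_mem (Algebra.subset_adjoin hx)
  | algebraMap r =>
    rw [Algebra.algebraMap_eq_smul_one, map_smul, h1]
    exact Subalgebra.smul_mem _ (one_mem _) _
  | add x y _ _ hx hy =>
    rw [map_add]
    exact add_mem hx hy
  | mul x y _ _ hx hy =>
    rw [h.st_mul]
    exact mul_mem hy hx

include h in
theorem idl_mu [IsAlgClosed K] [Nontrivial V] (hs : Scal G) {D₀ : End K V} (hD₀ : D₀ ∈ G)
    (hD₀2 : D₀ * D₀ = 1) (hI : IsIdl G I) :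
    ∃ (d : ℕ) (_ : NeZero d) (e : Fin d → Fin d → End K V),
      MU (Algebra.adjoin K (I : Set (End K V))) e := by
  refine exists_mu fun U hU hUs a ha hau => ?_
  let W : Submodule K V :=
    { carrier := {v | ∀ a ∈ Algebra.adjoin K (I : Set (End K V)), (∀ u ∈ U, a u = 0) → a v = 0}
      zero_mem' := fun a _ _ => map_zero a
      add_mem' := fun {v w} hv hw a ha hau => by
        rw [map_add, hv a ha hau, hw a ha hau, add_zero]
      smul_mem' := fun c v hv a ha hau => by rw [map_smul, hv a ha hau, smul_zero] }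
  have hW : W = ⊤ := by
    refine irr_top h hs (fun y hy w hw => ?_) ?_
    · obtain ⟨x, hx, z, hz, rfl⟩ := idl_decomp h hs hD₀ hD₀2 hI hy
      have hx' : x ∈ Algebra.adjoin K (I : Set (End K V)) := Algebra.subset_adjoin hx
      refine W.add_mem (fun a ha hau => ?_) fun a ha hau => ?_
      · exact hw (a * x) (mul_mem ha hx') fun u hu => hau _ (hUs x hx' u hu)
      · have h1 : z * a = a * z := comm_adjoin hz.2 ha
        have h2 : a (z w) = z (a w) := (LinearMap.congr_fun h1 w).symm
        rw [h2, hw a ha hau, map_zero]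
    · intro h0
      obtain ⟨u, hu, hu0⟩ := Submodule.exists_mem_ne_zero_of_ne_bot hU
      have h1 : u ∈ W := fun a _ hau => hau u hu
      rw [h0] at h1
      exact hu0 h1
  refine LinearMap.ext fun v => ?_
  have h1 : v ∈ W := by
    rw [hW]
    trivial
  exact h1 a ha hau

/-- Conjugations. -/
structure Tr (G : Submodule K (End K V)) (st : End K V →ₗ[K] End K V) (D₀ D : End K V)
    (s : End K V ≃+* End K V) (τ : K ≃+* K) : Prop where
  smul : ∀ c x, s (c • x) = τ c • s x
  st : ∀ x, s (st x) = st (s x)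
  mem : ∀ x ∈ G, s x ∈ G
  mem' : ∀ x ∈ G, s.symm x ∈ G
  map : s D₀ = D

namespace Tr

variable {D₀ D : End K V} {s : End K V ≃+* End K V} {τ : K ≃+* K} (T : Tr G st D₀ D s τ)

include T

theorem symm : Tr G st D D₀ s.symm τ.symm where
  smul c x := by
    apply s.injective
    rw [RingEquiv.apply_symm_apply, T.smul, RingEquiv.apply_symm_apply, RingEquiv.apply_symm_apply]
  st x := by
    apply s.injective
    rw [RingEquiv.apply_symm_apply, T.st, RingEquiv.apply_symm_apply]
  mem := T.mem'
  mem' x hx := by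
    rw [RingEquiv.symm_symm]
    exact T.mem x hx
  map := by rw [← T.map, RingEquiv.symm_apply_apply]

include h in
theorem gn (hD₀ : D₀ ∈ G) {x : End K V} (hx : x ∈ gn G D₀) : s x ∈ gn G D := by
  have hD : D ∈ G := by
    rw [← T.map]
    exact T.mem _ hD₀
  have hJ := gn_idl h hD
  let J : Submodule K (End K V) :=
    { carrier := {x | x ∈ G ∧ s x ∈ Pool.Agent.W548.Odd.gn G D}
      zero_mem' := ⟨G.zero_mem, by rw [map_zero]; exact Submodule.zero_mem _⟩
      add_mem' := fun {a b} ha hb => ⟨G.add_mem ha.1 hb.1, by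
        rw [map_add]
        exact Submodule.add_mem _ ha.2 hb.2⟩
      smul_mem' := fun c a ha => ⟨G.smul_mem c ha.1, by
        rw [T.smul]
        exact Submodule.smul_mem _ _ ha.2⟩ }
  have h1 : IsIdl G J := by
    refine ⟨fun x hx => hx.1, fun y hy z hz => ⟨h.br y hy z hz.1, ?_⟩⟩
    rw [map_sub, map_mul, map_mul]
    exact hJ.br _ (T.mem y hy) _ hz.2
  have h2 : Pool.Agent.W548.Odd.gn G D₀ ≤ J := gn_le h1 ⟨hD₀, by
    rw [T.map]
    exact mem_gn⟩
  exact (h2 hx).2

include h in
theorem adj (hD₀ : D₀ ∈ G) {x : End K V}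
    (hx : x ∈ Algebra.adjoin K (Pool.Agent.W548.Odd.gn G D₀ : Set (End K V))) :
    s x ∈ Algebra.adjoin K (Pool.Agent.W548.Odd.gn G D : Set (End K V)) := by
  induction hx using Algebra.adjoin_induction with
  | mem x hx => exact Algebra.subset_adjoin (T.gn h hD₀ hx)
  | algebraMap r =>
    rw [Algebra.algebraMap_eq_smul_one, T.smul, map_one]
    exact Subalgebra.smul_mem _ (one_mem _) _
  | add x y _ _ hx hy =>
    rw [map_add]
    exact add_mem hx hy
  | mul x y _ _ hx hy =>
    rw [map_mul]
    exact mul_mem hx hy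

include h in
theorem mu (hD₀ : D₀ ∈ G) {d : ℕ} {e : Fin d → Fin d → End K V}
    (M : MU (Algebra.adjoin K (Pool.Agent.W548.Odd.gn G D₀ : Set (End K V))) e) :
    MU (Algebra.adjoin K (Pool.Agent.W548.Odd.gn G D : Set (End K V))) fun i j => s (e i j) where
  mem i j := T.adj h hD₀ (M.mem i j)
  mul i j k l := by
    rw [← map_mul, M.mul]
    split_ifs
    · rfl
    · exact map_zero s
  sum := by rw [← map_sum, M.sum, map_one]
  span x hx := by
    have hD : D ∈ G := by
      rw [← T.map]
      exact T.mem _ hD₀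
    obtain ⟨c, hc⟩ := M.span _ (T.symm.adj h hD hx)
    refine ⟨fun i j => τ (c i j), ?_⟩
    rw [← s.apply_symm_apply x, hc, map_sum]
    refine Finset.sum_congr rfl fun i _ => ?_
    rw [map_sum]
    refine Finset.sum_congr rfl fun j _ => ?_
    rw [T.smul]

include h in
theorem sg (hD₀ : D₀ ∈ G) {e y z : End K V} {ε : K}
    (M : Sg (Algebra.adjoin K (Pool.Agent.W548.Odd.gn G D₀ : Set (End K V))) st e y z ε) :
    Sg (Algebra.adjoin K (Pool.Agent.W548.Odd.gn G D : Set (End K V))) st (s e) (s y) (s z) ε where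
  y_mem := T.adj h hD₀ M.y_mem
  z_mem := T.adj h hD₀ M.z_mem
  sy := by rw [← T.st, ← map_mul, M.sy]
  ye := by rw [← map_mul, M.ye]
  zy := by rw [← map_mul, M.zy]
  sgn := by
    rw [← T.st, M.sgn, T.smul]
    rcases M.one with h1 | h1
    · rw [h1, map_one]
    · rw [h1, map_neg, map_one]
  one := M.one

end Tr

end Pool.Agent.Y91.P
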