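import Mathlib
import Pool.Agent.Y91.P.Ten2
import Pool.Agent.Y91.JP.Iso

/-!
# Several conjugate ideals: the dimension is a power with an odd exponent
-/

set_option linter.unusedSectionVars false

namespace Pool.Agent.Y91.P

open Module LinearMap Pool.Agent.W548.Odd Pool.Agent.Y91.JP

variable {K : Type*} [Field K] [CharZero K] {V : Type*} [AddCommGroup V] [Module K V]
  [FiniteDimensional K V]

/-- The state after `m` steps. -/
structure Ste (G : Submodule K (End K V)) (st : End K V →ₗ[K] End K V) (d : ℕ) (ε : K)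
    (I : Submodule K (End K V)) (m : ℕ) (f y z : End K V) : Prop where
  idl : IsIdl G I
  f_mem : f ∈ Algebra.adjoin K (I : Set (End K V))
  ff : f * f = f
  min : ∀ x ∈ Algebra.adjoin K (I : Set (End K V)), ∃ c : K, f * x * f = c • f
  rk : rk f * d ^ m = finrank K V
  sg : Sg (Algebra.adjoin K (I : Set (End K V))) st f y z (ε ^ m)

variable {G I : Submodule K (End K V)} {st : End K V →ₗ[K] End K V} (h : Setup G st)

include h in
/-- The first state. -/
theorem Ste.start {D : End K V} (hD : D ∈ G) {d : ℕ} {e : Fin d → Fin d → End K V}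
    (M : MU (Algebra.adjoin K (gn G D : Set (End K V))) e) {o : Fin d} {y z : End K V} {ε : K}
    (N : Sg (Algebra.adjoin K (gn G D : Set (End K V))) st (e o o) y z ε) :
    Ste G st d ε (gn G D) 1 (e o o) y z where
  idl := gn_idl h hD
  f_mem := M.mem o o
  ff := by rw [M.mul, if_pos rfl]
  min x hx := M.min o hx
  rk := by
    have hee : e o o * e o o = e o o := by rw [M.mul, if_pos rfl]
    have h1 := M.tr o (f := 1) fun x _ => by rw [one_mul, mul_one]
    rw [one_mul, trace_idem hee, LinearMap.trace_one] at h1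
    rw [pow_one, mul_comm]
    exact_mod_cast h1.symm
  sg := by rwa [pow_one]

include h in
/-- The next state. -/
theorem Ste.step (h1 : st 1 = 1) {d m : ℕ} {ε : K} {f y z : End K V} (Q : Ste G st d ε I m f y z)
    {D : End K V} (hD : D ∈ cen G I) {e : Fin d → Fin d → End K V}
    (M : MU (Algebra.adjoin K (gn G D : Set (End K V))) e) {o : Fin d} {y' z' : End K V}
    (N : Sg (Algebra.adjoin K (gn G D : Set (End K V))) st (e o o) y' z' ε) :
    Ste G st d ε (I ⊔ gn G D) (m + 1) (f * e o o) (y * y') (z * z') := by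
  have hJ := gn_idl h hD.1
  have hcm : ∀ z ∈ gn G D, ∀ x ∈ I, z * x = x * z := fun z hz x hx =>
    (gn_le (cen_idl h Q.idl) hD hz).2 x hx
  obtain ⟨A, hA⟩ : ∃ A, A = Algebra.adjoin K (I : Set (End K V)) := ⟨_, rfl⟩
  obtain ⟨B, hB⟩ : ∃ B, B = Algebra.adjoin K (gn G D : Set (End K V)) := ⟨_, rfl⟩
  obtain ⟨C, hC⟩ : ∃ C, C = Algebra.adjoin K ((I ⊔ gn G D : Submodule K (End K V)) :
    Set (End K V)) := ⟨_, rfl⟩
  have hAC : A ≤ C := by
    rw [hA, hC]
    exact Algebra.adjoin_mono fun x hx => Submodule.mem_sup_left hx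
  have hBC : B ≤ C := by
    rw [hB, hC]
    exact Algebra.adjoin_mono fun x hx => Submodule.mem_sup_right hx
  have hc : ∀ a ∈ A, ∀ b ∈ B, a * b = b * a := by
    intro a ha b hb
    rw [hA] at ha
    rw [hB] at hb
    exact (comm_adjoin' hcm ha hb).symm
  have hfA : f ∈ A := hA ▸ Q.f_mem
  have hyA : y ∈ A := hA ▸ Q.sg.y_mem
  have hzA : z ∈ A := hA ▸ Q.sg.z_mem
  have hy'B : y' ∈ B := hB ▸ N.y_mem
  have hz'B : z' ∈ B := hB ▸ N.z_mem
  have heB : ∀ i j, e i j ∈ B := fun i j => hB ▸ M.mem i j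
  have hee : e o o * e o o = e o o := by rw [M.mul, if_pos rfl]
  -- products
  have hprod : ∀ a ∈ A, ∀ b ∈ B, ∀ a' ∈ A, ∀ b' ∈ B, a * b * (a' * b') = a * a' * (b * b') := by
    intro a ha b hb a' ha' b' hb'
    rw [mul_assoc, ← mul_assoc b, ← hc a' ha' b hb]
    noncomm_ring
  have hff : f * e o o * (f * e o o) = f * e o o := by
    rw [hprod f hfA _ (heB o o) f hfA _ (heB o o), Q.ff, hee]
  refine ⟨⟨sup_le Q.idl.le hJ.le, fun y hy z hz => ?_⟩, ?_, hff, fun x hx => ?_, ?_, ?_⟩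
  · obtain ⟨a, ha, b, hb, rfl⟩ := Submodule.mem_sup.1 hz
    have e1 : y * (a + b) - (a + b) * y = (y * a - a * y) + (y * b - b * y) := by noncomm_ring
    rw [e1]
    exact Submodule.add_mem_sup (Q.idl.br y hy a ha) (hJ.br y hy b hb)
  · rw [← hC]
    exact C.mul_mem (hAC hfA) (hBC (heB o o))
  · have h1 := adjoin_sup hcm hx
    rw [← hA, ← hB] at h1
    refine Submodule.mul_induction_on (C := fun x => ∃ c : K,
      f * e o o * x * (f * e o o) = c • (f * e o o)) h1 (fun a ha b hb => ?_) fun x y hx hy => ?_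
    · have ha' : a ∈ A := ha
      have hb' : b ∈ B := hb
      obtain ⟨c, hc'⟩ := Q.min a (hA ▸ ha')
      obtain ⟨c', hc''⟩ := M.min o (x := b) (hB ▸ hb')
      refine ⟨c * c', ?_⟩
      rw [hprod f hfA _ (heB o o) a ha' b hb',
        hprod (f * a) (A.mul_mem hfA ha') (e o o * b) (B.mul_mem (heB o o) hb') f hfA _ (heB o o),
        hc', hc'', smul_mul_smul_comm]
    · obtain ⟨c, hc'⟩ := hx
      obtain ⟨c', hc''⟩ := hy
      exact ⟨c + c', by rw [mul_add, add_mul, hc', hc'', add_smul]⟩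
  · have h1 := M.tr o (f := f) fun x hx => hc f hfA x (hB ▸ hx)
    rw [trace_idem Q.ff, trace_idem hff] at h1
    have h2 : Pool.Agent.W548.Odd.rk f = d * Pool.Agent.W548.Odd.rk (f * e o o) := by
      exact_mod_cast h1
    rw [← Q.rk, h2, pow_succ]
    ring
  · rw [← hC]
    have hstA : st f ∈ A := by
      rw [hA]
      exact st_adjoin h h1 Q.idl.le Q.f_mem
    have hstB : st (e o o) ∈ B := by
      rw [hB]
      exact st_adjoin h h1 hJ.le (M.mem o o)
    refine ⟨C.mul_mem (hAC hyA) (hBC hy'B), C.mul_mem (hAC hzA) (hBC hz'B), ?_, ?_, ?_, ?_, ?_⟩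
    · rw [h.st_mul, ← hc _ hstA _ hstB, hprod _ hstA _ hstB y hyA y' hy'B, Q.sg.sy, N.sy]
    · rw [hprod y hyA y' hy'B f hfA _ (heB o o), Q.sg.ye, N.ye]
    · rw [hprod z hzA z' hz'B y hyA y' hy'B, Q.sg.zy, N.zy]
    · rw [h.st_mul, Q.sg.sgn, N.sgn, smul_mul_smul_comm, ← hc y hyA y' hy'B, pow_succ, mul_comm ε]
    · rcases Q.sg.one with h1 | h1 <;> rcases N.one with h2 | h2 <;> rw [pow_succ, h1, h2] <;> simp

include h in
/-- The last state. -/
theorem Ste.last [Nontrivial V] (hs : Scal G) (h1 : st 1 = 1) {ω : V →ₗ[K] V →ₗ[K] K}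
    (hω : AltF st ω) {d m : ℕ} {ε : K} {f y z : End K V} (Q : Ste G st d ε I m f y z)
    (hGI : G ≤ I) : d ^ m = finrank K V ∧ ε ^ m = -1 := by
  have hf0 : f ≠ 0 := by
    intro h0
    have h2 := Q.rk
    rw [h0, rk_zero, zero_mul] at h2
    exact Module.finrank_pos.ne h2
  obtain ⟨v, hv⟩ : ∃ v, f v ≠ 0 := by
    by_contra hcon
    push Not at hcon
    exact hf0 (LinearMap.ext hcon)
  obtain ⟨w, hw⟩ : ∃ w, w = f v := ⟨_, rfl⟩
  have hw0 : w ≠ 0 := by rwa [hw]
  have hfw : f w = w := by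
    rw [hw]
    exact LinearMap.congr_fun Q.ff v
  -- the range of `f` is a line
  let W : Submodule K V :=
    { carrier := {u | ∃ a ∈ Algebra.adjoin K (I : Set (End K V)), a w = u}
      zero_mem' := ⟨0, zero_mem _, rfl⟩
      add_mem' := by
        rintro _ _ ⟨a, ha, rfl⟩ ⟨b, hb, rfl⟩
        exact ⟨a + b, add_mem ha hb, rfl⟩
      smul_mem' := by
        rintro c _ ⟨a, ha, rfl⟩
        exact ⟨c • a, Subalgebra.smul_mem _ ha c, rfl⟩ }
  have hW : W = ⊤ := by
    refine irr_top h hs ?_ ?_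
    · rintro y hy _ ⟨a, ha, rfl⟩
      exact ⟨y * a, mul_mem (Algebra.subset_adjoin (hGI hy)) ha, rfl⟩
    · intro h0
      have h2 : w ∈ W := ⟨1, one_mem _, rfl⟩
      rw [h0] at h2
      exact hw0 h2
  have hline : ∀ x, ∃ c : K, f x = c • w := by
    intro x
    have h2 : x ∈ W := by
      rw [hW]
      trivial
    obtain ⟨a, ha, rfl⟩ := h2
    obtain ⟨c, hc⟩ := Q.min a ha
    refine ⟨c, ?_⟩
    have h3 := LinearMap.congr_fun hc w
    change f (a (f w)) = c • f w at h3
    rwa [hfw] at h3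
  have hrk : Pool.Agent.W548.Odd.rk f = 1 := by
    have h2 : Pool.Agent.W548.Odd.rk f ≤ 1 := by
      unfold Pool.Agent.W548.Odd.rk
      calc finrank K (LinearMap.range f) ≤ finrank K (Submodule.span K {w}) := by
            refine Submodule.finrank_mono ?_
            rintro _ ⟨x, rfl⟩
            obtain ⟨c, hc⟩ := hline x
            rw [hc]
            exact Submodule.smul_mem _ _ (Submodule.mem_span_singleton_self w)
      _ ≤ 1 := (finrank_span_singleton hw0).le
    have h3 : Pool.Agent.W548.Odd.rk f ≠ 0 := fun h0 => hf0 (rk_eq_zero h0)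
    omega
  refine ⟨by rw [← Q.rk, hrk, one_mul], ?_⟩
  -- the sign
  obtain ⟨hω1, hω2, hω3⟩ := id hω
  have hyw : y w ≠ 0 := by
    intro h0
    apply hw0
    rw [← hfw, ← Q.sg.zy, Module.End.mul_apply, h0, map_zero]
  have hne : ω w (y w) ≠ 0 := by
    intro h0
    apply hyw
    refine hω3 _ fun x => ?_
    have e1 : y w = st f (y w) := (LinearMap.congr_fun Q.sg.sy w).symm
    rw [e1, ← hω1]
    obtain ⟨c, hc⟩ := hline x
    rw [hc, map_smul, LinearMap.smul_apply, h0, smul_zero]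
  have e2 : ω w (y w) = -(ε ^ m * ω w (y w)) := by
    have e3 := hω2 w (y w)
    rw [hω1, Q.sg.sgn, LinearMap.smul_apply, map_smul, smul_eq_mul] at e3
    exact e3
  have e3 : (ε ^ m + 1) * ω w (y w) = 0 := by linear_combination e2
  exact eq_neg_of_add_eq_zero_left ((mul_eq_zero.1 e3).resolve_right hne)

include h in
/-- Either the involution generates the Lie algebra as an ideal, or the dimension is a power with
an odd exponent greater than one. -/
theorem gn_or_pow [IsAlgClosed K] (hs : Scal G) {ω : V →ₗ[K] V →ₗ[K] K} (hω : AltF st ω)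
    {S : Set (End K V)} (hS : ∀ D ∈ S, D ∈ G ∧ D * D = 1)
    (hgen : ∀ L : Submodule K (End K V), S ⊆ L → (∀ y ∈ L, ∀ z ∈ L, y * z - z * y ∈ L) → G ≤ L)
    {D₀ : End K V} (hD₀S : D₀ ∈ S) (hne : D₀ ≠ 0)
    (hconj : ∀ D ∈ S, ∃ (s : End K V ≃+* End K V) (τ : K ≃+* K), Tr G st D₀ D s τ) :
    G ≤ gn G D₀ ∨ ∃ d m : ℕ, 3 ≤ m ∧ Odd m ∧ d ^ m = finrank K V := by
  obtain ⟨hD₀, hD₀2⟩ := hS D₀ hD₀S
  have hntr : Nontrivial V := by
    by_contra hcon
    rw [not_nontrivial_iff_subsingleton] at hcon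
    exact hne (LinearMap.ext fun v => Subsingleton.elim _ _)
  have h10 : (1 : End K V) ≠ 0 := one_ne_zero
  have h1 : st 1 = 1 := st_one h hD₀ hD₀2
  obtain ⟨d, hd, e, M⟩ := idl_mu h hs hD₀ hD₀2 (gn_idl h hD₀)
  obtain ⟨y, z, ε, N⟩ := exists_sg M (fun x hx => st_adjoin h h1 (gn_idl h hD₀).le hx) h.st_mul
    (st_st hω) 0 h10
  have hd2 : 2 ≤ d := by
    have h2 : d ≠ 0 := hd.out
    by_contra hcon
    obtain rfl : d = 1 := by omega
    apply hne
    obtain ⟨c, hc⟩ := M.span D₀ (Algebra.subset_adjoin mem_gn)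
    have h3 := M.sum
    rw [Fin.sum_univ_one] at h3 hc
    rw [Fin.sum_univ_one, h3] at hc
    exact scalar_zero h hD₀ hD₀2 hD₀ hc
  have key : ∀ n : ℕ, ∀ (I : Submodule K (End K V)) (m : ℕ) (f y z : End K V),
      rk f = n → Ste G st d ε I m f y z → 1 ≤ m → D₀ ∈ I → (m = 1 → I ≤ gn G D₀) →
      ∃ (I : Submodule K (End K V)) (m : ℕ) (f y z : End K V),
        Ste G st d ε I m f y z ∧ 1 ≤ m ∧ (m = 1 → I ≤ gn G D₀) ∧ G ≤ I := by
    intro n
    induction n using Nat.strong_induction_on with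
    | _ n ih =>
      intro I m f y z hn Q hm hD₀I hm1
      by_cases hall : ∀ D ∈ S, D ∈ I
      · exact ⟨I, m, f, y, z, Q, hm, hm1,
          hgen I hall fun y hy z hz => Q.idl.br y (Q.idl.le hy) z hz⟩
      push Not at hall
      obtain ⟨D, hDS, hDI⟩ := hall
      obtain ⟨hD, hD2⟩ := hS D hDS
      have hDc : D ∈ cen G I := (invol_dich h hs Q.idl hD hD2).resolve_left hDI
      obtain ⟨s, τ, T⟩ := hconj D hDS
      have Q' := Q.step h h1 hDc (T.mu h hD₀ M) (T.sg h hD₀ N)
      have h2 := Q.rk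
      have h3 := Q'.rk
      have h4 : 0 < finrank K V := Module.finrank_pos
      have h5 : rk (f * s (e 0 0)) < n := by
        rw [pow_succ, mul_comm (d ^ m), ← mul_assoc, ← h2] at h3
        have h6 : 0 < d ^ m := by positivity
        have h7 := Nat.eq_of_mul_eq_mul_right h6 h3
        have h8 : rk f ≠ 0 := by
          intro h0
          rw [h0, zero_mul] at h2
          omega
        rw [← hn, ← h7]
        nlinarith [Nat.pos_of_ne_zero h8, Nat.zero_le (rk (f * s (e 0 0)))]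
      exact ih _ h5 _ (m + 1) _ _ _ rfl Q' (by omega) (Submodule.mem_sup_left hD₀I)
        (fun h0 => by omega)
  obtain ⟨I, m, f, y', z', Q, hm, hm1, hGI⟩ := key _ _ 1 _ _ _ rfl (Ste.start h hD₀ M N) le_rfl
    mem_gn fun _ => le_rfl
  obtain ⟨h2, h3⟩ := Q.last h hs h1 hω hGI
  rcases Nat.lt_or_ge 1 m with h4 | h4
  · right
    have h5 : Odd m := by
      rw [← Nat.not_even_iff_odd]
      intro h6
      rcases N.one with h7 | h7
      · rw [h7, one_pow] at h3
        have h8 : (2 : K) = 0 := by linear_combination h3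
        exact two_ne_zero h8
      · rw [h7, h6.neg_one_pow] at h3
        have h8 : (2 : K) = 0 := by linear_combination h3
        exact two_ne_zero h8
    refine ⟨d, m, ?_, h5, h2⟩
    obtain ⟨k, rfl⟩ := h5
    omega
  · left
    exact hGI.trans (hm1 (by omega))

end Pool.Agent.Y91.P
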