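import Mathlib
import Pool.Agent.Y91.P.Ten3

/-!
# Anticommuting involutions with an invariant form
-/

set_option linter.unusedSectionVars false

universe u

namespace Pool.Agent.Y91.P

open Module LinearMap Pool.Agent.W548.Odd Pool.Agent.Y91.JP

variable {K : Type*} [Field K] [CharZero K]

/-- Anticommuting involutions with a compatible form. -/
structure Cl {V : Type*} [AddCommGroup V] [Module K V] (M : ℕ) (Y : ℕ → End K V)
    (ω : V →ₗ[K] V →ₗ[K] K) (ε δ : K) : Prop where
  sq : ∀ i < M, Y i * Y i = 1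
  anti : ∀ i < M, ∀ j < M, i ≠ j → Y i * Y j = -(Y j * Y i)
  form : ∀ u v, ω u v = ε * ω v u
  adj : ∀ i < M, ∀ u v, ω (Y i u) v = δ * ω u (Y i v)
  nd : ∀ u, (∀ v, ω u v = 0) → u = 0
  irr : ∀ W : Submodule K V, (∀ i < M, ∀ w ∈ W, Y i w ∈ W) → W ≠ ⊥ → W = ⊤

section step

variable {V : Type u} [AddCommGroup V] [Module K V] [FiniteDimensional K V] {M : ℕ}
  {Y : ℕ → End K V} {ω : V →ₗ[K] V →ₗ[K] K} {ε δ : K}

/-- One of the eigenspaces. -/
def Fix (D : End K V) : Submodule K V where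
  carrier := {v | D v = v}
  zero_mem' := map_zero D
  add_mem' := fun {a b} ha hb => by
    change D (a + b) = a + b
    rw [map_add, show D a = a from ha, show D b = b from hb]
  smul_mem' := fun c a ha => by
    change D (c • a) = c • a
    rw [map_smul, show D a = a from ha]

theorem mem_fix {D : End K V} {v : V} : v ∈ Fix D ↔ D v = v := Iff.rfl

theorem finrank_fix {D E : End K V} (hD : D * D = 1) (hE : E * E = 1) (hDE : D * E = -(E * D)) :
    2 * finrank K (Fix D) = finrank K V := by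
  have h0 : trace K V D = 0 := by
    have h1 : trace K V D = -trace K V D := by
      calc trace K V D = trace K V (D * E * E) := by rw [mul_assoc, hE, mul_one]
      _ = trace K V (E * (D * E)) := LinearMap.trace_mul_comm K _ _
      _ = -trace K V D := by rw [hDE, mul_neg, ← mul_assoc, hE, one_mul, map_neg]
    have h2 : (2 : K) * trace K V D = 0 := by linear_combination h1
    exact (mul_eq_zero.1 h2).resolve_left two_ne_zero
  have hp : ((2 : K)⁻¹ • (1 + D)) * ((2 : K)⁻¹ • (1 + D)) = (2 : K)⁻¹ • (1 + D) := by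
    rw [smul_mul_smul_comm]
    have e2 : (1 + D) * (1 + D) = (2 : K) • (1 + D) := by
      rw [two_smul, mul_add, add_mul, add_mul, one_mul, mul_one, hD, one_mul]
      abel
    rw [e2, smul_smul]
    norm_num
  have h1 := trace_idem hp
  rw [map_smul, map_add, LinearMap.trace_one, h0, add_zero, smul_eq_mul] at h1
  have h2 : LinearMap.range ((2 : K)⁻¹ • (1 + D)) = Fix D := by
    ext v
    constructor
    · rintro ⟨w, rfl⟩
      have hDD : D (D w) = w := LinearMap.congr_fun hD w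
      change D ((2 : K)⁻¹ • (w + D w)) = (2 : K)⁻¹ • (w + D w)
      rw [map_smul, map_add, hDD, add_comm]
    · intro hv
      refine ⟨v, ?_⟩
      have hv' : D v = v := hv
      change (2 : K)⁻¹ • (v + D v) = v
      rw [hv', ← two_smul K v, smul_smul, inv_mul_cancel₀ two_ne_zero, one_smul]
  unfold rk at h1
  rw [h2] at h1
  have h3 : ((2 * finrank K (Fix D) : ℕ) : K) = (finrank K V : K) := by
    push_cast
    rw [← h1, ← mul_assoc, mul_inv_cancel₀ two_ne_zero, one_mul]
  exact_mod_cast h3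

theorem split_fix {D : End K V} (hD : D * D = 1) (v : V) :
    ∃ a b, D a = a ∧ D b = -b ∧ v = a + b := by
  have hDD : D (D v) = v := LinearMap.congr_fun hD v
  refine ⟨(2 : K)⁻¹ • (v + D v), (2 : K)⁻¹ • (v - D v), ?_, ?_, ?_⟩
  · rw [map_smul, map_add, hDD, add_comm]
  · rw [map_smul, map_sub, hDD, ← smul_neg, neg_sub]
  · rw [← smul_add]
    have e2 : v + D v + (v - D v) = (2 : K) • v := by
      rw [two_smul]
      abel
    rw [e2, smul_smul, inv_mul_cancel₀ two_ne_zero, one_smul]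

/-- The step, for a given form. -/
theorem Cl.step (C : Cl (M + 2) Y ω ε δ) {ι : K} (hι : ι * ι = -1) (T : End K V) {ε' δ' : K}
    (h1 : ∀ u, Y 0 u = u → (∀ v, Y 0 v = v → ω u (T v) = 0) → u = 0)
    (h2 : ∀ u v, Y 0 u = u → Y 0 v = v → ω u (T v) = ε' * ω v (T u))
    (h3 : ∀ j < M, ∀ u v, Y 0 u = u → Y 0 v = v →
      ω (Y 1 (Y (j + 2) u)) (T v) = δ' * ω u (T (Y 1 (Y (j + 2) v)))) :
    ∃ (Y' : ℕ → End K (Fix (Y 0))) (ω' : Fix (Y 0) →ₗ[K] Fix (Y 0) →ₗ[K] K),
      Cl M Y' ω' ε' δ' := by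
  have hY0 : Y 0 * Y 0 = 1 := C.sq 0 (by omega)
  have hY1 : Y 1 * Y 1 = 1 := C.sq 1 (by omega)
  have h01 : Y 0 * Y 1 = -(Y 1 * Y 0) := C.anti 0 (by omega) 1 (by omega) (by omega)
  have hc : ∀ j < M, Y 0 * (Y 1 * Y (j + 2)) = Y 1 * Y (j + 2) * Y 0 := by
    intro j hj
    rw [← mul_assoc, h01, neg_mul, mul_assoc, C.anti 0 (by omega) (j + 2) (by omega) (by omega),
      mul_neg, neg_neg, mul_assoc]
  have hmem : ∀ j < M, ∀ v ∈ Fix (Y 0), (ι • (Y 1 * Y (j + 2))) v ∈ Fix (Y 0) := by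
    intro j hj v hv
    have hv' : Y 0 v = v := hv
    change Y 0 (ι • (Y 1 * Y (j + 2)) v) = ι • (Y 1 * Y (j + 2)) v
    rw [map_smul]
    have e1 := LinearMap.congr_fun (hc j hj) v
    change Y 0 ((Y 1 * Y (j + 2)) v) = (Y 1 * Y (j + 2)) (Y 0 v) at e1
    rw [e1, hv']
  let Y' : ℕ → End K (Fix (Y 0)) := fun j =>
    if hj : j < M then (ι • (Y 1 * Y (j + 2))).restrict (hmem j hj) else 0
  have hY' : ∀ j < M, ∀ v : Fix (Y 0), ((Y' j v : Fix (Y 0)) : V) = ι • Y 1 (Y (j + 2) v) := by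
    intro j hj v
    simp only [Y', dif_pos hj]
    rfl
  let ω' : Fix (Y 0) →ₗ[K] Fix (Y 0) →ₗ[K] K := LinearMap.mk₂ K
    (fun u v => ω u (T v)) (fun a b c => by simp) (fun c a b => by simp)
    (fun a b c => by simp) (fun c a b => by simp)
  have hω' : ∀ u v : Fix (Y 0), ω' u v = ω u (T v) := fun u v => rfl
  refine ⟨Y', ω', ?_, ?_, ?_, ?_, ?_, ?_⟩
  · intro i hi
    refine LinearMap.ext fun v => Subtype.ext ?_
    change ((Y' i (Y' i v) : Fix (Y 0)) : V) = v
    rw [hY' i hi, hY' i hi, map_smul, map_smul, smul_smul, hι]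
    have e1 : Y 1 * Y (i + 2) * (Y 1 * Y (i + 2)) = -1 := by
      calc Y 1 * Y (i + 2) * (Y 1 * Y (i + 2)) = Y 1 * (Y (i + 2) * Y 1) * Y (i + 2) := by
            noncomm_ring
      _ = -(Y 1 * Y 1 * (Y (i + 2) * Y (i + 2))) := by
        rw [C.anti (i + 2) (by omega) 1 (by omega) (by omega)]
        noncomm_ring
      _ = -1 := by rw [hY1, C.sq (i + 2) (by omega), mul_one]
    have e2 := LinearMap.congr_fun e1 (v : V)
    change Y 1 (Y (i + 2) (Y 1 (Y (i + 2) v))) = -(v : V) at e2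
    rw [e2, neg_smul, one_smul, neg_neg]
  · intro i hi j hj hij
    refine LinearMap.ext fun v => Subtype.ext ?_
    change ((Y' i (Y' j v) : Fix (Y 0)) : V) = -((Y' j (Y' i v) : Fix (Y 0)) : V)
    rw [hY' i hi, hY' j hj, hY' j hj, hY' i hi]
    simp only [map_smul]
    rw [← smul_neg, ← smul_neg]
    congr 2
    have e1 : Y 1 * Y (i + 2) * (Y 1 * Y (j + 2)) = -(Y 1 * Y (j + 2) * (Y 1 * Y (i + 2))) := by
      have k1 : Y 1 * Y (i + 2) * (Y 1 * Y (j + 2)) = -(Y (i + 2) * Y (j + 2)) := by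
        calc Y 1 * Y (i + 2) * (Y 1 * Y (j + 2)) = Y 1 * (Y (i + 2) * Y 1) * Y (j + 2) := by
              noncomm_ring
        _ = -(Y 1 * Y 1 * (Y (i + 2) * Y (j + 2))) := by
          rw [C.anti (i + 2) (by omega) 1 (by omega) (by omega)]
          noncomm_ring
        _ = _ := by rw [hY1, one_mul]
      have k2 : Y 1 * Y (j + 2) * (Y 1 * Y (i + 2)) = -(Y (j + 2) * Y (i + 2)) := by
        calc Y 1 * Y (j + 2) * (Y 1 * Y (i + 2)) = Y 1 * (Y (j + 2) * Y 1) * Y (i + 2) := by
              noncomm_ring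
        _ = -(Y 1 * Y 1 * (Y (j + 2) * Y (i + 2))) := by
          rw [C.anti (j + 2) (by omega) 1 (by omega) (by omega)]
          noncomm_ring
        _ = _ := by rw [hY1, one_mul]
      rw [k1, k2, C.anti (i + 2) (by omega) (j + 2) (by omega) (by omega)]
    exact LinearMap.congr_fun e1 (v : V)
  · intro u v
    rw [hω', hω']
    exact h2 _ _ u.2 v.2
  · intro i hi u v
    rw [hω', hω', hY' i hi, hY' i hi]
    simp only [map_smul, LinearMap.smul_apply, smul_eq_mul]
    rw [h3 i hi _ _ u.2 v.2]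
    ring
  · intro u hu
    apply Subtype.ext
    refine h1 _ u.2 fun v hv => ?_
    exact hu ⟨v, hv⟩
  · intro W hW hne
    have hYY : ∀ v, Y 1 (Y 1 v) = v := fun v => LinearMap.congr_fun hY1 v
    have hY0Y1 : ∀ v, Y 0 (Y 1 v) = -(Y 1 (Y 0 v)) := fun v => LinearMap.congr_fun h01 v
    obtain ⟨W1, hW1⟩ : ∃ W1, W1 = W.map (Fix (Y 0)).subtype := ⟨_, rfl⟩
    have hW1f : ∀ w ∈ W1, Y 0 w = w := by
      rw [hW1]
      rintro _ ⟨w, -, rfl⟩
      exact w.2
    have hst : ∀ j < M, ∀ w ∈ W1, Y 1 (Y (j + 2) w) ∈ W1 := by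
      rw [hW1]
      rintro j hj _ ⟨w, hw, rfl⟩
      have h4 : ι • Y 1 (Y (j + 2) w) ∈ W.map (Fix (Y 0)).subtype := by
        rw [← hY' j hj w]
        exact ⟨_, hW j hj w hw, rfl⟩
      refine (Submodule.smul_mem_iff _ ?_).1 h4
      rintro rfl
      rw [mul_zero] at hι
      exact one_ne_zero (neg_eq_zero.1 hι.symm)
    have htop : W1 ⊔ W1.map (Y 1) = ⊤ := by
      refine C.irr _ ?_ ?_
      · intro i hi w hw
        obtain ⟨a, ha, _, ⟨b, hb, rfl⟩, rfl⟩ := Submodule.mem_sup.1 hw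
        rw [map_add]
        rcases i with _ | _ | i
        · rw [hW1f a ha, hY0Y1, hW1f b hb]
          exact Submodule.add_mem_sup ha (Submodule.neg_mem _ ⟨b, hb, rfl⟩)
        · rw [zero_add, hYY, add_comm]
          exact Submodule.add_mem_sup hb ⟨a, ha, rfl⟩
        · have hi' : i < M := by omega
          have e1 : Y (i + 2) a = Y 1 (Y 1 (Y (i + 2) a)) := (hYY _).symm
          have e2 : Y (i + 2) (Y 1 b) = -(Y 1 (Y (i + 2) b)) :=
            LinearMap.congr_fun (C.anti (i + 2) (by omega) 1 (by omega) (by omega)) b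
          change Y (i + 2) a + Y (i + 2) (Y 1 b) ∈ _
          rw [e1, e2, add_comm]
          exact Submodule.add_mem_sup (Submodule.neg_mem _ (hst i hi' b hb))
            ⟨_, hst i hi' a ha, rfl⟩
      · intro h0
        apply hne
        rw [Submodule.eq_bot_iff]
        intro w hw
        have h4 : (w : V) ∈ W1 ⊔ W1.map (Y 1) := Submodule.mem_sup_left (by
          rw [hW1]
          exact ⟨w, hw, rfl⟩)
        rw [h0, Submodule.mem_bot] at h4
        exact Subtype.ext h4
    rw [Submodule.eq_top_iff']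
    intro u
    have h4 : (u : V) ∈ W1 ⊔ W1.map (Y 1) := by
      rw [htop]
      trivial
    obtain ⟨a, ha, _, ⟨b, hb, rfl⟩, hab⟩ := Submodule.mem_sup.1 h4
    have hu : Y 0 (u : V) = u := u.2
    have e1 := congrArg (Y 0) hab
    rw [map_add, hW1f a ha, hY0Y1, hW1f b hb, hu, ← hab] at e1
    have e2 : Y 1 b = 0 := by
      have e3 : (2 : K) • Y 1 b = 0 := by
        rw [two_smul]
        have e4 := add_left_cancel e1
        nth_rewrite 1 [← e4]
        exact neg_add_cancel _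
      exact (smul_eq_zero.1 e3).resolve_left two_ne_zero
    rw [e2, add_zero] at hab
    rw [hW1] at ha
    obtain ⟨w, hw, hwa⟩ := ha
    have e3 : w = u := Subtype.ext (hwa.trans hab)
    rwa [← e3]

/-- The step. -/
theorem Cl.step' (C : Cl (M + 2) Y ω ε δ) {ι : K} (hι : ι * ι = -1) (hδ : δ = 1 ∨ δ = -1) :
    ∃ (Y' : ℕ → End K (Fix (Y 0))) (ω' : Fix (Y 0) →ₗ[K] Fix (Y 0) →ₗ[K] K),
      Cl M Y' ω' (δ * ε) (-δ) := by
  have hY0 : Y 0 * Y 0 = 1 := C.sq 0 (by omega)
  have hY1 : Y 1 * Y 1 = 1 := C.sq 1 (by omega)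
  have hYY : ∀ v, Y 1 (Y 1 v) = v := fun v => LinearMap.congr_fun hY1 v
  have h01 : Y 0 * Y 1 = -(Y 1 * Y 0) := C.anti 0 (by omega) 1 (by omega) (by omega)
  have hY0Y1 : ∀ v, Y 0 (Y 1 v) = -(Y 1 (Y 0 v)) := fun v => LinearMap.congr_fun h01 v
  have hz : ∀ x : K, x = -x → x = 0 := by
    intro x hx
    have h2 : (2 : K) * x = 0 := by linear_combination hx
    exact (mul_eq_zero.1 h2).resolve_left two_ne_zero
  rcases hδ with rfl | rfl
  · refine C.step hι 1 (fun u hu h1 => ?_) (fun u v hu hv => ?_) fun j hj u v hu hv => ?_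
    · refine C.nd u fun v => ?_
      obtain ⟨a, b, ha, hb, rfl⟩ := split_fix hY0 v
      have e1 : ω u a = 0 := h1 a ha
      have e2 : ω u b = 0 := by
        apply hz
        have e3 := C.adj 0 (by omega) u b
        rw [hu, hb, map_neg, one_mul] at e3
        exact e3
      rw [map_add, e1, e2, add_zero]
    · rw [one_mul]
      exact C.form u v
    · change ω (Y 1 (Y (j + 2) u)) v = -1 * ω u (Y 1 (Y (j + 2) v))
      have e1 : Y (j + 2) (Y 1 v) = -(Y 1 (Y (j + 2) v)) :=
        LinearMap.congr_fun (C.anti (j + 2) (by omega) 1 (by omega) (by omega)) v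
      rw [C.adj 1 (by omega), C.adj (j + 2) (by omega), e1, map_neg]
      ring
  · refine C.step hι (Y 1) (fun u hu h1 => ?_) (fun u v hu hv => ?_) fun j hj u v hu hv => ?_
    · refine C.nd u fun v => ?_
      obtain ⟨a, b, ha, hb, rfl⟩ := split_fix hY0 v
      have e1 : ω u a = 0 := by
        apply hz
        have e3 := C.adj 0 (by omega) u a
        rw [hu, ha, neg_one_mul] at e3
        exact e3
      have e2 : ω u b = 0 := by
        have e3 := h1 (Y 1 b) (by rw [hY0Y1, hb, map_neg, neg_neg])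
        rwa [hYY] at e3
      rw [map_add, e1, e2, add_zero]
    · have e1 := C.adj 1 (by omega) u v
      have e2 := C.form (Y 1 u) v
      linear_combination e1 - e2
    · rw [C.adj 1 (by omega), hYY, C.adj (j + 2) (by omega), hYY]
      ring

end step

/-- The base cases: a common eigenvector. -/
theorem Cl.base {V : Type u} [AddCommGroup V] [Module K V] [FiniteDimensional K V] {M : ℕ}
    {Y : ℕ → End K V} {ω : V →ₗ[K] V →ₗ[K] K} {ε δ : K} (C : Cl M Y ω ε δ) {v : V} (hv : v ≠ 0)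
    (hY : ∀ i < M, ∃ c : K, Y i v = c • v) : finrank K V = 1 ∧ ε = 1 := by
  have htop : Submodule.span K {v} = ⊤ := by
    refine C.irr _ ?_ ?_
    · intro i hi w hw
      obtain ⟨t, rfl⟩ := Submodule.mem_span_singleton.1 hw
      obtain ⟨c, hc⟩ := hY i hi
      rw [map_smul, hc]
      exact Submodule.smul_mem _ _ (Submodule.smul_mem _ _ (Submodule.mem_span_singleton_self v))
    · rwa [ne_eq, Submodule.span_singleton_eq_bot]
  refine ⟨?_, ?_⟩
  · rw [← finrank_top K V, ← htop]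
    exact finrank_span_singleton hv
  · have h1 : ω v v ≠ 0 := by
      intro h0
      apply hv
      refine C.nd v fun w => ?_
      have hw : w ∈ Submodule.span K {v} := by
        rw [htop]
        trivial
      obtain ⟨t, rfl⟩ := Submodule.mem_span_singleton.1 hw
      rw [map_smul, h0, smul_zero]
    have h2 := C.form v v
    have h3 : (ε - 1) * ω v v = 0 := by linear_combination -h2
    exact sub_eq_zero.1 ((mul_eq_zero.1 h3).resolve_right h1)

/-- The dimension and the type. -/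
theorem Cl.dim {ι : K} (hι : ι * ι = -1) (M : ℕ) :
    ∀ (V : Type u) [AddCommGroup V] [Module K V] [FiniteDimensional K V] [Nontrivial V]
      (Y : ℕ → End K V) (ω : V →ₗ[K] V →ₗ[K] K) (ε δ : K), Cl M Y ω ε δ → (δ = 1 ∨ δ = -1) →
      ∃ n, finrank K V = 2 ^ n ∧ (n % 4 = 0 → ε = 1) ∧ (n % 4 = 1 → ε = δ) ∧
        (n % 4 = 2 → ε = -1) ∧ (n % 4 = 3 → ε = -δ) := by
  induction M using Nat.twoStepInduction with
  | zero =>
    intro V _ _ _ _ Y ω ε δ C hδ
    obtain ⟨v, hv⟩ := exists_ne (0 : V)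
    obtain ⟨h1, h2⟩ := C.base hv fun i hi => absurd hi (by omega)
    exact ⟨0, by rw [h1, pow_zero], fun _ => h2, by omega, by omega, by omega⟩
  | one =>
    intro V _ _ _ _ Y ω ε δ C hδ
    obtain ⟨v, hv⟩ := exists_ne (0 : V)
    obtain ⟨a, b, ha, hb, hab⟩ := split_fix (C.sq 0 (by omega)) v
    obtain ⟨w, c, hw0, hw⟩ : ∃ (w : V) (c : K), w ≠ 0 ∧ Y 0 w = c • w := by
      by_cases h0 : a = 0
      · refine ⟨b, -1, ?_, by rw [hb, neg_smul, one_smul]⟩
        rintro rfl
        apply hv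
        rw [hab, h0, add_zero]
      · exact ⟨a, 1, h0, by rw [ha, one_smul]⟩
    obtain ⟨h1, h2⟩ := C.base hw0 fun i hi => ⟨c, by
      obtain rfl : i = 0 := by omega
      exact hw⟩
    exact ⟨0, by rw [h1, pow_zero], fun _ => h2, by omega, by omega, by omega⟩
  | more M ih _ =>
    intro V _ _ _ _ Y ω ε δ C hδ
    obtain ⟨Y', ω', C'⟩ := C.step' hι hδ
    have h1 := finrank_fix (C.sq 0 (by omega)) (C.sq 1 (by omega))
      (C.anti 0 (by omega) 1 (by omega) (by omega))
    have h2 : 0 < finrank K V := Module.finrank_pos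
    have h30 : 0 < finrank K (Fix (Y 0)) := by omega
    have h3 : Nontrivial (Fix (Y 0)) := (Module.finrank_pos_iff (R := K)).1 h30
    have hδ' : (-δ) = 1 ∨ (-δ) = -1 := by
      rcases hδ with rfl | rfl
      · right; rfl
      · left; rw [neg_neg]
    have hδδ : δ * δ = 1 := by
      rcases hδ with rfl | rfl <;> ring
    obtain ⟨n, hn, n0, n1, n2, n3⟩ := ih _ Y' ω' _ _ C' hδ'
    refine ⟨n + 1, by rw [← h1, hn, pow_succ]; ring, fun h4 => ?_, fun h4 => ?_, fun h4 => ?_,
      fun h4 => ?_⟩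
    · have h5 := n3 (by omega)
      rw [neg_neg] at h5
      calc ε = δ * δ * ε := by rw [hδδ, one_mul]
      _ = δ * (δ * ε) := by ring
      _ = 1 := by rw [h5, hδδ]
    · have h5 := n0 (by omega)
      calc ε = δ * δ * ε := by rw [hδδ, one_mul]
      _ = δ * (δ * ε) := by ring
      _ = δ := by rw [h5, mul_one]
    · have h5 := n1 (by omega)
      calc ε = δ * δ * ε := by rw [hδδ, one_mul]
      _ = δ * (δ * ε) := by ring
      _ = -1 := by rw [h5, mul_neg, hδδ]
    · have h5 := n2 (by omega)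
      calc ε = δ * δ * ε := by rw [hδδ, one_mul]
      _ = δ * (δ * ε) := by ring
      _ = -δ := by rw [h5, mul_neg, mul_one]

end Pool.Agent.Y91.P
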