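import Mathlib
import Pool.Agent.Y91.P.Cliff

/-!
# Jordan pairs of quadratic forms
-/

set_option linter.unusedSectionVars false

namespace Pool.Agent.Y91.P

open Module LinearMap Pool.Agent.W548.Odd Pool.Agent.Y91.JP

variable {K : Type*} [Field K] [CharZero K] {V : Type*} [AddCommGroup V] [Module K V]
  [FiniteDimensional K V]

/-- Jordan pairs of quadratic forms. -/
structure Spin (G : Submodule K (End K V)) (D e f P Q : End K V) (r : K) : Prop where
  em : e ∈ Kp G D
  fm : f ∈ Kp G (-D)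
  ef : e * f = P
  fe : f * e = Q
  PQ : P + Q = 1
  PD : P - Q = D
  r0 : r ≠ 0
  trP : trace K V P = 2 * r
  sq : ∀ x ∈ Kp G D, ∃ t n : K, x * f * x = t • x - n • e ∧ r * t = trace K V (x * f)

variable {G I : Submodule K (End K V)} {st : End K V →ₗ[K] End K V} (h : Setup G st)

theorem swap {D c1 d1 p1 q1 c2 d2 p2 q2 : End K V} (F : Two G st D c1 d1 p1 q1 c2 d2 p2 q2) :
    Two G st D c2 d2 p2 q2 c1 d1 p1 q1 :=
  ⟨F.B, F.A, F.p2c1, F.c1q2, F.q2d1, F.d1p2⟩

include h in
theorem form_sq {D c1 d1 p1 q1 c2 d2 p2 q2 : End K V} (F : Two G st D c1 d1 p1 q1 c2 d2 p2 q2)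
    {a : End K V} (ha : Co G D p1 q1 p2 q2 a) : ∃ κ : K, a * d2 * a = κ • c1 := by
  obtain ⟨s, hs⟩ := F.form h ha ha
  refine ⟨(2 : K)⁻¹ * s, ?_⟩
  rw [mul_smul, ← hs, ← two_smul K, smul_smul, inv_mul_cancel₀ two_ne_zero, one_smul]

include h in
theorem spin_of_two {D c1 d1 p1 q1 c2 d2 p2 q2 : End K V}
    (F : Two G st D c1 d1 p1 q1 c2 d2 p2 q2) (hPQ : p1 + p2 + (q1 + q2) = 1)
    (hPD : p1 + p2 - (q1 + q2) = D) (hrk : rk c2 = rk c1) :
    Spin G D (c1 + c2) (d1 + d2) (p1 + p2) (q1 + q2) (rk c1 : K) := by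
  have hrp : ∀ {c d p q : End K V}, MP G st D c d p q → trace K V p = (rk c : K) := by
    intro c d p q A
    rw [trace_idem A.pp]
    congr 1
    apply le_antisymm
    · rw [← A.cd]
      exact rk_mul_le_left _ _
    · conv_lhs => rw [← A.pc]
      exact rk_mul_le_left _ _
  have hr0 : (rk c1 : K) ≠ 0 := by
    have h1 := rk_pos_of_ne F.A.ne
    exact_mod_cast h1.ne'
  have htr : trace K V p2 = (rk c1 : K) := by rw [hrp F.B, hrk]
  refine ⟨Submodule.add_mem _ F.A.cm F.B.cm, Submodule.add_mem _ F.A.dm F.B.dm, ?_, ?_, hPQ, hPD,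
    hr0, ?_, ?_⟩
  · rw [add_mul, mul_add, mul_add, F.A.cd, F.c1d2, F.c2d1, F.B.cd, add_zero, zero_add]
  · rw [add_mul, mul_add, mul_add, F.A.dc, F.d1c2, F.d2c1, F.B.dc, add_zero, zero_add]
  · rw [map_add, hrp F.A, htr, two_mul]
  intro x hx
  obtain ⟨α, hα⟩ := F.A.mx x hx.1
  obtain ⟨β, hβ⟩ := F.B.mx x hx.1
  obtain ⟨a, had⟩ : ∃ a, a = p1 * x * q2 + p2 * x * q1 := ⟨_, rfl⟩
  have ha : Co G D p1 q1 p2 q2 a := by
    rw [had]
    exact F.co_of h hx
  obtain ⟨κ, hκ⟩ := form_sq h F ha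
  obtain ⟨κ', hκ'⟩ := form_sq h (swap F) (a := a) ⟨ha.1, ha.2.2.1, ha.2.1, by
    rw [add_comm]
    exact ha.2.2.2⟩
  have hκκ : κ' = κ := by
    by_cases h0 : p1 * a = 0
    · have e1 : κ • c1 = 0 := by
        rw [← hκ]
        calc a * d2 * a = a * (q2 * d2) * a := by rw [F.B.qd]
        _ = p1 * a * d2 * a := by rw [ha.2.1]; noncomm_ring
        _ = 0 := by rw [h0, zero_mul, zero_mul]
      have e2 : κ' • c2 = 0 := by
        rw [← hκ']
        calc a * d1 * a = a * (d1 * p1) * a := by rw [F.A.dp]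
        _ = a * d1 * (p1 * a) := by noncomm_ring
        _ = 0 := by rw [h0, mul_zero]
      rw [(smul_eq_zero.1 e1).resolve_right F.A.ne, (smul_eq_zero.1 e2).resolve_right F.B.ne]
    · have e1 : κ • (p1 * a) = κ' • (p1 * a) := by
        calc κ • (p1 * a) = (κ • c1) * d1 * a := by
              rw [smul_mul_assoc, smul_mul_assoc, F.A.cd]
        _ = a * d2 * (a * d1 * a) := by rw [← hκ]; noncomm_ring
        _ = κ' • (a * (d2 * c2)) := by rw [hκ', mul_smul_comm, mul_assoc]
        _ = κ' • (p1 * a) := by rw [F.B.dc, ha.2.1]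
      have e2 : (κ' - κ) • (p1 * a) = 0 := by rw [sub_smul, e1, sub_self]
      exact sub_eq_zero.1 ((smul_eq_zero.1 e2).resolve_right h0)
  have hPx : (p1 + p2) * x = x := by
    have e1 : (2 : K) • ((p1 + p2) * x) = (2 : K) • x := by
      calc (2 : K) • ((p1 + p2) * x) = (p1 + p2 + (q1 + q2) + (p1 + p2 - (q1 + q2))) * x := by
            rw [two_smul]; noncomm_ring
      _ = (2 : K) • x := by rw [hPQ, hPD, add_mul, one_mul, hx.2.1, two_smul]
    have e2 := congrArg (fun z => (2 : K)⁻¹ • z) e1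
    simpa [smul_smul] using e2
  have hxQ : x * (q1 + q2) = x := by
    have e1 : (2 : K) • (x * (q1 + q2)) = (2 : K) • x := by
      calc (2 : K) • (x * (q1 + q2)) = x * (p1 + p2 + (q1 + q2) - (p1 + p2 - (q1 + q2))) := by
            rw [two_smul]; noncomm_ring
      _ = (2 : K) • x := by
        rw [hPQ, hPD, mul_sub, mul_one, hx.2.2, sub_neg_eq_add, two_smul]
    have e2 := congrArg (fun z => (2 : K)⁻¹ • z) e1
    simpa [smul_smul] using e2
  have hxe : x = α • c1 + β • c2 + a := by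
    calc x = (p1 + p2) * x * (q1 + q2) := by rw [hPx, hxQ]
    _ = p1 * x * q1 + p2 * x * q2 + (p1 * x * q2 + p2 * x * q1) := by noncomm_ring
    _ = _ := by rw [hα, hβ, had]
  have haq1 : a * q1 = p2 * a := ha.2.2.1.symm
  have haq2 : a * q2 = p1 * a := ha.2.1.symm
  have had1 : a * d1 = p2 * a * d1 := by rw [ha.2.2.1, mul_assoc, F.A.qd]
  have had2 : a * d2 = p1 * a * d2 := by rw [ha.2.1, mul_assoc, F.B.qd]
  have hxf : x * (d1 + d2) = α • p1 + β • p2 + (a * d1 + a * d2) := by
    rw [hxe]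
    simp only [add_mul, mul_add, smul_mul_assoc]
    rw [F.A.cd, F.c1d2, F.c2d1, F.B.cd]
    simp
    abel
  refine ⟨α + β, α * β - κ, ?_, ?_⟩
  · have e1 : p1 * x = α • c1 + p1 * a := by
      rw [hxe]
      simp only [mul_add, mul_smul_comm]
      rw [F.A.pc, F.pc]
      simp
    have e2 : p2 * x = β • c2 + p2 * a := by
      rw [hxe]
      simp only [mul_add, mul_smul_comm]
      rw [F.B.pc, F.p2c1]
      simp
    have e3 : a * d1 * x = α • (p2 * a) + κ • c2 := by
      rw [hxe]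
      simp only [mul_add, mul_smul_comm]
      rw [mul_assoc a d1 c1, F.A.dc, mul_assoc a d1 c2, F.d1c2, haq1, hκ', hκκ]
      simp
    have e4 : a * d2 * x = β • (p1 * a) + κ • c1 := by
      rw [hxe]
      simp only [mul_add, mul_smul_comm]
      rw [mul_assoc a d2 c2, F.B.dc, mul_assoc a d2 c1, F.d2c1, haq2, hκ]
      simp
    rw [hxf]
    simp only [add_mul, smul_mul_assoc]
    rw [e1, e2, e3, e4]
    have e5 : p1 * a = a - p2 * a := eq_sub_of_add_eq ha.2.2.2
    rw [e5]
    conv_rhs => rw [hxe]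
    module
  · rw [hxf, map_add, map_add, map_add, map_smul, map_smul, hrp F.A, htr]
    have e1 : trace K V (a * d1) = 0 := by
      rw [had1, mul_assoc, LinearMap.trace_mul_comm, mul_assoc, F.d1p2, mul_zero, map_zero]
    have e2 : trace K V (a * d2) = 0 := by
      rw [had2, mul_assoc, LinearMap.trace_mul_comm, mul_assoc, F.dp, mul_zero, map_zero]
    rw [e1, e2, smul_eq_mul, smul_eq_mul]
    ring

namespace Spin

variable {D e f P Q : End K V} {r : K} (F : Spin G D e f P Q r)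

/-- The adjoint element. -/
noncomputable def sh (f : End K V) (r : K) : End K V →ₗ[K] End K V where
  toFun x := (r⁻¹ * trace K V (x * f)) • f - f * x * f
  map_add' x y := by
    rw [add_mul, map_add, mul_add, mul_add, add_mul]
    module
  map_smul' c x := by
    simp only [smul_mul_assoc, mul_smul_comm, map_smul, smul_eq_mul, RingHom.id_apply, smul_sub,
      smul_smul]
    congr 2
    ring

theorem sh_apply (f : End K V) (r : K) (x : End K V) :
    sh f r x = (r⁻¹ * trace K V (x * f)) • f - f * x * f := rfl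

include F

theorem Px {x : End K V} (hx : x ∈ Kp G D) : P * x = x := by
  have e1 : (2 : K) • (P * x) = (2 : K) • x := by
    calc (2 : K) • (P * x) = (P + Q + (P - Q)) * x := by rw [two_smul]; noncomm_ring
    _ = (2 : K) • x := by rw [F.PQ, F.PD, add_mul, one_mul, hx.2.1, two_smul]
  have e2 := congrArg (fun z => (2 : K)⁻¹ • z) e1
  simpa [smul_smul] using e2

theorem xQ {x : End K V} (hx : x ∈ Kp G D) : x * Q = x := by
  have e1 : (2 : K) • (x * Q) = (2 : K) • x := by
    calc (2 : K) • (x * Q) = x * (P + Q - (P - Q)) := by rw [two_smul]; noncomm_ring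
    _ = (2 : K) • x := by rw [F.PQ, F.PD, mul_sub, mul_one, hx.2.2, sub_neg_eq_add, two_smul]
  have e2 := congrArg (fun z => (2 : K)⁻¹ • z) e1
  simpa [smul_smul] using e2

theorem Qz {x : End K V} (hx : x ∈ Kp G (-D)) : Q * x = x := by
  have hx' := mem_Kn.1 hx
  have e1 : (2 : K) • (Q * x) = (2 : K) • x := by
    calc (2 : K) • (Q * x) = (P + Q - (P - Q)) * x := by rw [two_smul]; noncomm_ring
    _ = (2 : K) • x := by rw [F.PQ, F.PD, sub_mul, one_mul, hx'.2.1, sub_neg_eq_add, two_smul]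
  have e2 := congrArg (fun z => (2 : K)⁻¹ • z) e1
  simpa [smul_smul] using e2

theorem zP {x : End K V} (hx : x ∈ Kp G (-D)) : x * P = x := by
  have hx' := mem_Kn.1 hx
  have e1 : (2 : K) • (x * P) = (2 : K) • x := by
    calc (2 : K) • (x * P) = x * (P + Q + (P - Q)) := by rw [two_smul]; noncomm_ring
    _ = (2 : K) • x := by rw [F.PQ, F.PD, mul_add, mul_one, hx'.2.2, two_smul]
  have e2 := congrArg (fun z => (2 : K)⁻¹ • z) e1
  simpa [smul_smul] using e2

theorem trQ : trace K V Q = 2 * r := by rw [← F.trP, ← F.ef, ← F.fe, LinearMap.trace_mul_comm]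

theorem two_r : (2 : K) * r ≠ 0 := mul_ne_zero two_ne_zero F.r0

theorem P0 : P ≠ 0 := by
  intro h0
  have h1 := F.trP
  rw [h0, map_zero] at h1
  exact F.two_r h1.symm

include h in
theorem sh_mem {x : End K V} (hx : x ∈ Kp G D) : sh f r x ∈ Kp G (-D) := by
  have h1 : f * x * f ∈ Kp G (-D) := by
    have h2 := kp_tri' h F.fm hx F.fm
    rw [← two_smul K] at h2
    exact (Submodule.smul_mem_iff _ (two_ne_zero (α := K))).1 h2
  exact Submodule.sub_mem _ (Submodule.smul_mem _ _ F.fm) h1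

theorem sh_sq {x : End K V} (hx : x ∈ Kp G D) :
    ∃ n : K, x * sh f r x = n • P ∧ sh f r x * x = n • Q := by
  obtain ⟨t, n, h1, h2⟩ := F.sq x hx
  have h3 : r⁻¹ * trace K V (x * f) = t := by
    rw [← h2, ← mul_assoc, inv_mul_cancel₀ F.r0, one_mul]
  refine ⟨n, ?_, ?_⟩
  · rw [sh_apply, h3, mul_sub, mul_smul_comm]
    have e1 : x * (f * x * f) = x * f * x * f := by noncomm_ring
    rw [e1, h1, sub_mul, smul_mul_assoc, smul_mul_assoc, F.ef]
    abel
  · rw [sh_apply, h3, sub_mul, smul_mul_assoc]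
    have e1 : f * x * f * x = f * (x * f * x) := by noncomm_ring
    rw [e1, h1, mul_sub, mul_smul_comm, mul_smul_comm, F.fe]
    abel

/-- The polar form. -/
theorem sh_polar {x y : End K V} (hx : x ∈ Kp G D) (hy : y ∈ Kp G D) :
    ∃ n : K, x * sh f r y + y * sh f r x = n • P ∧ sh f r x * y + sh f r y * x = n • Q := by
  obtain ⟨n1, h1, h1'⟩ := F.sh_sq hx
  obtain ⟨n2, h2, h2'⟩ := F.sh_sq hy
  obtain ⟨n3, h3, h3'⟩ := F.sh_sq (Submodule.add_mem _ hx hy)
  refine ⟨n3 - n1 - n2, ?_, ?_⟩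
  · rw [sub_smul, sub_smul, ← h1, ← h2, ← h3, map_add]
    noncomm_ring
  · rw [sub_smul, sub_smul, ← h1', ← h2', ← h3', map_add]
    noncomm_ring

theorem sh_e : sh f r e = f := by
  have h1 : f * e * f = f := by rw [F.fe, F.Qz F.fm]
  rw [sh_apply, F.ef, F.trP, h1]
  have h2 : r⁻¹ * (2 * r) = 2 := by
    have := F.r0
    field_simp
  rw [h2, two_smul]
  abel

/-- The symmetric bilinear form. -/
theorem tr_symm (x y : End K V) : trace K V (x * sh f r y) = trace K V (y * sh f r x) := by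
  rw [sh_apply, sh_apply, mul_sub, mul_sub, map_sub, map_sub, mul_smul_comm, mul_smul_comm,
    map_smul, map_smul, smul_eq_mul, smul_eq_mul]
  have e1 : trace K V (x * (f * y * f)) = trace K V (y * (f * x * f)) := by
    have t1 : x * (f * y * f) = x * f * (y * f) := by noncomm_ring
    have t2 : y * (f * x * f) = y * f * (x * f) := by noncomm_ring
    rw [t1, t2, LinearMap.trace_mul_comm]
  rw [e1]
  ring

include h in
theorem nondeg {x : End K V} (hD : D ∈ G) (hD2 : D * D = 1) (hx : x ∈ Kp G D)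
    (h0 : ∀ y ∈ Kp G D, trace K V (x * sh f r y) = 0) : x = 0 := by
  have h1 : trace K V (x * f) = 0 := by
    have h2 := h0 e F.em
    rwa [F.sh_e] at h2
  refine kp_nondeg h hD hD2 hx fun z hz => ?_
  have hy : e * z * e ∈ Kp G D := by
    have h2 := kp_tri h F.em hz F.em
    rw [← two_smul K] at h2
    exact (Submodule.smul_mem_iff _ (two_ne_zero (α := K))).1 h2
  have h2 := h0 _ hy
  have h3 : f * (e * z * e) * f = z := by
    calc f * (e * z * e) * f = (f * e) * z * (e * f) := by noncomm_ring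
    _ = z := by rw [F.fe, F.ef, F.Qz hz, F.zP hz]
  rw [sh_apply, h3, mul_sub, map_sub, mul_smul_comm, map_smul, h1, smul_zero, zero_sub,
    neg_eq_zero] at h2
  exact h2

include h in
/-- An orthonormal basis of the positive part. -/
theorem exists_onb [IsAlgClosed K] (hD : D ∈ G) (hD2 : D * D = 1) :
    ∃ (n : ℕ) (x : Fin n → End K V), (∀ i, x i ∈ Kp G D) ∧ (Kp G D ≤ Submodule.span K (Set.range x)) ∧
      (∀ i, x i * sh f r (x i) = P ∧ sh f r (x i) * x i = Q) ∧
      ∀ i j, i ≠ j → x i * sh f r (x j) + x j * sh f r (x i) = 0 ∧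
        sh f r (x i) * x j + sh f r (x j) * x i = 0 := by
  let B : LinearMap.BilinForm K (Kp G D) := LinearMap.mk₂ K
    (fun x y => trace K V ((x : End K V) * sh f r y)) (fun a b c => by simp [add_mul])
    (fun c a b => by simp) (fun a b c => by simp [mul_add]) (fun c a b => by simp)
  have hB : ∀ x y : Kp G D, B x y = trace K V ((x : End K V) * sh f r y) := fun x y => rfl
  have hsymm : B.IsSymm := ⟨fun x y => by
    rw [hB, hB]
    exact F.tr_symm _ _⟩
  have : Invertible (2 : K) := invertibleOfNonzero two_ne_zero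
  obtain ⟨v, hv⟩ := LinearMap.BilinForm.exists_orthogonal_basis
    (LinearMap.BilinForm.isSymm_iff.1 hsymm)
  have hv' : ∀ i j, i ≠ j → B (v i) (v j) = 0 := fun i j hij => hv hij
  have hne : ∀ i, B (v i) (v i) ≠ 0 := by
    intro i h0
    have h1 : (v i : End K V) = 0 := by
      refine F.nondeg h hD hD2 (v i).2 fun y hy => ?_
      have h2 : B (v i) ⟨y, hy⟩ = 0 := by
        rw [← v.sum_repr ⟨y, hy⟩, map_sum]
        refine Finset.sum_eq_zero fun j _ => ?_
        rw [map_smul]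
        by_cases hij : i = j
        · rw [← hij, h0, smul_zero]
        · rw [hv' i j hij, smul_zero]
      exact h2
    exact v.ne_zero i (Subtype.ext h1)
  choose m hm1 hm2 using fun i => F.sh_sq (v i).2
  have hm0 : ∀ i, m i ≠ 0 := by
    intro i h0
    apply hne i
    rw [hB, hm1, h0, zero_smul, map_zero]
  choose t ht using fun i => IsAlgClosed.exists_pow_nat_eq ((m i)⁻¹) (n := 2) (by norm_num)
  have ht' : ∀ i, t i * t i * m i = 1 := by
    intro i
    rw [← pow_two, ht, inv_mul_cancel₀ (hm0 i)]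
  have ht0 : ∀ i, t i ≠ 0 := by
    intro i h0
    have h1 := ht' i
    rw [h0, zero_mul, zero_mul] at h1
    exact zero_ne_one h1
  have hK : ∀ i, t i • (v i : End K V) ∈ Kp G D := fun i => Submodule.smul_mem _ _ (v i).2
  refine ⟨_, fun i => t i • (v i : End K V), hK, ?_, fun i => ⟨?_, ?_⟩, fun i j hij => ?_⟩
  · intro y hy
    have h1 : (⟨y, hy⟩ : Kp G D) = ∑ i, v.repr ⟨y, hy⟩ i • v i := (v.sum_repr _).symm
    have h2 := congrArg Subtype.val h1
    have h3 : y = ∑ i, v.repr ⟨y, hy⟩ i • (v i : End K V) := by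
      refine h2.trans ?_
      rw [Submodule.coe_sum]
      rfl
    rw [h3]
    refine Submodule.sum_mem _ fun i _ => Submodule.smul_mem _ _ ?_
    have h4 : (v i : End K V) = (t i)⁻¹ • (t i • (v i : End K V)) := by
      rw [smul_smul, inv_mul_cancel₀ (ht0 i), one_smul]
    rw [h4]
    exact Submodule.smul_mem _ _ (Submodule.subset_span ⟨i, rfl⟩)
  · rw [map_smul, smul_mul_smul_comm, hm1, smul_smul, ht', one_smul]
  · rw [map_smul, smul_mul_smul_comm, hm2, smul_smul, ht', one_smul]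
  · obtain ⟨n, h1, h2⟩ := F.sh_polar (hK i) (hK j)
    have h3 : n = 0 := by
      have h4 := congrArg (LinearMap.trace K V) h1
      rw [map_add, F.tr_symm (t j • (v j : End K V)), map_smul (sh f r), smul_mul_smul_comm, map_smul, ← hB,
        hv' i j hij, smul_zero, add_zero, map_smul, F.trP, smul_eq_mul] at h4
      exact (mul_eq_zero.1 h4.symm).resolve_right F.two_r
    rw [h3, zero_smul] at h1 h2
    exact ⟨h1, h2⟩

include h in
/-- The family of anticommuting involutions. -/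
theorem exists_cl [IsAlgClosed K] (hs : Scal G) (hD : D ∈ G) (hD2 : D * D = 1)
    (hgn : G ≤ gn G D) {u : End K V} (hu : u ∈ Kp G D) (hu0 : u ≠ 0)
    {ω : V →ₗ[K] V →ₗ[K] K} (hω : AltF st ω) :
    ∃ (M : ℕ) (Y : ℕ → End K V), Cl M Y ω (-1) (-1) := by
  obtain ⟨n, x, hx, hspan, hsq, hort⟩ := F.exists_onb h hD hD2
  have hD1 : D ∈ G := hD
  obtain ⟨s, hsd⟩ : ∃ s : Fin n → End K V, ∀ i, s i = sh f r (x i) := ⟨_, fun i => rfl⟩
  have hs' : ∀ i, s i ∈ Kp G (-D) := fun i => by
    rw [hsd]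
    exact F.sh_mem h (hx i)
  have hsn : ∀ i, s i ∈ G ∧ D * s i = -(s i) ∧ s i * D = s i := fun i => mem_Kn.1 (hs' i)
  obtain ⟨Z, hZ⟩ : ∃ Z : Fin n → End K V, ∀ i, Z i = x i + s i := ⟨_, fun i => rfl⟩
  have hxx : ∀ i j, x i * x j = 0 := fun i j => kp_zero (hx i) (hx j)
  have hss : ∀ i j, s i * s j = 0 := fun i j => kp_zero (hs' i) (hs' j)
  have hDZ : ∀ i, D * Z i = -(Z i * D) := by
    intro i
    rw [hZ, mul_add, add_mul, (hx i).2.1, (hx i).2.2, (hsn i).2.1, (hsn i).2.2]
    abel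
  have hZZ : ∀ i, Z i * Z i = 1 := by
    intro i
    rw [hZ, add_mul, mul_add, mul_add, hxx, hss, zero_add, add_zero, hsd, (hsq i).1, (hsq i).2, F.PQ]
  have hZa : ∀ i j, i ≠ j → Z i * Z j = -(Z j * Z i) := by
    intro i j hij
    have h1 := (hort i j hij).1
    have h2 := (hort i j hij).2
    rw [← hsd, ← hsd] at h1 h2
    rw [hZ, hZ, add_mul, mul_add, mul_add, hxx, hss, add_mul, mul_add, mul_add, hxx, hss]
    have h3 : x i * s j = -(x j * s i) := eq_neg_of_add_eq_zero_left h1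
    have h4 : s i * x j = -(s j * x i) := eq_neg_of_add_eq_zero_left h2
    rw [h3, h4]
    abel
  have hZG : ∀ i, Z i ∈ G := fun i => by
    rw [hZ]
    exact G.add_mem (hx i).1 (hsn i).1
  let Y : ℕ → End K V := fun k => if hk : k - 1 < n ∧ k ≠ 0 then Z ⟨k - 1, hk.1⟩ else D
  have hY0 : Y 0 = D := by simp [Y]
  have hYs : ∀ i : Fin n, Y (i + 1) = Z i := by
    intro i
    have h1 : (i : ℕ) + 1 - 1 < n ∧ (i : ℕ) + 1 ≠ 0 := ⟨by have := i.2; omega, by omega⟩
    simp only [Y, dif_pos h1]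
    congr 1
  have hcase : ∀ k < n + 1, k = 0 ∨ ∃ i : Fin n, k = i + 1 := by
    intro k hk
    rcases Nat.eq_zero_or_pos k with h1 | h1
    · exact Or.inl h1
    · exact Or.inr ⟨⟨k - 1, by omega⟩, by simp; omega⟩
  have hYG : ∀ k < n + 1, Y k ∈ G := by
    intro k hk
    rcases hcase k hk with rfl | ⟨i, rfl⟩
    · rw [hY0]; exact hD
    · rw [hYs]; exact hZG i
  obtain ⟨hω1, hω2, hω3⟩ := id hω
  refine ⟨n + 1, Y, ?_, ?_, ?_, ?_, ?_, ?_⟩
  · intro k hk
    rcases hcase k hk with rfl | ⟨i, rfl⟩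
    · rw [hY0]; exact hD2
    · rw [hYs]; exact hZZ i
  · intro k hk l hl hkl
    rcases hcase k hk with rfl | ⟨i, rfl⟩
    · rcases hcase l hl with rfl | ⟨j, rfl⟩
      · exact absurd rfl hkl
      · rw [hY0, hYs]; exact hDZ j
    · rcases hcase l hl with rfl | ⟨j, rfl⟩
      · rw [hY0, hYs, hDZ, neg_neg]
      · rw [hYs, hYs]
        exact hZa i j fun h0 => hkl (by rw [h0])
  · intro u v
    rw [hω2]
    ring
  · intro k hk u v
    rw [hω1, h.skew _ (hYG k hk), LinearMap.neg_apply, map_neg]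
    ring
  · intro u hu
    refine hω3 _ fun v => ?_
    rw [hω2, hu v, neg_zero]
  · intro W hW hne
    have hWD : ∀ w ∈ W, D w ∈ W := by
      intro w hw
      have h1 := hW 0 (by omega) w hw
      rwa [hY0] at h1
    have hWZ : ∀ i, ∀ w ∈ W, Z i w ∈ W := by
      intro i w hw
      have h1 := hW (i + 1) (by have := i.2; omega) w hw
      rwa [hYs] at h1
    have hWx : ∀ i, ∀ w ∈ W, x i w ∈ W := by
      intro i w hw
      have h1 : (2 : K) • x i w = Z i w + D (Z i w) := by
        have e1 : Z i + D * Z i = (2 : K) • x i := by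
          rw [hZ, mul_add, (hx i).2.1, (hsn i).2.1, two_smul]
          abel
        exact (LinearMap.congr_fun e1 w).symm
      refine (Submodule.smul_mem_iff W (two_ne_zero (α := K))).1 ?_
      rw [h1]
      exact W.add_mem (hWZ i w hw) (hWD _ (hWZ i w hw))
    have hWs : ∀ i, ∀ w ∈ W, s i w ∈ W := by
      intro i w hw
      have h1 : s i w = Z i w - x i w := by
        rw [hZ]
        simp
      rw [h1]
      exact W.sub_mem (hWZ i w hw) (hWx i w hw)
    let S : Submodule K (End K V) :=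
      { carrier := {z | ∀ w ∈ W, z w ∈ W}
        zero_mem' := fun w _ => W.zero_mem
        add_mem' := fun {a b} ha hb w hw => W.add_mem (ha w hw) (hb w hw)
        smul_mem' := fun c a ha w hw => W.smul_mem c (ha w hw) }
    have hp : Kp G D ≤ S := by
      refine hspan.trans ?_
      rw [Submodule.span_le]
      rintro _ ⟨i, rfl⟩
      exact hWx i
    have hsh : ∀ y ∈ Kp G D, sh f r y ∈ S := by
      intro y hy
      have h1 : Submodule.span K (Set.range x) ≤ S.comap (sh f r) := by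
        rw [Submodule.span_le]
        rintro _ ⟨i, rfl⟩
        change sh f r (x i) ∈ S
        rw [← hsd]
        exact hWs i
      exact h1 (hspan hy)
    have hn : Kp G (-D) ≤ S := by
      intro z hz
      have hy : e * z * e ∈ Kp G D := by
        have h2 := kp_tri h F.em hz F.em
        rw [← two_smul K] at h2
        exact (Submodule.smul_mem_iff _ (two_ne_zero (α := K))).1 h2
      have h3 : f * (e * z * e) * f = z := by
        calc f * (e * z * e) * f = (f * e) * z * (e * f) := by noncomm_ring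
        _ = z := by rw [F.fe, F.ef, F.Qz hz, F.zP hz]
      have h4 := hsh _ hy
      rw [sh_apply, h3] at h4
      have h5 : f ∈ S := by
        rw [← F.sh_e]
        exact hsh e F.em
      have h6 := S.sub_mem (S.smul_mem (r⁻¹ * trace K V (e * z * e * f)) h5) h4
      rwa [sub_sub_cancel] at h6
    have hJ := kz_idl h hD hD2
    have hDJ : D ∈ Kp G D ⊔ Kp G (-D) ⊔ Kz G D := by
      rcases invol_dich h hs hJ hD hD2 with h1 | h1
      · exact h1
      · exfalso
        have h2 := h1.2 u (le_sup_left (a := Kp G D ⊔ Kp G (-D)) (le_sup_left (a := Kp G D) hu))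
        rw [hu.2.1, hu.2.2] at h2
        apply hu0
        have h3 : (2 : K) • u = 0 := by
          rw [two_smul]
          nth_rewrite 1 [h2]
          exact neg_add_cancel _
        exact (smul_eq_zero.1 h3).resolve_left two_ne_zero
    have hGJ : G ≤ Kp G D ⊔ Kp G (-D) ⊔ Kz G D := hgn.trans (gn_le hJ hDJ)
    have hJS : Kp G D ⊔ Kp G (-D) ⊔ Kz G D ≤ S := by
      refine sup_le (sup_le hp hn) ?_
      unfold Kz
      rw [Submodule.span_le]
      rintro _ ⟨x, hx, y, hy, rfl⟩ w hw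
      change x (y w) - y (x w) ∈ W
      exact W.sub_mem (hp hx _ (hn hy w hw)) (hn hy _ (hp hx w hw))
    exact irr_top h hs (M := W) (fun y hy => hJS (hGJ hy)) hne

end Spin

/-- Powers of two with an exponent not divisible by four are powers with an odd exponent greater
than one, if the exponent is at least three. -/
theorem two_pow_odd {n : ℕ} (hn : 3 ≤ n) (h4 : n % 4 ≠ 0) :
    ∃ d m : ℕ, 3 ≤ m ∧ Odd m ∧ d ^ m = 2 ^ n := by
  rcases Nat.even_or_odd n with ⟨k, hk⟩ | ho
  · refine ⟨4, k, ?_, ?_, ?_⟩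
    · omega
    · rw [Nat.odd_iff]
      omega
    · rw [hk, ← two_mul, pow_mul]
      norm_num
  · exact ⟨2, n, hn, ho, rfl⟩

include h in
/-- The positive part contains an element of rank one, if the involution generates the Lie algebra
as an ideal and the dimension is not exceptional. -/
theorem rank_one_gen [IsAlgClosed K] (hs : Scal G) {ω : V →ₗ[K] V →ₗ[K] K}
    (hω : AltF st ω) (htr : TrSt st)
    (h1 : ∀ d m : ℕ, 3 ≤ m → Odd m → d ^ m ≠ finrank K V)
    (h2 : ∀ j : ℕ, 1 ≤ j → (4 * j + 2).choose (2 * j + 1) ≠ finrank K V)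
    {D : End K V} (hD : D ∈ G) (hD2 : D * D = 1) (hgn : G ≤ gn G D) (hne : D ≠ 0) :
    ∃ c ∈ Kp G D, rk c = 1 := by
  obtain ⟨u, hu, hu0⟩ := exists_kp_ne h hs hD hD2 hne
  have hirr : Irr G D := fun _ hW1 hW => irr_plus h hs hD hD2 hgn hu hu0 hW1 hW
  have hDn : -D ∈ G := G.neg_mem hD
  have hDn2 : -D * -D = 1 := by rw [neg_mul_neg, hD2]
  obtain ⟨u', hu', hu'0⟩ := exists_kp_ne h hs hDn hDn2 (neg_ne_zero.2 hne)
  have hirrn : Irr G (-D) := fun _ hW1 hW =>
    irr_plus h hs hDn hDn2 (hgn.trans (gn_neg h hD)) hu' hu'0 hW1 hW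
  obtain ⟨c, d, F, -⟩ := exists_prim h hD hD2 hu hu0
  refine ⟨c, F.cm, ?_⟩
  by_cases hr : 4 * rk c < finrank K V
  · exact F.rk_one h hω hD hD2 hirr htr hr
  have hntr : Nontrivial V := by
    by_contra hcon
    rw [not_nontrivial_iff_subsingleton] at hcon
    exact hne (LinearMap.ext fun v => Subsingleton.elim _ _)
  by_cases hr4 : 4 * rk c = finrank K V
  · -- the Jordan pair of a quadratic form
    obtain ⟨c2, d2, p2, q2, T⟩ := F.exists_two h hD hD2
      (F.exists_orth h htr hD hD2 hirr hr4.le)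
    have hrk2 : rk c2 = rk c := le_antisymm (F.prim_rk h htr hD hD2 hirr T.B)
      (T.B.prim_rk h htr hD hD2 hirr F)
    obtain ⟨p, hp⟩ : ∃ p, p = c * d := ⟨_, rfl⟩
    obtain ⟨q, hq⟩ : ∃ q, q = d * c := ⟨_, rfl⟩
    rw [← hp, ← hq] at T
    have htD : trace K V D = 0 := trace_inv h htr hD
    have hrp : ∀ {c d p q : End K V}, MP G st D c d p q → trace K V p = (rk c : K) := by
      intro c d p q A
      rw [trace_idem A.pp]
      congr 1
      apply le_antisymm
      · rw [← A.cd]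
        exact rk_mul_le_left _ _
      · conv_lhs => rw [← A.pc]
        exact rk_mul_le_left _ _
    have hr4' : (4 : K) * (rk c : K) = (finrank K V : K) := by exact_mod_cast hr4
    -- the complement of the idempotent
    have hDp : D * p = p := by rw [← T.A.cd, ← mul_assoc, T.A.cm.2.1]
    have hDp2 : D * p2 = p2 := by rw [← T.B.cd, ← mul_assoc, T.B.cm.2.1]
    have hpD : p * D = p := by
      rw [← T.A.cd, mul_assoc, (mem_Kn.1 T.A.dm).2.2]
    have hp2D : p2 * D = p2 := by
      rw [← T.B.cd, mul_assoc, (mem_Kn.1 T.B.dm).2.2]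
    obtain ⟨x, hx⟩ : ∃ x, x = (2 : K)⁻¹ • (1 + D) - (p + p2) := ⟨_, rfl⟩
    have hxx : x * x = x := by
      have e1 : ((2 : K)⁻¹ • (1 + D)) * ((2 : K)⁻¹ • (1 + D)) = (2 : K)⁻¹ • (1 + D) := by
        rw [smul_mul_smul_comm]
        have e2 : (1 + D) * (1 + D) = (2 : K) • (1 + D) := by
          rw [two_smul, mul_add, add_mul, add_mul, one_mul, mul_one, hD2, one_mul]
          abel
        rw [e2, smul_smul]
        norm_num
      have e2 : ((2 : K)⁻¹ • (1 + D)) * (p + p2) = p + p2 := by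
        rw [smul_mul_assoc, add_mul, one_mul, mul_add, hDp, hDp2, ← two_smul K (p + p2), smul_smul,
          inv_mul_cancel₀ two_ne_zero, one_smul]
      have e3 : (p + p2) * ((2 : K)⁻¹ • (1 + D)) = p + p2 := by
        rw [mul_smul_comm, mul_add, mul_one, add_mul, hpD, hp2D, ← two_smul K (p + p2), smul_smul,
          inv_mul_cancel₀ two_ne_zero, one_smul]
      have e4 : (p + p2) * (p + p2) = p + p2 := by
        rw [add_mul, mul_add, mul_add, T.A.pp, T.p1p2, T.p2p1, T.B.pp]
        abel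
      rw [hx, sub_mul, mul_sub, mul_sub, e1, e2, e3, e4, sub_self, sub_zero]
    have hx0 : x = 0 := by
      have e1 := trace_idem hxx
      have e2 : trace K V x = 0 := by
        rw [hx, map_sub, map_smul, map_add, LinearMap.trace_one, htD, add_zero, map_add, hrp T.A,
          hrp T.B, hrk2, smul_eq_mul, ← hr4']
        ring
      rw [e2] at e1
      apply rk_eq_zero
      exact_mod_cast e1.symm
    have hpp : (2 : K)⁻¹ • (1 + D) = p + p2 := by
      rw [hx] at hx0
      exact sub_eq_zero.1 hx0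
    have hqq : (2 : K)⁻¹ • (1 - D) = q + q2 := by
      have e1 := congrArg st hpp
      rw [map_smul, map_add, map_add, st_one h hD hD2, h.skew D hD, T.A.sp, T.B.sp,
        ← sub_eq_add_neg] at e1
      exact e1
    have hPQ : p + p2 + (q + q2) = 1 := by
      rw [← hpp, ← hqq, ← smul_add, add_add_sub_cancel, ← two_smul K (1 : End K V), smul_smul,
        inv_mul_cancel₀ two_ne_zero, one_smul]
    have hPD : p + p2 - (q + q2) = D := by
      rw [← hpp, ← hqq, ← smul_sub]
      have e1 : 1 + D - (1 - D) = (2 : K) • D := by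
        rw [two_smul]
        abel
      rw [e1, smul_smul, inv_mul_cancel₀ two_ne_zero, one_smul]
    have FS := spin_of_two h T hPQ hPD hrk2
    obtain ⟨M, Y, C⟩ := FS.exists_cl h hs hD hD2 hgn hu hu0 hω
    obtain ⟨ι, hι⟩ := IsAlgClosed.exists_pow_nat_eq (-1 : K) (n := 2) (by norm_num)
    rw [pow_two] at hι
    obtain ⟨n, hn, n0, -, -, -⟩ := Cl.dim hι M V Y ω _ _ C (Or.inr rfl)
    have hn4 : n % 4 ≠ 0 := by
      intro h0
      have e1 := n0 h0
      have e2 : (2 : K) = 0 := by linear_combination -e1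
      exact two_ne_zero e2
    rcases Nat.lt_or_ge n 3 with h3 | h3
    · have h5 := rk_pos_of_ne F.ne
      have h6 : n = 1 ∨ n = 2 := by omega
      rcases h6 with rfl | rfl
      · rw [hn] at hr4
        omega
      · rw [hn] at hr4
        omega
    · obtain ⟨a, m, hm, hmo, ham⟩ := two_pow_odd h3 hn4
      exact absurd (ham.trans hn.symm) (h1 a m hm hmo)
  have hmin : ∀ x ∈ G, x ≠ 0 → rk c ≤ rk x := fun x hx hx0 =>
    prim_rk_sq h hs hD hD2 hgn hne F.cm.1 (kp_sq F.cm) F.ne F.min hx hx0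
  have hall : ∀ z ∈ G, z * z = 0 → z ≠ 0 →
      rk z = rk c ∧ ∀ y ∈ G, ∃ s : K, z * y * z = s • z := by
    intro x hx hx2 hx0
    by_cases hp : ∀ y ∈ G, ∃ s : K, x * y * x = s • x
    · exact ⟨le_antisymm (prim_rk_sq h hs hD hD2 hgn hne hx hx2 hx0 hp F.cm.1 F.ne)
        (hmin x hx hx0), hp⟩
    · exfalso
      obtain ⟨x', hx', -, hx'0, h5⟩ := halving_sq h hx hx2 hp
      have h6 := hmin x' hx' hx'0
      have h7 := two_rk_le_sq hx2
      omega
  obtain ⟨k, hk, hk1, hk2⟩ := exc h hω htr hD hD2 hirr hirrn hu hu0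
    (rk_pos_of_ne F.ne).ne' hall
  obtain ⟨j, rfl⟩ := hk
  rcases Nat.eq_zero_or_pos j with rfl | hj
  · rw [hk2]
    rfl
  · exfalso
    rw [← two_mul] at hk1
    apply h2 j hj
    rw [hk1, Nat.centralBinom]
    congr 1
    ring

include h in
/-- **Pink's theorem**: the positive part contains an element of rank one, if the dimension is not
exceptional. -/
theorem rank_one_pink [IsAlgClosed K] (hs : Scal G) {ω : V →ₗ[K] V →ₗ[K] K}
    (hω : AltF st ω) (htr : TrSt st)
    (h1 : ∀ d m : ℕ, 3 ≤ m → Odd m → d ^ m ≠ finrank K V)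
    (h2 : ∀ j : ℕ, 1 ≤ j → (4 * j + 2).choose (2 * j + 1) ≠ finrank K V)
    {S : Set (End K V)} (hS : ∀ D ∈ S, D ∈ G ∧ D * D = 1)
    (hgen : ∀ L : Submodule K (End K V), S ⊆ L → (∀ y ∈ L, ∀ z ∈ L, y * z - z * y ∈ L) → G ≤ L)
    {D₀ : End K V} (hD₀S : D₀ ∈ S) (hne : D₀ ≠ 0)
    (hconj : ∀ D ∈ S, ∃ (s : End K V ≃+* End K V) (τ : K ≃+* K), Tr G st D₀ D s τ) :
    ∃ c ∈ Kp G D₀, rk c = 1 := by
  obtain ⟨hD₀, hD₀2⟩ := hS D₀ hD₀S
  rcases gn_or_pow h hs hω hS hgen hD₀S hne hconj with h3 | ⟨d, m, hm, hmo, hdm⟩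
  · exact rank_one_gen h hs hω htr h1 h2 hD₀ hD₀2 h3 hne
  · exact absurd hdm (h1 d m hm hmo)

end Pool.Agent.Y91.P
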