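import Mathlib
import Pool.Agent.Y91.JP.Sharp

/-!
# Irreducible representations of dimension twice an odd number
-/

set_option linter.unusedSectionVars false

namespace Pool.Agent.Y91.P

open Module LinearMap Pool.Agent.W548.Odd Pool.Agent.Y91.JP

/-- The central binomial coefficient of an odd number greater than one is divisible by four. -/
theorem four_dvd_centralBinom {j : ℕ} (hj : 1 ≤ j) : 4 ∣ (2 * j + 1).centralBinom := by
  have h1 := Nat.succ_mul_centralBinom_succ (2 * j)
  obtain ⟨a, ha⟩ := Nat.two_dvd_centralBinom_of_one_le (n := 2 * j) (by omega)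
  have h2 : 4 ∣ (2 * j + 1) * (2 * j + 1).centralBinom := by
    refine ⟨(2 * (2 * j) + 1) * a, ?_⟩
    rw [h1, ha]
    ring
  refine (Nat.Coprime.dvd_of_dvd_mul_left ?_ h2)
  have h3 : Nat.Coprime 2 (2 * j + 1) := by
    rw [Nat.coprime_two_left]
    exact ⟨j, rfl⟩
  exact (show (4 : ℕ) = 2 ^ 2 by norm_num) ▸ Nat.Coprime.pow_left 2 h3

variable {K : Type*} [Field K] [CharZero K] {V : Type*} [AddCommGroup V] [Module K V]
  [FiniteDimensional K V]

/-- Two commuting involutions with traces zero, the product of which has trace zero. -/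
theorem even_of_invol {D D' : End K V} (hD2 : D * D = 1) (hD'2 : D' * D' = 1)
    (hc : D' * D = D * D') (h0 : trace K V D = 0) (h0' : trace K V D' = 0)
    (h1 : trace K V (D' * D) = 0) : 4 ∣ finrank K V := by
  have hp : ((4 : K)⁻¹ • ((1 + D) * (1 + D'))) * ((4 : K)⁻¹ • ((1 + D) * (1 + D'))) =
      (4 : K)⁻¹ • ((1 + D) * (1 + D')) := by
    rw [smul_mul_smul_comm]
    have e1 : (1 + D) * (1 + D') * ((1 + D) * (1 + D')) = (4 : K) • ((1 + D) * (1 + D')) := by
      have e2 : (1 + D) * (1 + D) = (2 : K) • (1 + D) := by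
        rw [two_smul, mul_add, add_mul, add_mul, one_mul, mul_one, hD2, one_mul]
        abel
      have e3 : (1 + D') * (1 + D') = (2 : K) • (1 + D') := by
        rw [two_smul, mul_add, add_mul, add_mul, one_mul, mul_one, hD'2, one_mul]
        abel
      have e4 : (1 + D') * (1 + D) = (1 + D) * (1 + D') := by
        rw [mul_add, add_mul, add_mul, mul_add, add_mul, add_mul, hc]
        simp only [one_mul, mul_one]
        abel
      calc (1 + D) * (1 + D') * ((1 + D) * (1 + D')) =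
          (1 + D) * ((1 + D') * (1 + D)) * (1 + D') := by noncomm_ring
      _ = ((1 + D) * (1 + D)) * ((1 + D') * (1 + D')) := by rw [e4]; noncomm_ring
      _ = (4 : K) • ((1 + D) * (1 + D')) := by
        rw [e2, e3, smul_mul_smul_comm]
        norm_num
    rw [e1, smul_smul]
    norm_num
  have h2 := trace_idem hp
  have h3 : trace K V ((1 + D) * (1 + D')) = (finrank K V : K) := by
    have e1 : (1 + D) * (1 + D') = 1 + D + D' + D * D' := by noncomm_ring
    rw [e1, ← hc, map_add, map_add, map_add, h0, h0', h1, LinearMap.trace_one]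
    ring
  rw [map_smul, h3, smul_eq_mul] at h2
  refine ⟨rk ((4 : K)⁻¹ • ((1 + D) * (1 + D'))), ?_⟩
  have h4 : (finrank K V : K) = ((4 * rk ((4 : K)⁻¹ • ((1 + D) * (1 + D'))) : ℕ) : K) := by
    push_cast
    rw [← h2]
    field_simp
  exact_mod_cast h4

variable {G I : Submodule K (End K V)} {st : End K V →ₗ[K] End K V} (h : Setup G st)

include h in
/-- Elements of an ideal and of its commutant are orthogonal. -/
theorem orth_cen (hs : Scal G) {D₀ : End K V} (hD₀ : D₀ ∈ G) (hD₀2 : D₀ * D₀ = 1)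
    (hI : IsIdl G I) {b z : End K V} (hb : b ∈ cen G I) (hz : z ∈ I) :
    trace K V (b * z) = 0 := by
  have hnd := idl_nondeg h hs hD₀ hD₀2 hI
  obtain ⟨a, ha, haz⟩ := exists_repr hnd ((LinearMap.trace K V).comp (LinearMap.mulLeft K b))
  have haz' : ∀ z ∈ I, trace K V (b * z) = trace K V (a * z) := fun z hz => haz z hz
  have ha0 : a = 0 := by
    refine zero_of_comm h hs hD₀ hD₀2 hI (hI.le ha) (fun z hz => ?_) fun z hz => (hz.2 a ha).symm
    rw [← sub_eq_zero]
    refine hnd _ (hI.br _ (hI.le ha) z hz) fun z' hz' => ?_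
    have e1 := haz' _ (hI.br z (hI.le hz) z' hz')
    have e2 : trace K V (b * (z * z' - z' * z)) = 0 := by
      have e3 : b * (z * z' - z' * z) = (b * z) * z' - z' * (b * z) := by
        rw [mul_sub, ← mul_assoc, ← mul_assoc, hb.2 z' hz', mul_assoc z' b z]
      rw [e3, map_sub, LinearMap.trace_mul_comm, sub_self]
    have e4 : trace K V ((a * z - z * a) * z') = trace K V (a * (z * z' - z' * z)) := by
      have e5 : trace K V (z * a * z') = trace K V (a * z' * z) := by
        rw [mul_assoc, LinearMap.trace_mul_comm]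
      have e6 : (a * z - z * a) * z' = a * z * z' - z * a * z' := by noncomm_ring
      have e7 : a * (z * z' - z' * z) = a * z * z' - a * z' * z := by noncomm_ring
      rw [e6, e7, map_sub, map_sub, e5]
    rw [e4, ← e1, e2]
  rw [haz' z hz, ha0, zero_mul, map_zero]

include h in
/-- The Lie algebra is generated by an involution as an ideal, if the dimension is twice an odd
number. -/
theorem le_gn_of_odd (hs : Scal G) (htr : TrSt st) (h4 : ¬ 4 ∣ finrank K V)
    {S : Set (End K V)} (hS : ∀ D ∈ S, D ∈ G ∧ D * D = 1)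
    (hgen : ∀ L : Submodule K (End K V), S ⊆ L → (∀ y ∈ L, ∀ z ∈ L, y * z - z * y ∈ L) → G ≤ L)
    {D : End K V} (hD : D ∈ S) (hI : IsIdl G I) (hDI : D ∈ I) : G ≤ I := by
  refine hgen _ (fun D' hD' => ?_) fun y hy z hz => hI.br y (hI.le hy) z hz
  rcases invol_dich h hs hI (hS D' hD').1 (hS D' hD').2 with h1 | h1
  · exact h1
  · exfalso
    exact h4 (even_of_invol (hS D hD).2 (hS D' hD').2 (h1.2 D hDI)
      (trace_inv h htr (hS D hD).1) (trace_inv h htr (hS D' hD').1)
      (orth_cen h hs (hS D hD).1 (hS D hD).2 hI h1 hDI))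

include h in
/-- The positive part contains an element of rank one, if the dimension is twice an odd number. -/
theorem rank_one_odd [IsAlgClosed K] (hs : Scal G) {ω : V →ₗ[K] V →ₗ[K] K}
    (hω : AltF st ω) (htr : TrSt st) (h4 : ¬ 4 ∣ finrank K V)
    {S : Set (End K V)} (hS : ∀ D ∈ S, D ∈ G ∧ D * D = 1)
    (hgen : ∀ L : Submodule K (End K V), S ⊆ L → (∀ y ∈ L, ∀ z ∈ L, y * z - z * y ∈ L) → G ≤ L)
    {D : End K V} (hDS : D ∈ S) (hne : D ≠ 0) : ∃ c ∈ Kp G D, rk c = 1 := by
  obtain ⟨hD, hD2⟩ := hS D hDS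
  have hgn : G ≤ gn G D := le_gn_of_odd h hs htr h4 hS hgen hDS (gn_idl h hD) mem_gn
  obtain ⟨u, hu, hu0⟩ := exists_kp_ne h hs hD hD2 hne
  have hirr : Irr G D := fun _ hW1 hW => irr_plus h hs hD hD2 hgn hu hu0 hW1 hW
  have hDn : -D ∈ G := G.neg_mem hD
  have hDn2 : -D * -D = 1 := by rw [neg_mul_neg, hD2]
  obtain ⟨u', hu', hu'0⟩ := exists_kp_ne h hs hDn hDn2 (neg_ne_zero.2 hne)
  have hirrn : Irr G (-D) := fun _ hW1 hW =>
    irr_plus h hs hDn hDn2 (hgn.trans (gn_neg h hD)) hu' hu'0 hW1 hW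
  obtain ⟨c, d, F, -⟩ := exists_prim h hD hD2 hu hu0
  refine ⟨c, F.cm, ?_⟩
  by_cases hr : 4 * rk c < finrank K V
  · exact F.rk_one h hω hD hD2 hirr htr hr
  have hr4 : 4 * rk c ≠ finrank K V := fun h0 => h4 ⟨rk c, h0.symm⟩
  have hmin : ∀ x ∈ G, x ≠ 0 → rk c ≤ rk x := fun x hx hx0 =>
    prim_rk_sq h hs hD hD2 hgn hne F.cm.1 (kp_sq F.cm) F.ne F.min hx hx0
  have hall : ∀ z ∈ G, z * z = 0 → z ≠ 0 →
      rk z = rk c ∧ ∀ y ∈ G, ∃ s : K, z * y * z = s • z := by
    intro x hx hx2 hx0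
    by_cases hp : ∀ y ∈ G, ∃ s : K, x * y * x = s • x
    · exact ⟨le_antisymm (prim_rk_sq h hs hD hD2 hgn hne hx hx2 hx0 hp F.cm.1 F.ne)
        (hmin x hx hx0), hp⟩
    · exfalso
      obtain ⟨x', hx', -, hx'0, h5⟩ := halving_sq h hx hx2 hp
      have h6 := hmin x' hx' hx'0
      have h7 := two_rk_le_sq hx2
      omega
  obtain ⟨k, hk, hk1, hk2⟩ := exc h hω htr hD hD2 hirr hirrn hu hu0
    (rk_pos_of_ne F.ne).ne' hall
  obtain ⟨j, rfl⟩ := hk
  rcases Nat.eq_zero_or_pos j with rfl | hj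
  · rw [hk2]
    rfl
  · exfalso
    apply h4
    rw [hk1, ← two_mul]
    exact four_dvd_centralBinom hj

end Pool.Agent.Y91.P
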