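import Mathlib
import Pool.Agent.Y4.P.Jobs
import Pool.Agent.Y91.JP.Mat
import Pool.Agent.Y91.JP.Piece2
import Pool.Agent.Y91.P.Odd

/-!
# Rank one elements: the symplectic case
-/

set_option linter.unusedSectionVars false

namespace Pool.Agent.Y91.P

open Matrix Module Pool.Agent.Y90 Pool.Agent.W437.HC Pool.Agent.W437.HD Pool.Agent.W548.Odd
  Pool.Agent.Y91.JP

variable {g : ℕ} {Z : Matrix (Fin g) (Fin g) ℂ}

theorem irrS_of_irS {B : Type*} [Fintype B] [DecidableEq B] {L : Submodule ℂ (Matrix B B ℂ)}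
    {U : Submodule ℂ (B → ℂ)} (hU : IrS L U) : IrrS (GG L) U := by
  refine ⟨fun y hy x hx => stab_GG.2 hU.2.1 y hy x hx, hU.1, fun W hW hWU => ?_⟩
  exact hU.2.2 W hWU (stab_GG.1 hW)

/-- Rank one elements on non-isotropic irreducible submodules the dimension of which is not divisible
by four. -/
theorem rk1_of_not_dvd (h : PM Z) {U : Submodule ℂ (Fin g ⊕ Fin g → ℂ)} (hU : IrS (LZ Z) U)
    (hni : ∃ u ∈ U, ∃ v ∈ U, Pool.Agent.Y90.om g u v ≠ 0) (h4 : ¬ 4 ∣ finrank ℂ U) : Rk1 Z U := by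
  have hOm2 : Om g ℂ * Om g ℂ = -1 := Om_sq ℂ
  have hOmT : (Om g ℂ)ᵀ = -Om g ℂ := Om_transpose ℂ
  have hω := altF hOmT hOm2
  have hM := irrS_of_irS hU
  have hS := h.setup
  obtain ⟨p, c⟩ := exists_cor hS hω hM (by
    obtain ⟨u, hu, v, hv, huv⟩ := hni
    exact ⟨u, hu, v, hv, huv⟩)
  have hs := scal_irr c hM
  have h' := c.setup hS hs
  have hσ : ∀ σ : ℂ ≃+* ℂ, ph (Fin g ⊕ Fin g) (DS Z σ) * ph (Fin g ⊕ Fin g) (DS Z σ) = 1 := by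
    intro σ
    rw [← map_mul, DS_sq h.det, map_one]
  have hσG : ∀ σ : ℂ ≃+* ℂ, ph (Fin g ⊕ Fin g) (DS Z σ) ∈ GG (LZ Z) := fun σ =>
    mem_GG.2 (DS_mem σ)
  have hDZ : DS Z (RingEquiv.refl ℂ) = DZ Z := by
    ext i j
    rfl
  have hS' : ∀ D ∈ {D | ∃ σ : ℂ ≃+* ℂ, D = rs U p (ph (Fin g ⊕ Fin g) (DS Z σ))},
      D ∈ (GG (LZ Z)).map (rs U p) ∧ D * D = 1 := by
    rintro _ ⟨σ, rfl⟩
    exact ⟨⟨_, hσG σ, rfl⟩, by rw [← c.rs_mem_mul hS (hσG σ), hσ, rs_one c.hp]⟩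
  have hDG : ph (Fin g ⊕ Fin g) (DZ Z) ∈ GG (LZ Z) := mem_GG.2 DZ_mem
  have hD2 : ph (Fin g ⊕ Fin g) (DZ Z) * ph (Fin g ⊕ Fin g) (DZ Z) = 1 := by
    rw [← map_mul, DZ_sq h.det, map_one]
  obtain ⟨c', hc', hr⟩ := rank_one_odd (K := ℂ) h' hs (c.altF hS hω) (c.trSt hS (trSt hOm2)) h4
    hS' (by
      intro L hL hbr
      have h1 : LZ Z ≤ LZ Z ⊓ (L.comap (rs U p)).comap (ph (Fin g ⊕ Fin g)).toLinearMap := by
        refine LZ_le (fun σ => ⟨DS_mem σ, hL ⟨σ, rfl⟩⟩) ?_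
        rintro A ⟨hA, hA'⟩ C ⟨hC, hC'⟩
        refine ⟨LZ_br hA hC, ?_⟩
        have h2 := hbr _ hA' _ hC'
        change rs U p (ph (Fin g ⊕ Fin g) (A * C - C * A)) ∈ L
        rw [map_sub, map_mul, map_mul, c.rs_br hS (mem_GG.2 hA) (mem_GG.2 hC)]
        exact h2
      rintro _ ⟨y, hy, rfl⟩
      obtain ⟨A, hA, rfl⟩ := exists_GG hy
      exact (h1 hA).2) (D := rs U p (ph (Fin g ⊕ Fin g) (DZ Z))) ⟨RingEquiv.refl ℂ, by
        rw [hDZ]⟩ (by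
      intro h0
      have h1 := (hS' _ ⟨RingEquiv.refl ℂ, rfl⟩).2
      rw [hDZ, h0, zero_mul] at h1
      apply hU.1
      rw [Submodule.eq_bot_iff]
      intro x hx
      have h2 := congrArg Subtype.val (LinearMap.congr_fun h1 ⟨x, hx⟩)
      exact h2.symm)
  obtain ⟨⟨z, hz, hzc⟩, hc1, hc2⟩ := hc'
  obtain ⟨A, hA, rfl⟩ := exists_GG hz
  obtain ⟨D, hD⟩ : ∃ D, D = ph (Fin g ⊕ Fin g) (DZ Z) := ⟨_, rfl⟩
  rw [← hD] at hc1 hc2 hDG hD2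
  -- the lift
  have hup := up_mem h hA
  have hNe : ph (Fin g ⊕ Fin g) ((1 / 4 : ℂ) • ((1 + DZ Z) * A * (1 - DZ Z))) =
      (1 / 4 : ℂ) • ((1 + D) * ph (Fin g ⊕ Fin g) A * (1 - D)) := by
    rw [map_smul, map_mul, map_mul, map_add, map_sub, map_one, ← hD]
  have hN : rs U p (ph (Fin g ⊕ Fin g) ((1 / 4 : ℂ) • ((1 + DZ Z) * A * (1 - DZ Z)))) = c' := by
    rw [hNe, map_smul, updown_eq, map_sub, map_sub, map_add, c.rs_mem_mul hS hz, c.rs_mem_mul hS hDG, c.rs_mem_mul hS hDG,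
      c.rs_mem_mul hS hz, hzc, hc1, hc2]
    have e1 : c' + c' - -c' - -c' = (4 : ℂ) • c' := by module
    rw [e1, smul_smul]
    norm_num
  refine ⟨DZ Z, Or.inl rfl, _, hup, ?_, ?_, ?_⟩
  · apply (ph (Fin g ⊕ Fin g)).injective
    rw [map_mul, hNe, ← hD, mul_smul_comm, up_left hD2]
  · apply (ph (Fin g ⊕ Fin g)).injective
    rw [map_mul, map_neg, hNe, ← hD, smul_mul_assoc, up_right hD2, smul_neg]
  · have h5 := rk_piece c (mem_GG.2 hup)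
    rw [hN, hr] at h5
    exact h5.symm

/-- The symplectic case in odd dimension. -/
theorem jSympG : ∀ (g : ℕ) (Z : Matrix (Fin g) (Fin g) ℂ) (_h : PM Z) (_hs : IsSimpleAV Z)
    (_hg : Odd g) (U : Submodule ℂ (Fin g ⊕ Fin g → ℂ)) (_hU : IrS (LZ Z) U)
    (_hni : ∃ u ∈ U, ∃ v ∈ U, Pool.Agent.Y90.om g u v ≠ 0), Rk1 Z U := by
  intro g Z h hs hg U hU hni
  refine rk1_of_not_dvd h hU hni fun h4 => ?_
  have h1 := h4.trans (finrank_dvd h hs hU)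
  obtain ⟨k, rfl⟩ := hg
  obtain ⟨m, hm⟩ := h1
  omega

/-- The symplectic case of the project P. -/
theorem jSymp : Pool.Agent.Y4.P.JSymp := by
  intro g Z h hs hg hU
  refine jSympG g Z h hs hg _ hU ?_
  obtain ⟨k, rfl⟩ := hg
  by_contra hcon
  push Not at hcon
  have h1 := om_nd (g := 2 * k + 1) (Pi.single (Sum.inl 0) 1) fun v => hcon _ trivial v trivial
  have h2 := congrFun h1 (Sum.inl 0)
  simp at h2

end Pool.Agent.Y91.P
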