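import Mathlib
import Pool.Agent.Y91.JP.Sharp

/-!
# Irreducible representations of dimension four or twice an odd number
-/

set_option linter.unusedSectionVars false

namespace Pool.Agent.Y91.P.Two

open Module LinearMap Pool.Agent.W548.Odd Pool.Agent.Y91.JP

/-- The central binomial coefficient of an odd number greater than one is divisible by four. -/
theorem four_dvd_centralBinom {j : ℕ} (hj : 1 ≤ j) : 4 ∣ (2 * j + 1).centralBinom := by
  have h1 := Nat.succ_mul_centralBinom_succ (2 * j)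
  obtain ⟨a, ha⟩ := Nat.two_dvd_centralBinom_of_one_le (n := 2 * j) (by omega)
  have h2 : 4 ∣ (2 * j + 1) * (2 * j + 1).centralBinom := by
    refine ⟨(2 * (2 * j) + 1) * a, ?_⟩
    rw [h1, ha]
    ring
  refine (Nat.Coprime.dvd_of_dvd_mul_left ?_ h2)
  have h3 : Nat.Coprime 2 (2 * j + 1) := by
    rw [Nat.coprime_two_left]
    exact ⟨j, rfl⟩
  exact (show (4 : ℕ) = 2 ^ 2 by norm_num) ▸ Nat.Coprime.pow_left 2 h3

variable {K : Type*} [Field K] [CharZero K] {V : Type*} [AddCommGroup V] [Module K V]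
  [FiniteDimensional K V]

theorem idem_four {D D' : End K V} (hD2 : D * D = 1) (hD'2 : D' * D' = 1)
    (hc : D' * D = D * D') : ((4 : K)⁻¹ • ((1 + D) * (1 + D'))) *
      ((4 : K)⁻¹ • ((1 + D) * (1 + D'))) = (4 : K)⁻¹ • ((1 + D) * (1 + D')) := by
  rw [smul_mul_smul_comm]
  have e1 : (1 + D) * (1 + D') * ((1 + D) * (1 + D')) = (4 : K) • ((1 + D) * (1 + D')) := by
    have e2 : (1 + D) * (1 + D) = (2 : K) • (1 + D) := by
      rw [two_smul, mul_add, add_mul, add_mul, one_mul, mul_one, hD2, one_mul]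
      abel
    have e3 : (1 + D') * (1 + D') = (2 : K) • (1 + D') := by
      rw [two_smul, mul_add, add_mul, add_mul, one_mul, mul_one, hD'2, one_mul]
      abel
    have e4 : (1 + D') * (1 + D) = (1 + D) * (1 + D') := by
      rw [mul_add, add_mul, add_mul, mul_add, add_mul, add_mul, hc]
      simp only [one_mul, mul_one]
      abel
    calc (1 + D) * (1 + D') * ((1 + D) * (1 + D')) =
        (1 + D) * ((1 + D') * (1 + D)) * (1 + D') := by noncomm_ring
    _ = ((1 + D) * (1 + D)) * ((1 + D') * (1 + D')) := by rw [e4]; noncomm_ring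
    _ = (4 : K) • ((1 + D) * (1 + D')) := by
      rw [e2, e3, smul_mul_smul_comm]
      norm_num
  rw [e1, smul_smul]
  norm_num

theorem trace_four_eq {D D' : End K V} (hc : D' * D = D * D') (h0 : trace K V D = 0)
    (h0' : trace K V D' = 0) (h1 : trace K V (D' * D) = 0) :
    trace K V ((4 : K)⁻¹ • ((1 + D) * (1 + D'))) = (4 : K)⁻¹ * (finrank K V : K) := by
  have e1 : (1 + D) * (1 + D') = 1 + D + D' + D * D' := by noncomm_ring
  rw [map_smul, smul_eq_mul, e1, ← hc, map_add, map_add, map_add, h0, h0', h1,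
    LinearMap.trace_one]
  ring

/-- Two commuting involutions with traces zero, the product of which has trace zero. -/
theorem even_of_invol {D D' : End K V} (hD2 : D * D = 1) (hD'2 : D' * D' = 1)
    (hc : D' * D = D * D') (h0 : trace K V D = 0) (h0' : trace K V D' = 0)
    (h1 : trace K V (D' * D) = 0) : 4 ∣ finrank K V := by
  have hp : ((4 : K)⁻¹ • ((1 + D) * (1 + D'))) * ((4 : K)⁻¹ • ((1 + D) * (1 + D'))) =
      (4 : K)⁻¹ • ((1 + D) * (1 + D')) := by
    rw [smul_mul_smul_comm]
    have e1 : (1 + D) * (1 + D') * ((1 + D) * (1 + D')) = (4 : K) • ((1 + D) * (1 + D')) := by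
      have e2 : (1 + D) * (1 + D) = (2 : K) • (1 + D) := by
        rw [two_smul, mul_add, add_mul, add_mul, one_mul, mul_one, hD2, one_mul]
        abel
      have e3 : (1 + D') * (1 + D') = (2 : K) • (1 + D') := by
        rw [two_smul, mul_add, add_mul, add_mul, one_mul, mul_one, hD'2, one_mul]
        abel
      have e4 : (1 + D') * (1 + D) = (1 + D) * (1 + D') := by
        rw [mul_add, add_mul, add_mul, mul_add, add_mul, add_mul, hc]
        simp only [one_mul, mul_one]
        abel
      calc (1 + D) * (1 + D') * ((1 + D) * (1 + D')) =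
          (1 + D) * ((1 + D') * (1 + D)) * (1 + D') := by noncomm_ring
      _ = ((1 + D) * (1 + D)) * ((1 + D') * (1 + D')) := by rw [e4]; noncomm_ring
      _ = (4 : K) • ((1 + D) * (1 + D')) := by
        rw [e2, e3, smul_mul_smul_comm]
        norm_num
    rw [e1, smul_smul]
    norm_num
  have h2 := trace_idem hp
  have h3 : trace K V ((1 + D) * (1 + D')) = (finrank K V : K) := by
    have e1 : (1 + D) * (1 + D') = 1 + D + D' + D * D' := by noncomm_ring
    rw [e1, ← hc, map_add, map_add, map_add, h0, h0', h1, LinearMap.trace_one]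
    ring
  rw [map_smul, h3, smul_eq_mul] at h2
  refine ⟨rk ((4 : K)⁻¹ • ((1 + D) * (1 + D'))), ?_⟩
  have h4 : (finrank K V : K) = ((4 * rk ((4 : K)⁻¹ • ((1 + D) * (1 + D'))) : ℕ) : K) := by
    push_cast
    rw [← h2]
    field_simp
  exact_mod_cast h4

variable {G I : Submodule K (End K V)} {st : End K V →ₗ[K] End K V} (h : Setup G st)

include h in
/-- Elements of an ideal and of its commutant are orthogonal. -/
theorem orth_cen (hs : Scal G) {D₀ : End K V} (hD₀ : D₀ ∈ G) (hD₀2 : D₀ * D₀ = 1)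
    (hI : IsIdl G I) {b z : End K V} (hb : b ∈ cen G I) (hz : z ∈ I) :
    trace K V (b * z) = 0 := by
  have hnd := idl_nondeg h hs hD₀ hD₀2 hI
  obtain ⟨a, ha, haz⟩ := exists_repr hnd ((LinearMap.trace K V).comp (LinearMap.mulLeft K b))
  have haz' : ∀ z ∈ I, trace K V (b * z) = trace K V (a * z) := fun z hz => haz z hz
  have ha0 : a = 0 := by
    refine zero_of_comm h hs hD₀ hD₀2 hI (hI.le ha) (fun z hz => ?_) fun z hz => (hz.2 a ha).symm
    rw [← sub_eq_zero]
    refine hnd _ (hI.br _ (hI.le ha) z hz) fun z' hz' => ?_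
    have e1 := haz' _ (hI.br z (hI.le hz) z' hz')
    have e2 : trace K V (b * (z * z' - z' * z)) = 0 := by
      have e3 : b * (z * z' - z' * z) = (b * z) * z' - z' * (b * z) := by
        rw [mul_sub, ← mul_assoc, ← mul_assoc, hb.2 z' hz', mul_assoc z' b z]
      rw [e3, map_sub, LinearMap.trace_mul_comm, sub_self]
    have e4 : trace K V ((a * z - z * a) * z') = trace K V (a * (z * z' - z' * z)) := by
      have e5 : trace K V (z * a * z') = trace K V (a * z' * z) := by
        rw [mul_assoc, LinearMap.trace_mul_comm]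
      have e6 : (a * z - z * a) * z' = a * z * z' - z * a * z' := by noncomm_ring
      have e7 : a * (z * z' - z' * z) = a * z * z' - a * z' * z := by noncomm_ring
      rw [e6, e7, map_sub, map_sub, e5]
    rw [e4, ← e1, e2]
  rw [haz' z hz, ha0, zero_mul, map_zero]

include h in
/-- The Lie algebra is generated by an involution as an ideal, if the dimension is twice an odd
number. -/
theorem le_gn_of_odd (hs : Scal G) (htr : TrSt st) (h4 : ¬ 4 ∣ finrank K V)
    {S : Set (End K V)} (hS : ∀ D ∈ S, D ∈ G ∧ D * D = 1)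
    (hgen : ∀ L : Submodule K (End K V), S ⊆ L → (∀ y ∈ L, ∀ z ∈ L, y * z - z * y ∈ L) → G ≤ L)
    {D : End K V} (hD : D ∈ S) (hI : IsIdl G I) (hDI : D ∈ I) : G ≤ I := by
  refine hgen _ (fun D' hD' => ?_) fun y hy z hz => hI.br y (hI.le hy) z hz
  rcases invol_dich h hs hI (hS D' hD').1 (hS D' hD').2 with h1 | h1
  · exact h1
  · exfalso
    exact h4 (even_of_invol (hS D hD).2 (hS D' hD').2 (h1.2 D hDI)
      (trace_inv h htr (hS D hD).1) (trace_inv h htr (hS D' hD').1)
      (orth_cen h hs (hS D hD).1 (hS D hD).2 hI h1 hDI))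

include h in
/-- The positive part contains an element of rank one, if the involution generates the Lie algebra
as an ideal and the dimension is four or not divisible by four. -/
theorem rank_one_of_gn [IsAlgClosed K] (hs : Scal G) {ω : V →ₗ[K] V →ₗ[K] K}
    (hω : AltF st ω) (htr : TrSt st) (h4 : ¬ 4 ∣ finrank K V ∨ finrank K V = 4)
    {D : End K V} (hD : D ∈ G) (hD2 : D * D = 1) (hgn : G ≤ gn G D) (hne : D ≠ 0) :
    ∃ c ∈ Kp G D, rk c = 1 := by
  obtain ⟨u, hu, hu0⟩ := exists_kp_ne h hs hD hD2 hne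
  have hirr : Irr G D := fun _ hW1 hW => irr_plus h hs hD hD2 hgn hu hu0 hW1 hW
  have hDn : -D ∈ G := G.neg_mem hD
  have hDn2 : -D * -D = 1 := by rw [neg_mul_neg, hD2]
  obtain ⟨u', hu', hu'0⟩ := exists_kp_ne h hs hDn hDn2 (neg_ne_zero.2 hne)
  have hirrn : Irr G (-D) := fun _ hW1 hW =>
    irr_plus h hs hDn hDn2 (hgn.trans (gn_neg h hD)) hu' hu'0 hW1 hW
  obtain ⟨c, d, F, -⟩ := exists_prim h hD hD2 hu hu0
  refine ⟨c, F.cm, ?_⟩
  by_cases hr : 4 * rk c < finrank K V
  · exact F.rk_one h hω hD hD2 hirr htr hr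
  by_cases hr4 : 4 * rk c = finrank K V
  · rcases h4 with h4 | h4
    · exact absurd ⟨rk c, hr4.symm⟩ h4
    · omega
  have hmin : ∀ x ∈ G, x ≠ 0 → rk c ≤ rk x := fun x hx hx0 =>
    prim_rk_sq h hs hD hD2 hgn hne F.cm.1 (kp_sq F.cm) F.ne F.min hx hx0
  have hall : ∀ z ∈ G, z * z = 0 → z ≠ 0 →
      rk z = rk c ∧ ∀ y ∈ G, ∃ s : K, z * y * z = s • z := by
    intro x hx hx2 hx0
    by_cases hp : ∀ y ∈ G, ∃ s : K, x * y * x = s • x
    · exact ⟨le_antisymm (prim_rk_sq h hs hD hD2 hgn hne hx hx2 hx0 hp F.cm.1 F.ne)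
        (hmin x hx hx0), hp⟩
    · exfalso
      obtain ⟨x', hx', -, hx'0, h5⟩ := halving_sq h hx hx2 hp
      have h6 := hmin x' hx' hx'0
      have h7 := two_rk_le_sq hx2
      omega
  obtain ⟨k, hk, hk1, hk2⟩ := exc h hω htr hD hD2 hirr hirrn hu hu0
    (rk_pos_of_ne F.ne).ne' hall
  obtain ⟨j, rfl⟩ := hk
  rcases Nat.eq_zero_or_pos j with rfl | hj
  · rw [hk2]
    rfl
  · exfalso
    rw [← two_mul] at hk1
    rcases h4 with h4 | h4
    · apply h4
      rw [hk1]
      exact four_dvd_centralBinom hj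
    · rw [h4] at hk1
      have h5 := Nat.four_pow_le_two_mul_self_mul_centralBinom (2 * j + 1) (by omega)
      rw [← hk1] at h5
      have h6 : 2 * (2 * j + 1) * 4 < 4 ^ (2 * j + 1) := by
        clear h5 hk1 hk2
        induction j, hj using Nat.le_induction with
        | base => norm_num
        | succ j _ ih =>
          have e1 : 4 ^ (2 * (j + 1) + 1) = 16 * 4 ^ (2 * j + 1) := by ring
          rw [e1]
          omega
      omega

include h in
theorem cen_four_aux {ω : V →ₗ[K] V →ₗ[K] K} (hω : AltF st ω) (htr : TrSt st)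
    (h4 : finrank K V = 4) {D D' u f : End K V} (hD : D ∈ G) (hD2 : D * D = 1)
    (hD' : D' ∈ G) (hD'2 : D' * D' = 1) (hc : D' * D = D * D') (ht : trace K V (D' * D) = 0)
    (hf : f ∈ G) (hDf : D * f = -f) (huf : ∀ w, D w = w → u (f w) = w)
    (hD'f : D' * f = f * D') {y : End K V} (hy : y ∈ G) (hyf : y * f = f * y)
    (hyD : y * D = D * y) {v : V} (hv : D v = v) (hv' : D' v = v) : D' (y v) = y v := by
  by_cases hv0 : v = 0
  · rw [hv0, map_zero, map_zero]
  obtain ⟨hω1, hω2, hω3⟩ := id hω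
  have hsk : ∀ z ∈ G, ∀ a b, ω (z a) b = -ω a (z b) := by
    intro z hz a b
    rw [hω1, h.skew z hz]
    exact map_neg _ _
  have hsymm : ∀ a b, ω a (f b) = ω b (f a) := by
    intro a b
    rw [hω2, hsk f hf, neg_neg]
  have hcomm : ∀ {a b : End K V}, a * b = b * a → ∀ x, a (b x) = b (a x) := fun h x =>
    LinearMap.congr_fun h x
  have hDD : ∀ x, D (D x) = x := fun x => LinearMap.congr_fun hD2 x
  have hDD' : ∀ x, D' (D' x) = x := fun x => LinearMap.congr_fun hD'2 x
  have hz : ∀ a : K, a = -a → a = 0 := by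
    intro a ha
    have h1 : (2 : K) * a = 0 := by linear_combination ha
    exact (mul_eq_zero.1 h1).resolve_left two_ne_zero
  -- the space of common fixed vectors is a line
  have hline : ∀ x, D x = x → D' x = x → ∃ s : K, x = s • v := by
    intro x hx hx'
    have hp : ((4 : K)⁻¹ • ((1 + D) * (1 + D'))) * ((4 : K)⁻¹ • ((1 + D) * (1 + D'))) =
        (4 : K)⁻¹ • ((1 + D) * (1 + D')) := idem_four hD2 hD'2 hc
    have h2 := trace_idem hp
    rw [trace_four_eq hc (trace_inv h htr hD) (trace_inv h htr hD') ht, h4] at h2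
    have h3 : rk ((4 : K)⁻¹ • ((1 + D) * (1 + D'))) = 1 := by
      have h5 : ((rk ((4 : K)⁻¹ • ((1 + D) * (1 + D'))) : ℕ) : K) = ((1 : ℕ) : K) := by
        rw [← h2]
        norm_num
      exact_mod_cast h5
    obtain ⟨w, -, hw⟩ := finrank_eq_one_iff'.1 h3
    have hmem : ∀ z, D z = z → D' z = z →
        z ∈ LinearMap.range ((4 : K)⁻¹ • ((1 + D) * (1 + D'))) := by
      intro z hz hz'
      refine ⟨z, ?_⟩
      change (4 : K)⁻¹ • ((z + D' z) + D (z + D' z)) = z
      rw [hz', map_add, hz, ← two_smul K z, ← two_smul K ((2 : K) • z), smul_smul, smul_smul]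
      norm_num
    obtain ⟨a, ha⟩ := hw ⟨x, hmem x hx hx'⟩
    obtain ⟨b, hb⟩ := hw ⟨v, hmem v hv hv'⟩
    have ha' := congrArg Subtype.val ha
    have hb' := congrArg Subtype.val hb
    change a • (w : V) = x at ha'
    change b • (w : V) = v at hb'
    have hb0 : b ≠ 0 := by
      rintro rfl
      apply hv0
      rw [← hb', zero_smul]
    refine ⟨a * b⁻¹, ?_⟩
    rw [← hb', smul_smul, mul_assoc, inv_mul_cancel₀ hb0, mul_one, ha']
  obtain ⟨w, hw⟩ : ∃ w, w = y v - D' (y v) := ⟨_, rfl⟩
  have hDw : D w = w := by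
    rw [hw, map_sub, ← hcomm hc, ← hcomm hyD, hv]
  have hD'w : D' w = -w := by
    rw [hw, map_sub, hDD', neg_sub]
  have hyv : ω (y v) (f v) = 0 := by
    apply hz
    conv_lhs => rw [hsk y hy, hcomm hyf, hsymm]
  have hwv : ω w (f v) = 0 := by
    rw [hw, map_sub, LinearMap.sub_apply, hyv, hsk D' hD', hcomm hD'f, hv', hyv, neg_zero,
      sub_zero]
  have hwx : ∀ x, D x = x → ω w (f x) = 0 := by
    intro x hx
    have e1 : x = (2 : K)⁻¹ • (x + D' x) + (2 : K)⁻¹ • (x - D' x) := by
      rw [← smul_add]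
      have e2 : x + D' x + (x - D' x) = (2 : K) • x := by
        rw [two_smul]
        abel
      rw [e2, smul_smul, inv_mul_cancel₀ two_ne_zero, one_smul]
    obtain ⟨s, hs⟩ := hline ((2 : K)⁻¹ • (x + D' x)) (by
      rw [map_smul, map_add, ← hcomm hc, hx]) (by
      rw [map_smul, map_add, hDD', add_comm])
    have e3 : ω w (f ((2 : K)⁻¹ • (x - D' x))) = 0 := by
      apply hz
      obtain ⟨x2, hx2⟩ : ∃ x2, x2 = (2 : K)⁻¹ • (x - D' x) := ⟨_, rfl⟩
      have e4 : D' x2 = -x2 := by
        rw [hx2, map_smul, map_sub, hDD', ← smul_neg, neg_sub]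
      rw [← hx2]
      have e5 := hsk D' hD' w (f x2)
      rw [hD'w, hcomm hD'f, e4, map_neg, map_neg, map_neg, LinearMap.neg_apply, neg_neg] at e5
      exact e5.symm
    rw [e1, map_add, map_add, e3, hs, map_smul, map_smul, hwv, smul_zero, add_zero]
  have hfw : f w = 0 := by
    refine hω3 _ fun x => ?_
    have e1 : x = (2 : K)⁻¹ • (x + D x) + (2 : K)⁻¹ • (x - D x) := by
      rw [← smul_add]
      have e2 : x + D x + (x - D x) = (2 : K) • x := by
        rw [two_smul]
        abel
      rw [e2, smul_smul, inv_mul_cancel₀ two_ne_zero, one_smul]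
    have e3 : ω ((2 : K)⁻¹ • (x + D x)) (f w) = 0 := by
      rw [hsymm]
      refine hwx _ ?_
      rw [map_smul, map_add, hDD, add_comm]
    have e4 : ω ((2 : K)⁻¹ • (x - D x)) (f w) = 0 := by
      apply hz
      obtain ⟨x2, hx2⟩ : ∃ x2, x2 = (2 : K)⁻¹ • (x - D x) := ⟨_, rfl⟩
      have e4 : D x2 = -x2 := by
        rw [hx2, map_smul, map_sub, hDD, ← smul_neg, neg_sub]
      rw [← hx2]
      have e5 := hsk D hD x2 (f w)
      have e6 : D (f w) = -(f w) := LinearMap.congr_fun hDf w
      rw [e4, e6, map_neg, map_neg, LinearMap.neg_apply, neg_neg] at e5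
      exact e5.symm
    rw [e1, map_add, LinearMap.add_apply, e3, e4, add_zero]
  have hw0 : w = 0 := by
    rw [← huf w hDw, hfw, map_zero]
  rw [hw0] at hw
  exact (sub_eq_zero.1 hw.symm).symm

include h in
/-- In dimension four an involution cannot commute with the ideal generated by another one. -/
theorem cen_four (hs : Scal G) {ω : V →ₗ[K] V →ₗ[K] K} (hω : AltF st ω) (htr : TrSt st)
    (h4 : finrank K V = 4) {D D' : End K V} (hD : D ∈ G) (hD2 : D * D = 1) (hne : D ≠ 0)
    (hD'2 : D' * D' = 1) (hI : IsIdl G I) (hDI : D ∈ I) (hD' : D' ∈ cen G I) : False := by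
  obtain ⟨u, hu, hu0⟩ := exists_kp_ne h hs hD hD2 hne
  obtain ⟨f, hf, huf, hfu⟩ := kp_partner h hD hD2 hu
  have hD0 : D' ≠ 0 := by
    rintro rfl
    apply hne
    rw [← mul_one D, ← hD'2, mul_zero, mul_zero]
  have huI : u ∈ I := by
    have h1 := hI.br' hDI hu.1
    rw [hu.2.1, hu.2.2, sub_neg_eq_add, ← two_smul K u] at h1
    exact (Submodule.smul_mem_iff _ (two_ne_zero (α := K))).1 h1
  have hf' := mem_Kn.1 hf
  have hfI : f ∈ I := by
    have h1 := hI.br' hDI hf'.1
    rw [hf'.2.1, hf'.2.2, ← neg_add', ← two_smul K f] at h1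
    exact (Submodule.smul_mem_iff _ (two_ne_zero (α := K))).1 ((Submodule.neg_mem_iff _).1 h1)
  have ht : trace K V (D' * D) = 0 := orth_cen h hs hD hD2 hI hD' hDI
  have hf0 : f ≠ 0 := by
    rintro rfl
    apply hu0
    rw [← huf, mul_zero, zero_mul]
  have hpp : u * f * (u * f) = u * f := by rw [← mul_assoc, huf]
  have hrk : rk (u * f) ≤ 2 := by
    have h1 := two_rk_le_sq (kp_sq hu)
    have h2 := rk_mul_le_left u f
    omega
  have hrk0 : rk (u * f) ≠ 0 := by
    intro h0
    apply hu0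
    rw [← huf, rk_eq_zero h0, zero_mul]
  have hfin : rk (u * f) = 1 ∨ rk (u * f) = 2 := by omega
  rcases hfin with h1 | h2
  · -- rank one
    obtain ⟨w, hw0, hw⟩ := finrank_eq_one_iff'.1 h1
    obtain ⟨s, hs'⟩ : ∃ s : K, D' * (u * f) = s • (u * f) := by
      obtain ⟨w', hw'⟩ := w.2
      have h3 : D' w ∈ LinearMap.range (u * f) := by
        refine ⟨D' w, ?_⟩
        have e1 : (u * f) (D' w) = D' ((u * f) w) := by
          have e2 : u * f * D' = D' * (u * f) := by
            rw [mul_assoc, ← hD'.2 f hfI, ← mul_assoc, ← hD'.2 u huI, mul_assoc]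
          exact LinearMap.congr_fun e2 _
        rw [e1]
        congr 1
        rw [← hw']
        exact LinearMap.congr_fun hpp w'
      obtain ⟨s, hs'⟩ := hw ⟨_, h3⟩
      have hs'' : s • (w : V) = D' w := congrArg Subtype.val hs'
      refine ⟨s, LinearMap.ext fun x => ?_⟩
      obtain ⟨a, ha⟩ := hw ⟨(u * f) x, ⟨x, rfl⟩⟩
      have ha' : a • (w : V) = (u * f) x := congrArg Subtype.val ha
      change D' ((u * f) x) = s • (u * f) x
      rw [← ha', map_smul, ← hs'', smul_comm]
    have e1 : D' * f = s • f := by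
      have e2 : f * (D' * (u * f)) = D' * (f * u * f) := by
        rw [← mul_assoc, ← hD'.2 f hfI]
        noncomm_ring
      rw [hs', mul_smul_comm, ← mul_assoc, hfu] at e2
      exact e2.symm
    have e2 : D' * f = -(s • f) := by
      have e3 := congrArg st hs'
      rw [map_smul, h.st_mul, h.st_mul, h.skew D' hD'.1, h.skew u hu.1, h.skew f hf.1,
        neg_mul_neg, mul_neg] at e3
      have e4 : -(f * u * D') * f = s • (f * u) * f := by rw [e3]
      rw [smul_mul_assoc, hfu, neg_mul, mul_assoc (f * u), hD'.2 f hfI, ← mul_assoc, hfu,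
        ← hD'.2 f hfI] at e4
      rw [← e4, neg_neg]
    have e3 : D' * f = 0 := by
      have e4 : (2 : K) • (D' * f) = 0 := by
        rw [two_smul]
        nth_rewrite 1 [e1]
        rw [e2, add_neg_cancel]
      exact (smul_eq_zero.1 e4).resolve_left two_ne_zero
    apply hf0
    rw [← one_mul f, ← hD'2, mul_assoc, e3, mul_zero]
  · -- rank two
    have hP : rk ((2 : K)⁻¹ • (1 + D)) = 2 := by
      have h3 : ((2 : K)⁻¹ • (1 + D)) * ((2 : K)⁻¹ • (1 + D)) = (2 : K)⁻¹ • (1 + D) := by
        rw [smul_mul_smul_comm]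
        have e2 : (1 + D) * (1 + D) = (2 : K) • (1 + D) := by
          rw [two_smul, mul_add, add_mul, add_mul, one_mul, mul_one, hD2, one_mul]
          abel
        rw [e2, smul_smul]
        norm_num
      have h5 := trace_idem h3
      rw [map_smul, map_add, LinearMap.trace_one, trace_inv h htr hD, h4, add_zero] at h5
      have h6 : ((rk ((2 : K)⁻¹ • (1 + D)) : ℕ) : K) = ((2 : ℕ) : K) := by
        rw [← h5, smul_eq_mul]
        norm_num
      exact_mod_cast h6
    have hrange : LinearMap.range (u * f) = LinearMap.range ((2 : K)⁻¹ • (1 + D)) := by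
      apply Submodule.eq_of_le_of_finrank_eq
      · rintro _ ⟨x, rfl⟩
        refine ⟨(u * f) x, ?_⟩
        have e1 : D ((u * f) x) = (u * f) x := LinearMap.congr_fun hu.2.1 (f x)
        change (2 : K)⁻¹ • ((u * f) x + D ((u * f) x)) = _
        rw [e1, ← two_smul K ((u * f) x), smul_smul, inv_mul_cancel₀ two_ne_zero, one_smul]
      · exact h2.trans hP.symm
    have huf' : ∀ w, D w = w → u (f w) = w := by
      intro w hw
      have h3 : w ∈ LinearMap.range (u * f) := by
        rw [hrange]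
        refine ⟨w, ?_⟩
        change (2 : K)⁻¹ • (w + D w) = w
        rw [hw, ← two_smul K w, smul_smul, inv_mul_cancel₀ two_ne_zero, one_smul]
      obtain ⟨x, hx⟩ := h3
      rw [← hx]
      exact LinearMap.congr_fun hpp x
    have hfuQ : ∀ x, f (u x) = (2 : K)⁻¹ • (x - D x) := by
      have e1 : u * f * ((2 : K)⁻¹ • (1 + D)) = (2 : K)⁻¹ • (1 + D) := by
        refine LinearMap.ext fun x => ?_
        refine huf' ((2 : K)⁻¹ • (x + D x)) ?_
        have hDD : D (D x) = x := LinearMap.congr_fun hD2 x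
        rw [map_smul, map_add, hDD, add_comm]
      have e2 := congrArg st e1
      rw [h.st_mul, h.st_mul, map_smul, map_add, st_one h hD hD2, h.skew D hD, h.skew u hu.1,
        h.skew f hf.1, neg_mul_neg, ← sub_eq_add_neg, smul_mul_assoc, sub_mul, one_mul,
        ← mul_assoc, hf'.2.1, neg_mul, sub_neg_eq_add, ← two_smul K (f * u), smul_smul,
        inv_mul_cancel₀ two_ne_zero, one_smul] at e2
      exact fun x => LinearMap.congr_fun e2 x
    have hkey : ∀ y ∈ cen G I, D' * y = y * D' := by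
      intro y hy
      have hc : D' * D = D * D' := hD'.2 D hDI
      have k1 : ∀ v, D v = v → D' v = v → D' (y v) = y v := fun v hv hv' =>
        cen_four_aux h hω htr h4 hD hD2 hD'.1 hD'2 hc ht hf'.1 hf'.2.1 huf' (hD'.2 f hfI) hy.1
          (hy.2 f hfI) (hy.2 D hDI) hv hv'
      have k2 : ∀ v, D v = v → D' v = -v → D' (y v) = -(y v) := by
        intro v hv hv'
        have h3 := cen_four_aux h hω htr h4 (D' := -D') hD hD2 (G.neg_mem hD'.1)
          (by rw [neg_mul_neg, hD'2]) (by rw [neg_mul, mul_neg, hc])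
          (by rw [neg_mul, map_neg, ht, neg_zero]) hf'.1 hf'.2.1 huf'
          (by rw [neg_mul, mul_neg, hD'.2 f hfI]) hy.1 (hy.2 f hfI) (hy.2 D hDI) hv
          (by rw [LinearMap.neg_apply, hv', neg_neg])
        rw [LinearMap.neg_apply] at h3
        exact neg_eq_iff_eq_neg.1 h3
      have k3 : ∀ v, D v = v → D' (y v) = y (D' v) := by
        intro v hv
        have e1 : v = (2 : K)⁻¹ • (v + D' v) + (2 : K)⁻¹ • (v - D' v) := by
          rw [← smul_add]
          have e2 : v + D' v + (v - D' v) = (2 : K) • v := by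
            rw [two_smul]
            abel
          rw [e2, smul_smul, inv_mul_cancel₀ two_ne_zero, one_smul]
        have hDD' : ∀ x, D' (D' x) = x := fun x => LinearMap.congr_fun hD'2 x
        have hcx : ∀ x, D' (D x) = D (D' x) := fun x => LinearMap.congr_fun hc x
        have m1 := k1 ((2 : K)⁻¹ • (v + D' v)) (by rw [map_smul, map_add, ← hcx, hv])
          (by rw [map_smul, map_add, hDD', add_comm])
        have m2 := k2 ((2 : K)⁻¹ • (v - D' v)) (by rw [map_smul, map_sub, ← hcx, hv])
          (by rw [map_smul, map_sub, hDD', ← smul_neg, neg_sub])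
        have e3 : D' v = (2 : K)⁻¹ • (v + D' v) - (2 : K)⁻¹ • (v - D' v) := by
          rw [← smul_sub]
          have e2 : v + D' v - (v - D' v) = (2 : K) • D' v := by
            rw [two_smul]
            abel
          rw [e2, smul_smul, inv_mul_cancel₀ two_ne_zero, one_smul]
        conv_lhs => rw [e1]
        conv_rhs => rw [e3]
        rw [map_add, map_add, m1, m2, map_sub, ← sub_eq_add_neg]
      refine LinearMap.ext fun v => ?_
      change D' (y v) = y (D' v)
      have hDy : ∀ x, y (D x) = D (y x) := fun x => LinearMap.congr_fun (hy.2 D hDI) x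
      have e1 : v = (2 : K)⁻¹ • (v + D v) + (2 : K)⁻¹ • (v - D v) := by
        rw [← smul_add]
        have e2 : v + D v + (v - D v) = (2 : K) • v := by
          rw [two_smul]
          abel
        rw [e2, smul_smul, inv_mul_cancel₀ two_ne_zero, one_smul]
      have hDD : ∀ x, D (D x) = x := fun x => LinearMap.congr_fun hD2 x
      have m1 := k3 ((2 : K)⁻¹ • (v + D v)) (by rw [map_smul, map_add, hDD, add_comm])
      have m2 : D' (y ((2 : K)⁻¹ • (v - D v))) = y (D' ((2 : K)⁻¹ • (v - D v))) := by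
        obtain ⟨x, hx⟩ : ∃ x, x = (2 : K)⁻¹ • (v - D v) := ⟨_, rfl⟩
        have hDx : D x = -x := by rw [hx, map_smul, map_sub, hDD, ← smul_neg, neg_sub]
        rw [← hx]
        have hfux : f (u x) = x := by
          rw [hfuQ x, hDx, sub_neg_eq_add, ← two_smul K x, smul_smul,
            inv_mul_cancel₀ two_ne_zero, one_smul]
        have m3 := k3 (u x) (LinearMap.congr_fun hu.2.1 x)
        have c1 : ∀ z, D' (f z) = f (D' z) := fun z => LinearMap.congr_fun (hD'.2 f hfI) z
        have c2 : ∀ z, y (f z) = f (y z) := fun z => LinearMap.congr_fun (hy.2 f hfI) z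
        rw [← hfux, c2, c1, m3, c1, c2]
      conv_lhs => rw [e1]
      conv_rhs => rw [e1]
      rw [map_add, map_add, m1, m2, map_add, map_add]
    apply hD0
    exact zero_of_comm h hs hD hD2 hI hD'.1 hD'.2 hkey

include h in
/-- The positive part contains an element of rank one, if the dimension is four or not divisible
by four. -/
theorem rank_one_odd [IsAlgClosed K] (hs : Scal G) {ω : V →ₗ[K] V →ₗ[K] K}
    (hω : AltF st ω) (htr : TrSt st) (h4 : ¬ 4 ∣ finrank K V ∨ finrank K V = 4)
    {S : Set (End K V)} (hS : ∀ D ∈ S, D ∈ G ∧ D * D = 1)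
    (hgen : ∀ L : Submodule K (End K V), S ⊆ L → (∀ y ∈ L, ∀ z ∈ L, y * z - z * y ∈ L) → G ≤ L)
    {D : End K V} (hDS : D ∈ S) (hne : D ≠ 0) : ∃ c ∈ Kp G D, rk c = 1 := by
  obtain ⟨hD, hD2⟩ := hS D hDS
  refine rank_one_of_gn h hs hω htr h4 hD hD2 ?_ hne
  rcases h4 with h4 | h4
  · exact le_gn_of_odd h hs htr h4 hS hgen hDS (gn_idl h hD) mem_gn
  · have hI := gn_idl h hD
    refine hgen _ (fun D' hD' => ?_) fun y hy z hz => hI.br y (hI.le hy) z hz
    rcases invol_dich h hs hI (hS D' hD').1 (hS D' hD').2 with h1 | h1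
    · exact h1
    · exact (cen_four h hs hω htr h4 hD hD2 hne (hS D' hD').2 hI mem_gn h1).elim

end Pool.Agent.Y91.P.Two
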