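import Mathlib
import Pool.Agent.Y91.P.JSymp2

/-!
# Rank one elements: arbitrary invariant symplectic forms
-/

set_option linter.unusedSectionVars false

namespace Pool.Agent.Y91.P

open Matrix Module Pool.Agent.Y90 Pool.Agent.W437.HC Pool.Agent.W437.HD Pool.Agent.W548.Odd
  

variable {g : ℕ} {Z : Matrix (Fin g) (Fin g) ℂ}

theorem om_skew' (u v : Fin g ⊕ Fin g → ℂ) : om g u v = -om g v u := by
  have h := om_self (g := g) (u + v)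
  rw [map_add, map_add, LinearMap.add_apply, LinearMap.add_apply, om_self, om_self, zero_add,
    add_zero] at h
  linear_combination h

/-- Equivariant linear maps. -/
def Eqv (Z : Matrix (Fin g) (Fin g) ℂ)
    (T : (Fin g ⊕ Fin g → ℂ) →ₗ[ℂ] (Fin g ⊕ Fin g → ℂ)) : Prop :=
  ∀ X ∈ LZ Z, ∀ v, T (X *ᵥ v) = X *ᵥ T v

theorem Eqv.ker {T : (Fin g ⊕ Fin g → ℂ) →ₗ[ℂ] (Fin g ⊕ Fin g → ℂ)} (hT : Eqv Z T) :
    Stab (LZ Z) (LinearMap.ker T) := by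
  intro X hX u hu
  rw [LinearMap.mem_ker] at hu ⊢
  rw [hT X hX, hu, mulVec_zero]

theorem Eqv.map {T : (Fin g ⊕ Fin g → ℂ) →ₗ[ℂ] (Fin g ⊕ Fin g → ℂ)} (hT : Eqv Z T)
    {W : Submodule ℂ (Fin g ⊕ Fin g → ℂ)} (hW : Stab (LZ Z) W) : Stab (LZ Z) (W.map T) := by
  rintro X hX _ ⟨u, hu, rfl⟩
  exact ⟨X *ᵥ u, hW X hX u hu, hT X hX u⟩

/-- An equivariant map which does not vanish on an irreducible submodule is injective on it. -/
theorem Eqv.inj {T : (Fin g ⊕ Fin g → ℂ) →ₗ[ℂ] (Fin g ⊕ Fin g → ℂ)} (hT : Eqv Z T)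
    {W : Submodule ℂ (Fin g ⊕ Fin g → ℂ)} (hW : IrS (LZ Z) W) (h0 : ∃ u ∈ W, T u ≠ 0) :
    ∀ u ∈ W, T u = 0 → u = 0 := by
  intro u hu hu0
  rcases hW.2.2 (W ⊓ LinearMap.ker T) inf_le_left (hW.2.1.inf hT.ker) with h1 | h1
  · have h2 : u ∈ W ⊓ LinearMap.ker T := ⟨hu, hu0⟩
    rw [h1] at h2
    exact h2
  · obtain ⟨w, hw, hw0⟩ := h0
    rw [← h1] at hw
    exact absurd hw.2 hw0

theorem Eqv.irS {T : (Fin g ⊕ Fin g → ℂ) →ₗ[ℂ] (Fin g ⊕ Fin g → ℂ)} (hT : Eqv Z T)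
    {W : Submodule ℂ (Fin g ⊕ Fin g → ℂ)} (hW : IrS (LZ Z) W) (h0 : ∀ u ∈ W, T u = 0 → u = 0) :
    IrS (LZ Z) (W.map T) := by
  refine ⟨fun h => hW.1 ?_, hT.map hW.2.1, fun Y hY hs => ?_⟩
  · rw [eq_bot_iff]
    intro u hu
    rw [Submodule.mem_bot]
    apply h0 u hu
    have h1 : T u ∈ W.map T := ⟨u, hu, rfl⟩
    rw [h] at h1
    exact h1
  · have hs' : Stab (LZ Z) (W ⊓ Y.comap T) := by
      rintro X hX u ⟨hu, hu'⟩
      refine ⟨hW.2.1 X hX u hu, ?_⟩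
      change T (X *ᵥ u) ∈ Y
      rw [hT X hX]
      exact hs X hX _ hu'
    rcases hW.2.2 _ inf_le_left hs' with h1 | h1
    · left
      rw [eq_bot_iff]
      intro y hy
      obtain ⟨u, hu, rfl⟩ := hY hy
      have h2 : u ∈ W ⊓ Y.comap T := ⟨hu, hy⟩
      rw [h1, Submodule.mem_bot] at h2
      rw [h2, map_zero]
      exact Submodule.zero_mem _
    · right
      apply le_antisymm hY
      rintro _ ⟨u, hu, rfl⟩
      rw [← h1] at hu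
      exact hu.2

theorem finrank_map_inj {T : (Fin g ⊕ Fin g → ℂ) →ₗ[ℂ] (Fin g ⊕ Fin g → ℂ)}
    {W : Submodule ℂ (Fin g ⊕ Fin g → ℂ)} (h0 : ∀ u ∈ W, T u = 0 → u = 0) :
    finrank ℂ (W.map T) = finrank ℂ W := by
  have h1 : Function.Injective (T.domRestrict W) := by
    rw [← LinearMap.ker_eq_bot, eq_bot_iff]
    intro u hu
    rw [Submodule.mem_bot]
    apply Subtype.ext
    exact h0 _ u.2 hu
  have h2 : LinearMap.range (T.domRestrict W) = W.map T := LinearMap.range_domRestrict _ _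
  rw [← h2, LinearMap.finrank_range_of_inj h1]

/-- Rank one elements on isomorphic submodules. -/
theorem rk1_of_map {T : (Fin g ⊕ Fin g → ℂ) →ₗ[ℂ] (Fin g ⊕ Fin g → ℂ)} (hT : Eqv Z T)
    {W : Submodule ℂ (Fin g ⊕ Fin g → ℂ)} (hW : Stab (LZ Z) W) (h0 : ∀ u ∈ W, T u = 0 → u = 0)
    (h : Rk1 Z (W.map T)) : Rk1 Z W := by
  obtain ⟨D, hD, N, hN, h1, h2, h3⟩ := h
  refine ⟨D, hD, N, hN, h1, h2, ?_⟩
  have h4 : (W.map T).map (mulVecLin N) = (W.map (mulVecLin N)).map T := by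
    ext x
    constructor
    · rintro ⟨_, ⟨u, hu, rfl⟩, rfl⟩
      exact ⟨N *ᵥ u, ⟨u, hu, rfl⟩, hT N hN u⟩
    · rintro ⟨_, ⟨u, hu, rfl⟩, rfl⟩
      exact ⟨T u, ⟨u, hu, rfl⟩, (hT N hN u).symm⟩
  rw [h4, finrank_map_inj] at h3
  · exact h3
  · rintro _ ⟨u, hu, rfl⟩ h5
    exact h0 _ (hW N hN u hu) h5

section form

variable {M : Matrix (Fin g ⊕ Fin g) (Fin g ⊕ Fin g) ℂ} {W : Submodule ℂ (Fin g ⊕ Fin g → ℂ)}

theorem form_inv (hinv : ∀ X ∈ LZ Z, Xᵀ * M + M * X = 0) {X : Matrix (Fin g ⊕ Fin g) (Fin g ⊕ Fin g) ℂ}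
    (hX : X ∈ LZ Z) (u v : Fin g ⊕ Fin g → ℂ) :
    (X *ᵥ u) ⬝ᵥ (M *ᵥ v) = -(u ⬝ᵥ (M *ᵥ (X *ᵥ v))) := by
  have h1 : u ⬝ᵥ ((Xᵀ * M + M * X) *ᵥ v) = 0 := by rw [hinv X hX, zero_mulVec, dotProduct_zero]
  rw [add_mulVec, dotProduct_add, ← mulVec_mulVec, ← mulVec_mulVec] at h1
  have h2 : u ⬝ᵥ (Xᵀ *ᵥ (M *ᵥ v)) = (X *ᵥ u) ⬝ᵥ (M *ᵥ v) := by
    rw [mulVec_transpose, dotProduct_comm, ← dotProduct_mulVec, dotProduct_comm]
  rw [h2] at h1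
  exact eq_neg_of_add_eq_zero_left h1

/-- Each vector is represented on `W`, with respect to the form `M`. -/
theorem exists_rep (h : PM Z) (hinv : ∀ X ∈ LZ Z, Xᵀ * M + M * X = 0) (hW : Stab (LZ Z) W)
    (hM : Mᵀ = -M)
    (hnd : ∀ u ∈ W, (∀ v ∈ W, u ⬝ᵥ (M *ᵥ v) = 0) → u = 0) :
    ∃ F : (Fin g ⊕ Fin g → ℂ) →ₗ[ℂ] (Fin g ⊕ Fin g → ℂ), Eqv Z F ∧ (∀ v, F v ∈ W) ∧
      ∀ u ∈ W, ∀ v, om g u v = u ⬝ᵥ (M *ᵥ F v) := by
  have hsk : ∀ u v : Fin g ⊕ Fin g → ℂ, u ⬝ᵥ (M *ᵥ v) = -(v ⬝ᵥ (M *ᵥ u)) := by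
    intro u v
    have h1 : u ⬝ᵥ (M *ᵥ v) = v ⬝ᵥ (Mᵀ *ᵥ u) := by
      rw [mulVec_transpose, dotProduct_comm v, ← dotProduct_mulVec]
    rw [h1, hM, neg_mulVec, dotProduct_neg]
  let b : W →ₗ[ℂ] (W →ₗ[ℂ] ℂ) := LinearMap.mk₂ ℂ (fun w u : W => (u : Fin g ⊕ Fin g → ℂ) ⬝ᵥ
      (M *ᵥ (w : Fin g ⊕ Fin g → ℂ)))
    (fun a b c => by simp [mulVec_add, dotProduct_add])
    (fun c a b => by simp [mulVec_smul])
    (fun a b c => by simp [add_dotProduct])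
    (fun c a b => by simp)
  have hb : Function.Injective b := by
    rw [← LinearMap.ker_eq_bot, eq_bot_iff]
    intro w hw
    rw [Submodule.mem_bot]
    apply Subtype.ext
    refine hnd _ w.2 fun v hv => ?_
    have h1 := LinearMap.congr_fun (LinearMap.mem_ker.1 hw) ⟨v, hv⟩
    have h2 : v ⬝ᵥ (M *ᵥ (w : Fin g ⊕ Fin g → ℂ)) = 0 := h1
    rw [hsk, h2, neg_zero]
  have hb' : Function.Bijective b := ⟨hb, (LinearMap.injective_iff_surjective_of_finrank_eq_finrank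
    (Subspace.dual_finrank_eq (K := ℂ) (V := W)).symm).1 hb⟩
  let e : W ≃ₗ[ℂ] (W →ₗ[ℂ] ℂ) := LinearEquiv.ofBijective b hb'
  let r : (Fin g ⊕ Fin g → ℂ) →ₗ[ℂ] (W →ₗ[ℂ] ℂ) :=
    LinearMap.mk₂ ℂ (fun v (u : W) => om g (u : Fin g ⊕ Fin g → ℂ) v)
    (fun a b c => by simp)
    (fun c a b => by simp)
    (fun a b c => by simp)
    (fun c a b => by simp)
  let F : (Fin g ⊕ Fin g → ℂ) →ₗ[ℂ] (Fin g ⊕ Fin g → ℂ) := W.subtype ∘ₗ e.symm.toLinearMap ∘ₗ r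
  have hF : ∀ u ∈ W, ∀ v, om g u v = u ⬝ᵥ (M *ᵥ F v) := by
    intro u hu v
    have h1 : b (e.symm (r v)) = r v := e.apply_symm_apply (r v)
    exact (LinearMap.congr_fun h1 ⟨u, hu⟩).symm
  have hFW : ∀ v, F v ∈ W := fun v => (e.symm (r v)).2
  refine ⟨F, fun X hX v => ?_, hFW, hF⟩
  have h1 : F (X *ᵥ v) - X *ᵥ F v ∈ W := W.sub_mem (hFW _) (hW X hX _ (hFW v))
  have h2 : F (X *ᵥ v) - X *ᵥ F v = 0 := by
    refine hnd _ h1 fun u hu => ?_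
    rw [hsk, mulVec_sub, dotProduct_sub, ← hF u hu]
    have h3 := h.om_sp hX u v
    have h4 := form_inv hinv hX u (F v)
    rw [← hF _ (hW X hX u hu)] at h4
    have h5 : u ⬝ᵥ (M *ᵥ (X *ᵥ F v)) = -(om g (X *ᵥ u) v) := by rw [h4, neg_neg]
    rw [h5]
    linear_combination (-1 : ℂ) * h3
  exact sub_eq_zero.1 h2

/-- There is an isomorphic submodule on which the standard form does not vanish. -/
theorem exists_nonisotropic (h : PM Z) (hM : Mᵀ = -M)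
    (hinv : ∀ X ∈ LZ Z, Xᵀ * M + M * X = 0) (hW : IrS (LZ Z) W)
    (hnd : ∀ u ∈ W, (∀ v ∈ W, u ⬝ᵥ (M *ᵥ v) = 0) → u = 0) :
    ∃ S : (Fin g ⊕ Fin g → ℂ) →ₗ[ℂ] (Fin g ⊕ Fin g → ℂ), Eqv Z S ∧
      ∃ u ∈ W, ∃ v ∈ W, om g (S u) (S v) ≠ 0 := by
  have hsk : ∀ u v : Fin g ⊕ Fin g → ℂ, u ⬝ᵥ (M *ᵥ v) = -(v ⬝ᵥ (M *ᵥ u)) := by
    intro u v
    have h1 : u ⬝ᵥ (M *ᵥ v) = v ⬝ᵥ (Mᵀ *ᵥ u) := by
      rw [mulVec_transpose, dotProduct_comm v, ← dotProduct_mulVec]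
    rw [h1, hM, neg_mulVec, dotProduct_neg]
  obtain ⟨F, hF, hFW, hFo⟩ := exists_rep h hinv hW.2.1 hM hnd
  -- an irreducible submodule on which `F` does not vanish
  obtain ⟨C, hC, hCF⟩ : ∃ C, IrS (LZ Z) C ∧ ∃ c ∈ C, F c ≠ 0 := by
    by_contra hcon
    push Not at hcon
    have h1 : sSup {U | IrS (LZ Z) U} ≤ LinearMap.ker F :=
      sSup_le fun U hU u hu => hcon U hU u hu
    rw [h.cred.span, top_le_iff] at h1
    obtain ⟨w, hw, hw0⟩ := Submodule.exists_mem_ne_zero_of_ne_bot hW.1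
    apply hw0
    apply om_nd
    intro v
    have h2 : F v = 0 := by
      have h3 : v ∈ LinearMap.ker F := by
        rw [h1]
        trivial
      exact h3
    rw [hFo w hw, h2, mulVec_zero, dotProduct_zero]
  have hinj := hF.inj hC hCF
  have hCW : C.map F = W := by
    rcases hW.2.2 (C.map F) (by
      rintro _ ⟨c, -, rfl⟩
      exact hFW c) (hF.map hC.2.1) with h1 | h1
    · obtain ⟨c, hc, hc0⟩ := hCF
      exfalso
      apply hc0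
      have h2 : F c ∈ C.map F := ⟨c, hc, rfl⟩
      rw [h1] at h2
      exact h2
    · exact h1
  -- the inverse
  have hbij : Function.Bijective (F.restrict (p := C) (q := W) fun c _ => hFW c) := by
    constructor
    · rw [← LinearMap.ker_eq_bot, eq_bot_iff]
      intro c hc
      rw [Submodule.mem_bot]
      apply Subtype.ext
      exact hinj _ c.2 (congrArg Subtype.val hc)
    · rintro ⟨w, hw⟩
      rw [← hCW] at hw
      obtain ⟨c, hc, rfl⟩ := hw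
      exact ⟨⟨c, hc⟩, rfl⟩
  let e : C ≃ₗ[ℂ] W := LinearEquiv.ofBijective _ hbij
  obtain ⟨π, hπ, hπW, hπ1⟩ := h.cred W hW.2.1
  let T : (Fin g ⊕ Fin g → ℂ) →ₗ[ℂ] (Fin g ⊕ Fin g → ℂ) :=
    C.subtype ∘ₗ e.symm.toLinearMap ∘ₗ (π.codRestrict W hπW)
  have hFT : ∀ v, F (T v) = π v := by
    intro v
    have h1 : e (e.symm (π.codRestrict W hπW v)) = π.codRestrict W hπW v := e.apply_symm_apply _
    exact congrArg Subtype.val h1
  have hTC : ∀ v, T v ∈ C := fun v => (e.symm (π.codRestrict W hπW v)).2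
  have hT : Eqv Z T := by
    intro X hX v
    have h1 : T (X *ᵥ v) - X *ᵥ T v ∈ C := C.sub_mem (hTC _) (hC.2.1 X hX _ (hTC v))
    refine sub_eq_zero.1 (hinj _ h1 ?_)
    rw [map_sub, hFT, hF X hX, hFT, hπ X hX, sub_self]
  by_contra hcon
  push Not at hcon
  have hid := hcon LinearMap.id (fun X _ v => rfl)
  have hTT := hcon T hT
  have hsum := hcon (LinearMap.id + T) (fun X hX v => by
    rw [LinearMap.add_apply, LinearMap.add_apply, hT X hX, mulVec_add]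
    rfl)
  obtain ⟨w, hw, hw0⟩ := Submodule.exists_mem_ne_zero_of_ne_bot hW.1
  apply hw0
  refine hnd w hw fun v hv => ?_
  have h1 := hsum w hw v hv
  have h2 := hid w hw v hv
  have h3 := hTT w hw v hv
  change om g (w + T w) (v + T v) = 0 at h1
  change om g w v = 0 at h2
  rw [map_add, map_add, LinearMap.add_apply, LinearMap.add_apply, h2, h3, zero_add, add_zero,
    add_comm] at h1
  rw [om_skew' (T w) v, hFo w hw, hFo v hv, hFT, hFT, hπ1 _ hw, hπ1 _ hv, hsk v w] at h1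
  have h4 : (2 : ℂ) * (w ⬝ᵥ (M *ᵥ v)) = 0 := by linear_combination h1
  exact (mul_eq_zero.1 h4).resolve_left two_ne_zero

/-- Rank one elements on irreducible submodules with a nondegenerate invariant alternating form the
dimension of which is four or not divisible by four. -/
theorem rk1_of_form (h : PM Z) (hM : Mᵀ = -M) (hinv : ∀ X ∈ LZ Z, Xᵀ * M + M * X = 0)
    (hW : IrS (LZ Z) W) (hnd : ∀ u ∈ W, (∀ v ∈ W, u ⬝ᵥ (M *ᵥ v) = 0) → u = 0)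
    (h4 : ¬ 4 ∣ finrank ℂ W ∨ finrank ℂ W = 4) : Rk1 Z W := by
  obtain ⟨S, hS, u, hu, v, hv, huv⟩ := exists_nonisotropic h hM hinv hW hnd
  have h0 := hS.inj hW ⟨u, hu, fun h1 => huv (by rw [h1, map_zero, LinearMap.zero_apply])⟩
  refine rk1_of_map hS hW.2.1 h0 (rk1_of_dim h (hS.irS hW h0)
    ⟨S u, ⟨u, hu, rfl⟩, S v, ⟨v, hv, rfl⟩, huv⟩ ?_)
  rw [finrank_map_inj h0]
  exact h4

end form

end Pool.Agent.Y91.P
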