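import Mathlib
import Pool.Agent.Y91.P.Spin
import Pool.Agent.Y91.JP.Piece

/-!
# Transfer of conjugations to a summand
-/

set_option linter.unusedSectionVars false

namespace Pool.Agent.Y91.P

open Module LinearMap Pool.Agent.W548.Odd Pool.Agent.Y91.JP

variable {K : Type*} [Field K] [CharZero K]

/-- Burnside's theorem. -/
theorem burn_top [IsAlgClosed K] {U : Type*} [AddCommGroup U] [Module K U] [FiniteDimensional K U]
    [Nontrivial U] {G : Submodule K (End K U)}
    (hG : ∀ W : Submodule K U, (∀ y ∈ G, ∀ w ∈ W, y w ∈ W) → W ≠ ⊥ → W = ⊤) (T : End K U) :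
    T ∈ Algebra.adjoin K (G : Set (End K U)) := by
  obtain ⟨A, hA⟩ : ∃ A, A = Algebra.adjoin K (G : Set (End K U)) := ⟨_, rfl⟩
  have hnt : Nontrivial (Submodule A U) := ⟨⊥, ⊤, by
    intro h0
    obtain ⟨u, hu⟩ := exists_ne (0 : U)
    have h1 : u ∈ (⊥ : Submodule A U) := by
      rw [h0]
      trivial
    exact hu h1⟩
  have hsim : IsSimpleModule A U := by
    rw [isSimpleModule_iff]
    refine { eq_bot_or_eq_top := fun W => ?_ }
    by_cases h0 : W = ⊥
    · exact Or.inl h0
    · right
      have h1 : W.restrictScalars K = ⊤ := by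
        refine hG _ (fun y hy w hw => ?_) ?_
        · have hyA : y ∈ A := by
            rw [hA]
            exact Algebra.subset_adjoin hy
          exact W.smul_mem (⟨y, hyA⟩ : A) hw
        · intro h2
          exact h0 ((Submodule.restrictScalars_eq_bot_iff K A U).1 h2)
      exact (Submodule.restrictScalars_eq_top_iff K A U).1 h1
  obtain ⟨a, ha⟩ := burnside (A := A) T
  have h2 : (a : End K U) = T := LinearMap.ext ha
  rw [← hA, ← h2]
  exact a.2

variable {V : Type*} [AddCommGroup V] [Module K V]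
  [FiniteDimensional K V]

variable {G I : Submodule K (End K V)} {st : End K V →ₗ[K] End K V} (h : Setup G st)
  {M : Submodule K V} {p : V →ₗ[K] M} (c : Cor G st M p)

include c in
theorem pr_adjoin {a : End K V} (ha : a ∈ Algebra.adjoin K (G : Set (End K V))) :
    pr M p * a = a * pr M p :=
  comm_adjoin c.comm ha

include c in
theorem rs_adjoin_mul (x : End K V) {a : End K V}
    (ha : a ∈ Algebra.adjoin K (G : Set (End K V))) : rs M p (x * a) = rs M p x * rs M p a :=
  rs_mul c.hp (pr_adjoin c ha)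

include c in
theorem rs_coe {a : End K V} (ha : a ∈ Algebra.adjoin K (G : Set (End K V))) (x : M) :
    ((rs M p a x : M) : V) = a x := by
  have h1 := LinearMap.congr_fun (pr_adjoin c ha) (x : V)
  rw [Module.End.mul_apply, Module.End.mul_apply, pr_of_mem c.hp x.2] at h1
  exact h1

include c in
theorem exists_lift [IsAlgClosed K] (hM : IrrS G M) (T : End K M) :
    ∃ a ∈ Algebra.adjoin K (G : Set (End K V)), rs M p a = T := by
  have hnt : Nontrivial M := Submodule.nontrivial_iff_ne_bot.2 hM.ne
  have h1 := burn_top (G := G.map (rs M p)) (fun W hW h0 => irr_res c hM hW h0) T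
  induction h1 using Algebra.adjoin_induction with
  | mem x hx =>
    obtain ⟨y, hy, rfl⟩ := hx
    exact ⟨y, Algebra.subset_adjoin hy, rfl⟩
  | algebraMap r =>
    refine ⟨r • 1, Subalgebra.smul_mem _ (one_mem _) _, ?_⟩
    rw [map_smul, rs_one c.hp, Algebra.algebraMap_eq_smul_one]
  | add x y _ _ hx hy =>
    obtain ⟨a, ha, rfl⟩ := hx
    obtain ⟨b, hb, rfl⟩ := hy
    exact ⟨a + b, add_mem ha hb, map_add _ _ _⟩
  | mul x y _ _ hx hy =>
    obtain ⟨a, ha, rfl⟩ := hx
    obtain ⟨b, hb, rfl⟩ := hy
    exact ⟨a * b, mul_mem ha hb, rs_adjoin_mul c a hb⟩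

/-- Conjugations preserve the algebra generated by the Lie algebra. -/
theorem Tr.adj_top {D₀ D : End K V} {s : End K V ≃+* End K V} {τ : K ≃+* K}
    (T : Tr G st D₀ D s τ) {x : End K V} (hx : x ∈ Algebra.adjoin K (G : Set (End K V))) :
    s x ∈ Algebra.adjoin K (G : Set (End K V)) := by
  induction hx using Algebra.adjoin_induction with
  | mem x hx => exact Algebra.subset_adjoin (T.mem x hx)
  | algebraMap r =>
    rw [Algebra.algebraMap_eq_smul_one, T.smul, map_one]
    exact Subalgebra.smul_mem _ (one_mem _) _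
  | add x y _ _ hx hy =>
    rw [map_add]
    exact add_mem hx hy
  | mul x y _ _ hx hy =>
    rw [map_mul]
    exact mul_mem hx hy

include h c in
theorem st'_rs (h1 : st 1 = 1) {a : End K V}
    (ha : a ∈ Algebra.adjoin K (G : Set (End K V))) : st' st M p (rs M p a) = rs M p (st a) := by
  have hst := st_adjoin h h1 le_rfl ha
  change rs M p (st (ex M p (rs M p a))) = rs M p (st a)
  rw [ex_rs c.hp, h.st_mul, h.st_mul, c.st]
  refine LinearMap.ext fun x => ?_
  rw [rs_apply, rs_apply, Module.End.mul_apply, Module.End.mul_apply, pr_of_mem c.hp x.2, pr_apply,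
    c.hp]

/-- The associative algebra generated by the Lie algebra. -/
abbrev AG (G : Submodule K (End K V)) : Subalgebra K (End K V) :=
  Algebra.adjoin K (G : Set (End K V))

include h c in
/-- Transfer of conjugations to a summand on which the algebra acts faithfully. -/
theorem exists_tr [IsAlgClosed K] (hM : IrrS G M) (h1 : st 1 = 1)
    (hf : ∀ a ∈ Algebra.adjoin K (G : Set (End K V)), (∀ x ∈ M, a x = 0) → a = 0)
    {D₀ D : End K V} (hD₀ : D₀ ∈ G) {s : End K V ≃+* End K V} {τ : K ≃+* K}
    (T : Tr G st D₀ D s τ) :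
    ∃ s' : End K M ≃+* End K M,
      Tr (G.map (rs M p)) (st' st M p) (rs M p D₀) (rs M p D) s' τ := by
  let R : AG G →ₐ[K] End K M :=
    { toFun := fun a => rs M p a
      map_one' := rs_one c.hp
      map_mul' := fun a b => rs_adjoin_mul c _ b.2
      map_zero' := map_zero _
      map_add' := fun a b => map_add _ _ _
      commutes' := fun r => by
        have h2 : ((algebraMap K (AG G) r : AG G) : End K V) = r • 1 := by
          rw [Algebra.algebraMap_eq_smul_one]
          rfl
        rw [h2, map_smul, rs_one c.hp, Algebra.algebraMap_eq_smul_one] }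
  have hR : ∀ a : AG G, R a = rs M p a := fun a => rfl
  have hinj : Function.Injective R := by
    rw [injective_iff_map_eq_zero]
    intro a ha
    apply Subtype.ext
    refine hf _ a.2 fun x hx => ?_
    have h2 := rs_coe c a.2 ⟨x, hx⟩
    rw [← hR, ha] at h2
    exact h2.symm
  have hsurj : Function.Surjective R := by
    intro T'
    obtain ⟨a, ha, haT⟩ := exists_lift c hM T'
    exact ⟨⟨a, ha⟩, haT⟩
  let E : AG G ≃ₐ[K] End K M := AlgEquiv.ofBijective R ⟨hinj, hsurj⟩
  have hE : ∀ a : AG G, E a = rs M p a := fun a => rfl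
  let k : AG G ≃+* AG G :=
    { toFun := fun a => ⟨s a, T.adj_top a.2⟩
      invFun := fun a => ⟨s.symm a, T.symm.adj_top a.2⟩
      left_inv := fun a => Subtype.ext (s.symm_apply_apply _)
      right_inv := fun a => Subtype.ext (s.apply_symm_apply _)
      map_mul' := fun a b => Subtype.ext (map_mul s _ _)
      map_add' := fun a b => Subtype.ext (map_add s _ _) }
  let s' : End K M ≃+* End K M := E.symm.toRingEquiv.trans (k.trans E.toRingEquiv)
  have hs' : ∀ a : AG G, s' (rs M p a) = rs M p (s a) := by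
    intro a
    change E (k (E.symm (E a))) = _
    rw [E.symm_apply_apply]
    rfl
  have hs'' : ∀ a : AG G, s'.symm (rs M p a) = rs M p (s.symm a) := by
    intro a
    change E (k.symm (E.symm (E a))) = _
    rw [E.symm_apply_apply]
    rfl
  have hex : ∀ X : End K M, ∃ a : AG G, X = rs M p a := by
    intro X
    obtain ⟨a, ha, haT⟩ := exists_lift c hM X
    exact ⟨⟨a, ha⟩, haT.symm⟩
  refine ⟨s', ?_, ?_, ?_, ?_, ?_⟩
  · intro r X
    obtain ⟨a, rfl⟩ := hex X
    have h2 : r • rs M p (a : End K V) = rs M p ((r • a : AG G) : End K V) := by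
      rw [Subalgebra.coe_smul, map_smul]
    rw [h2, hs', hs', Subalgebra.coe_smul, T.smul, map_smul]
  · intro X
    obtain ⟨a, rfl⟩ := hex X
    have hst : st (a : End K V) ∈ AG G := st_adjoin h h1 le_rfl a.2
    have hsa : s (a : End K V) ∈ Algebra.adjoin K (G : Set (End K V)) := T.adj_top a.2
    rw [hs', st'_rs h c h1 a.2, st'_rs h c h1 hsa, ← T.st]
    exact hs' ⟨_, hst⟩
  · rintro _ ⟨y, hy, rfl⟩
    exact ⟨s y, T.mem y hy, (hs' ⟨y, Algebra.subset_adjoin hy⟩).symm⟩
  · rintro _ ⟨y, hy, rfl⟩
    exact ⟨s.symm y, T.mem' y hy, (hs'' ⟨y, Algebra.subset_adjoin hy⟩).symm⟩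
  · rw [← T.map]
    exact hs' ⟨D₀, Algebra.subset_adjoin hD₀⟩

end Pool.Agent.Y91.P
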