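import Mathlib
import Pool.Agent.Y91.P.Form
import Pool.Agent.Y91.P.Pink0

/-!
# Pink's theorem: abelian varieties the endomorphisms of which have the centre `ℚ`
-/

set_option linter.unusedSectionVars false

namespace Pool.Agent.Y91.P

open Matrix Module Pool.Agent.Y90 Pool.Agent.W437.HC Pool.Agent.W437.HD Pool.Agent.W548.Odd
  Pool.Agent.Y91.JP

section conj

variable {B : Type*} [Fintype B] [DecidableEq B]

/-- The conjugate of an operator. -/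
noncomputable def cjE (B : Type*) [Fintype B] [DecidableEq B] (σ : ℂ ≃+* ℂ) :
    End ℂ (B → ℂ) ≃+* End ℂ (B → ℂ) :=
  (ph B).symm.toRingEquiv.trans ((RingEquiv.mapMatrix σ).trans (ph B).toRingEquiv)

theorem cjE_ph (σ : ℂ ≃+* ℂ) (X : Matrix B B ℂ) : cjE B σ (ph B X) = ph B (X.map σ) := by
  change (ph B) (((ph B).symm (ph B X)).map σ) = _
  rw [AlgEquiv.symm_apply_apply]

theorem cjE_symm_ph (σ : ℂ ≃+* ℂ) (X : Matrix B B ℂ) :
    (cjE B σ).symm (ph B X) = ph B (X.map σ.symm) := by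
  apply (cjE B σ).injective
  rw [RingEquiv.apply_symm_apply, cjE_ph]
  congr 1
  ext i j
  simp

end conj

variable {g : ℕ} {Z : Matrix (Fin g) (Fin g) ℂ}

theorem Om_map (σ : ℂ ≃+* ℂ) : (Om g ℂ).map σ = Om g ℂ := by
  ext i j
  rcases i with i | i <;> rcases j with j | j <;>
    simp [Om, Matrix.fromBlocks, Matrix.one_apply, apply_ite σ]

theorem tr_ph (σ : ℂ ≃+* ℂ) :
    Tr (GG (LZ Z)) (stE (Om g ℂ)) (ph (Fin g ⊕ Fin g) (DZ Z)) (ph (Fin g ⊕ Fin g) (DS Z σ))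
      (cjE (Fin g ⊕ Fin g) σ) σ where
  smul c x := by
    obtain ⟨A, rfl⟩ := (ph (Fin g ⊕ Fin g)).surjective x
    rw [← map_smul, cjE_ph, cjE_ph, ← map_smul]
    congr 1
    ext i j
    simp
  st x := by
    obtain ⟨A, rfl⟩ := (ph (Fin g ⊕ Fin g)).surjective x
    rw [stE_ph, cjE_ph, cjE_ph, stE_ph]
    congr 1
    have h1 : ∀ X Y : Matrix (Fin g ⊕ Fin g) (Fin g ⊕ Fin g) ℂ,
        (X * Y).map σ = X.map σ * Y.map σ := fun X Y => Matrix.map_mul (f := (σ : ℂ →+* ℂ))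
    have h2 : ∀ X : Matrix (Fin g ⊕ Fin g) (Fin g ⊕ Fin g) ℂ, (-X).map σ = -X.map σ := by
      intro X
      ext i j
      simp
    rw [h2, h1, h1, Om_map, Matrix.transpose_map]
  mem x hx := by
    obtain ⟨A, hA, rfl⟩ := exists_GG hx
    rw [cjE_ph]
    exact mem_GG.2 (gal_LZ σ A hA)
  mem' x hx := by
    obtain ⟨A, hA, rfl⟩ := exists_GG hx
    rw [cjE_symm_ph]
    exact mem_GG.2 (gal_LZ σ.symm A hA)
  map := cjE_ph σ _

/-- Rank one elements on non-isotropic irreducible submodules on which the Lie algebra acts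
faithfully, if the dimension is not exceptional. -/
theorem rk1_pink (h : PM Z) {U : Submodule ℂ (Fin g ⊕ Fin g → ℂ)} (hU : IrS (LZ Z) U)
    (hni : ∃ u ∈ U, ∃ v ∈ U, Pool.Agent.Y90.om g u v ≠ 0)
    (hf : ∀ a ∈ AG (GG (LZ Z)), (∀ x ∈ U, a x = 0) → a = 0)
    (h1 : ∀ d m : ℕ, 3 ≤ m → Odd m → d ^ m ≠ finrank ℂ U)
    (h2 : ∀ j : ℕ, 1 ≤ j → (4 * j + 2).choose (2 * j + 1) ≠ finrank ℂ U) : Rk1 Z U := by
  have hOm2 : Om g ℂ * Om g ℂ = -1 := Om_sq ℂ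
  have hOmT : (Om g ℂ)ᵀ = -Om g ℂ := Om_transpose ℂ
  have hω := altF hOmT hOm2
  have hM := irrS_of_irS hU
  have hS := h.setup
  obtain ⟨p, c⟩ := exists_cor hS hω hM (by
    obtain ⟨u, hu, v, hv, huv⟩ := hni
    exact ⟨u, hu, v, hv, huv⟩)
  have hs := scal_irr c hM
  have h' := c.setup hS hs
  have hσ : ∀ σ : ℂ ≃+* ℂ, ph (Fin g ⊕ Fin g) (DS Z σ) * ph (Fin g ⊕ Fin g) (DS Z σ) = 1 := by
    intro σ
    rw [← map_mul, DS_sq h.det, map_one]
  have hσG : ∀ σ : ℂ ≃+* ℂ, ph (Fin g ⊕ Fin g) (DS Z σ) ∈ GG (LZ Z) := fun σ =>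
    mem_GG.2 (DS_mem σ)
  have hDZ : DS Z (RingEquiv.refl ℂ) = DZ Z := by
    ext i j
    rfl
  have hS' : ∀ D ∈ {D | ∃ σ : ℂ ≃+* ℂ, D = rs U p (ph (Fin g ⊕ Fin g) (DS Z σ))},
      D ∈ (GG (LZ Z)).map (rs U p) ∧ D * D = 1 := by
    rintro _ ⟨σ, rfl⟩
    exact ⟨⟨_, hσG σ, rfl⟩, by rw [← c.rs_mem_mul hS (hσG σ), hσ, rs_one c.hp]⟩
  have hDG : ph (Fin g ⊕ Fin g) (DZ Z) ∈ GG (LZ Z) := mem_GG.2 DZ_mem
  have hD2 : ph (Fin g ⊕ Fin g) (DZ Z) * ph (Fin g ⊕ Fin g) (DZ Z) = 1 := by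
    rw [← map_mul, DZ_sq h.det, map_one]
  have hst1 : stE (Om g ℂ) 1 = 1 := st_one hS hDG hD2
  obtain ⟨c', hc', hr⟩ := rank_one_pink (K := ℂ) h' hs (c.altF hS hω) (c.trSt hS (trSt hOm2)) h1 h2
    hS' (by
      intro L hL hbr
      have h1 : LZ Z ≤ LZ Z ⊓ (L.comap (rs U p)).comap (ph (Fin g ⊕ Fin g)).toLinearMap := by
        refine LZ_le (fun σ => ⟨DS_mem σ, hL ⟨σ, rfl⟩⟩) ?_
        rintro A ⟨hA, hA'⟩ C ⟨hC, hC'⟩
        refine ⟨LZ_br hA hC, ?_⟩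
        have h2 := hbr _ hA' _ hC'
        change rs U p (ph (Fin g ⊕ Fin g) (A * C - C * A)) ∈ L
        rw [map_sub, map_mul, map_mul, c.rs_br hS (mem_GG.2 hA) (mem_GG.2 hC)]
        exact h2
      rintro _ ⟨y, hy, rfl⟩
      obtain ⟨A, hA, rfl⟩ := exists_GG hy
      exact (h1 hA).2) (D₀ := rs U p (ph (Fin g ⊕ Fin g) (DZ Z))) ⟨RingEquiv.refl ℂ, by
        rw [hDZ]⟩ (by
      intro h0
      have h1 := (hS' _ ⟨RingEquiv.refl ℂ, rfl⟩).2
      rw [hDZ, h0, zero_mul] at h1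
      apply hU.1
      rw [Submodule.eq_bot_iff]
      intro x hx
      have h2 := congrArg Subtype.val (LinearMap.congr_fun h1 ⟨x, hx⟩)
      exact h2.symm) (by
      rintro _ ⟨σ, rfl⟩
      obtain ⟨s', hs'⟩ := exists_tr hS c hM hst1 hf hDG (tr_ph σ)
      exact ⟨s', σ, hs'⟩)
  obtain ⟨⟨z, hz, hzc⟩, hc1, hc2⟩ := hc'
  obtain ⟨A, hA, rfl⟩ := exists_GG hz
  obtain ⟨D, hD⟩ : ∃ D, D = ph (Fin g ⊕ Fin g) (DZ Z) := ⟨_, rfl⟩
  rw [← hD] at hc1 hc2 hDG hD2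
  -- the lift
  have hup := up_mem h hA
  have hNe : ph (Fin g ⊕ Fin g) ((1 / 4 : ℂ) • ((1 + DZ Z) * A * (1 - DZ Z))) =
      (1 / 4 : ℂ) • ((1 + D) * ph (Fin g ⊕ Fin g) A * (1 - D)) := by
    rw [map_smul, map_mul, map_mul, map_add, map_sub, map_one, ← hD]
  have hN : rs U p (ph (Fin g ⊕ Fin g) ((1 / 4 : ℂ) • ((1 + DZ Z) * A * (1 - DZ Z)))) = c' := by
    rw [hNe, map_smul, updown_eq, map_sub, map_sub, map_add, c.rs_mem_mul hS hz,
      c.rs_mem_mul hS hDG, c.rs_mem_mul hS hDG, c.rs_mem_mul hS hz, hzc, hc1, hc2]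
    have e1 : c' + c' - -c' - -c' = (4 : ℂ) • c' := by module
    rw [e1, smul_smul]
    norm_num
  refine ⟨DZ Z, Or.inl rfl, _, hup, ?_, ?_, ?_⟩
  · apply (ph (Fin g ⊕ Fin g)).injective
    rw [map_mul, hNe, ← hD, mul_smul_comm, up_left hD2]
  · apply (ph (Fin g ⊕ Fin g)).injective
    rw [map_mul, map_neg, hNe, ← hD, smul_mul_assoc, up_right hD2, smul_neg]
  · have h5 := rk_piece c (mem_GG.2 hup)
    rw [hN, hr] at h5
    exact h5.symm

/-- Equivariance for the associative algebra. -/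
theorem Eqv.adj {T : (Fin g ⊕ Fin g → ℂ) →ₗ[ℂ] (Fin g ⊕ Fin g → ℂ)} (hT : Eqv Z T)
    {a : End ℂ (Fin g ⊕ Fin g → ℂ)} (ha : a ∈ AG (GG (LZ Z))) (v : Fin g ⊕ Fin g → ℂ) :
    T (a v) = a (T v) := by
  have h1 : (T : End ℂ (Fin g ⊕ Fin g → ℂ)) * a = a * T := by
    refine comm_adjoin (fun x hx => ?_) ha
    obtain ⟨A, hA, rfl⟩ := exists_GG hx
    exact LinearMap.ext fun v => hT A hA v
  exact LinearMap.congr_fun h1 v

/-- The Lie algebra acts faithfully on an irreducible submodule if all irreducible submodules are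
isomorphic. -/
theorem faithful_of_iso (h : PM Z) {U : Submodule ℂ (Fin g ⊕ Fin g → ℂ)}
    (hiso : ∀ U', IrS (LZ Z) U' → ∃ T, Eqv Z T ∧ U' ≤ U.map T) :
    ∀ a ∈ AG (GG (LZ Z)), (∀ x ∈ U, a x = 0) → a = 0 := by
  intro a ha hax
  have h1 : sSup {U | IrS (LZ Z) U} ≤ LinearMap.ker a := by
    refine sSup_le fun U' hU' => ?_
    obtain ⟨T, hT, hle⟩ := hiso U' hU'
    intro x hx
    obtain ⟨y, hy, rfl⟩ := hle hx
    rw [LinearMap.mem_ker, ← hT.adj ha, hax y hy, map_zero]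
  rw [h.cred.span, top_le_iff] at h1
  exact LinearMap.ker_eq_top.1 h1

/-- Rank one elements on irreducible submodules with a nondegenerate invariant alternating form, if
all irreducible submodules are isomorphic and the dimension is not exceptional. -/
theorem rk1_pink_form (h : PM Z) {M : Matrix (Fin g ⊕ Fin g) (Fin g ⊕ Fin g) ℂ}
    {W : Submodule ℂ (Fin g ⊕ Fin g → ℂ)} (hM : Mᵀ = -M)
    (hinv : ∀ X ∈ LZ Z, Xᵀ * M + M * X = 0)
    (hW : IrS (LZ Z) W) (hnd : ∀ u ∈ W, (∀ v ∈ W, u ⬝ᵥ (M *ᵥ v) = 0) → u = 0)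
    (hiso : ∀ U', IrS (LZ Z) U' → ∃ T, Eqv Z T ∧ U' ≤ W.map T)
    (h1 : ∀ d m : ℕ, 3 ≤ m → Odd m → d ^ m ≠ finrank ℂ W)
    (h2 : ∀ j : ℕ, 1 ≤ j → (4 * j + 2).choose (2 * j + 1) ≠ finrank ℂ W) : Rk1 Z W := by
  obtain ⟨S, hS, u, hu, v, hv, huv⟩ := exists_nonisotropic h hM hinv hW hnd
  have h0 := hS.inj hW ⟨u, hu, fun h1 => huv (by rw [h1, map_zero, LinearMap.zero_apply])⟩
  have hf := faithful_of_iso h hiso
  refine rk1_of_map hS hW.2.1 h0 (rk1_pink h (hS.irS hW h0)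
    ⟨S u, ⟨u, hu, rfl⟩, S v, ⟨v, hv, rfl⟩, huv⟩ (fun a ha hax => hf a ha fun x hx => ?_) ?_ ?_)
  · have hWa : a x ∈ W := by
      have h3 : ∀ b ∈ AG (GG (LZ Z)), ∀ x ∈ W, b x ∈ W := by
        intro b hb
        induction hb using Algebra.adjoin_induction with
        | mem b hb =>
          intro x hx
          obtain ⟨A, hA, rfl⟩ := exists_GG hb
          exact hW.2.1 A hA x hx
        | algebraMap r =>
          intro x hx
          rw [Algebra.algebraMap_eq_smul_one]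
          exact W.smul_mem r hx
        | add b b' _ _ hb hb' =>
          intro x hx
          exact W.add_mem (hb x hx) (hb' x hx)
        | mul b b' _ _ hb hb' =>
          intro x hx
          exact hb _ (hb' x hx)
      exact h3 a ha x hx
    refine h0 _ hWa ?_
    rw [hS.adj ha]
    exact hax _ ⟨x, hx, rfl⟩
  · rw [finrank_map_inj h0]
    exact h1
  · rw [finrank_map_inj h0]
    exact h2

end Pool.Agent.Y91.P
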