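import Mathlib
import Pool.Agent.Y91.P.Pink
import Pool.Agent.W548.Odd.Comm

/-!
# Pink's theorem: the centre of the endomorphism algebra is `ℚ`
-/

set_option linter.unusedSectionVars false

namespace Pool.Agent.Y91.P

open Matrix Module Pool.Agent.Y90 Pool.Agent.W437.HC Pool.Agent.W437.HD Pool.Agent.W548.Odd
  Pool.Agent.Y91.JP

variable {g : ℕ} {Z : Matrix (Fin g) (Fin g) ℂ}

/-- The centre of the endomorphism algebra consists of the rational scalars. -/
def CenQ (Z : Matrix (Fin g) (Fin g) ℂ) : Prop :=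
  ∀ φ : Matrix (Fin g ⊕ Fin g) (Fin g ⊕ Fin g) ℚ, qm φ * DZ Z = DZ Z * qm φ →
    (∀ ψ : Matrix (Fin g ⊕ Fin g) (Fin g ⊕ Fin g) ℚ, qm ψ * DZ Z = DZ Z * qm ψ →
      φ * ψ = ψ * φ) → ∃ c : ℚ, φ = c • (1 : Matrix (Fin g ⊕ Fin g) (Fin g ⊕ Fin g) ℚ)

/-- Rational matrices which commute with the complex structure commute with the Lie algebra. -/
theorem qm_comm_LZ {ψ : Matrix (Fin g ⊕ Fin g) (Fin g ⊕ Fin g) ℚ}
    (hψ : qm ψ * DZ Z = DZ Z * qm ψ) : ∀ X ∈ LZ Z, qm ψ * X = X * qm ψ := by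
  have h1 : LZ Z ≤ { carrier := {X | qm ψ * X = X * qm ψ}
                     zero_mem' := by
                      change qm ψ * 0 = 0 * qm ψ
                      rw [mul_zero, zero_mul]
                     add_mem' := fun {a b} ha hb => by
                      change qm ψ * (a + b) = (a + b) * qm ψ
                      rw [mul_add, add_mul, show qm ψ * a = a * qm ψ from ha,
                        show qm ψ * b = b * qm ψ from hb]
                     smul_mem' := fun c a ha => by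
                      change qm ψ * (c • a) = (c • a) * qm ψ
                      rw [mul_smul_comm, smul_mul_assoc, show qm ψ * a = a * qm ψ from ha] } := by
    refine LZ_le (fun σ => ?_) fun A hA C hC => ?_
    · have h2 := congrArg (fun Y : Matrix (Fin g ⊕ Fin g) (Fin g ⊕ Fin g) ℂ =>
        Y.map (σ : ℂ →+* ℂ)) hψ
      simp only [Matrix.map_mul, qm_aut] at h2
      exact h2
    · have hA' : qm ψ * A = A * qm ψ := hA
      have hC' : qm ψ * C = C * qm ψ := hC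
      exact comm_br hA' hC'
  exact fun X hX => h1 hX

/-- Central elements of the commutant are scalars. -/
theorem scal_of_center (hcen : CenQ Z) {e : Matrix (Fin g ⊕ Fin g) (Fin g ⊕ Fin g) ℂ}
    (he : ∀ X ∈ LZ Z, e * X = X * e)
    (he' : ∀ ψ : Matrix (Fin g ⊕ Fin g) (Fin g ⊕ Fin g) ℚ, qm ψ * DZ Z = DZ Z * qm ψ →
      e * qm ψ = qm ψ * e) : ∃ s : ℂ, e = s • (1 : Matrix (Fin g ⊕ Fin g) (Fin g ⊕ Fin g) ℂ) := by
  let S : Submodule ℂ (Matrix (Fin g ⊕ Fin g) (Fin g ⊕ Fin g) ℂ) :=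
    { carrier := {e | (∀ X ∈ LZ Z, e * X = X * e) ∧
        ∀ ψ : Matrix (Fin g ⊕ Fin g) (Fin g ⊕ Fin g) ℚ, qm ψ * DZ Z = DZ Z * qm ψ →
          e * qm ψ = qm ψ * e}
      zero_mem' := ⟨fun X _ => by rw [mul_zero, zero_mul], fun ψ _ => by rw [mul_zero, zero_mul]⟩
      add_mem' := fun {a b} ha hb => ⟨fun X hX => by rw [mul_add, add_mul, ha.1 X hX, hb.1 X hX],
        fun ψ hψ => by rw [mul_add, add_mul, ha.2 ψ hψ, hb.2 ψ hψ]⟩
      smul_mem' := fun c a ha => ⟨fun X hX => by rw [mul_smul_comm, smul_mul_assoc, ha.1 X hX],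
        fun ψ hψ => by rw [mul_smul_comm, smul_mul_assoc, ha.2 ψ hψ]⟩ }
  have hS : ∀ (σ : ℂ ≃+* ℂ), ∀ X ∈ S, X.map (σ : ℂ →+* ℂ) ∈ S := by
    rintro σ X ⟨h1, h2⟩
    refine ⟨fun Y hY => ?_, fun ψ hψ => ?_⟩
    · have h3 := h1 _ (gal_LZ σ.symm Y hY)
      have h4 := congrArg (fun Y : Matrix (Fin g ⊕ Fin g) (Fin g ⊕ Fin g) ℂ =>
        Y.map (σ : ℂ →+* ℂ)) h3
      simp only [Matrix.map_mul] at h4
      have h5 : (Y.map σ.symm).map (σ : ℂ →+* ℂ) = Y := by
        ext i j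
        simp
      rw [h5] at h4
      exact h4
    · have h4 := congrArg (fun Y : Matrix (Fin g ⊕ Fin g) (Fin g ⊕ Fin g) ℂ =>
        Y.map (σ : ℂ →+* ℂ)) (h2 ψ hψ)
      simp only [Matrix.map_mul, qm_aut] at h4
      exact h4
  refine rational_induction (p := fun e => ∃ s : ℂ,
    e = s • (1 : Matrix (Fin g ⊕ Fin g) (Fin g ⊕ Fin g) ℂ)) S hS (fun u hu => ?_) ?_ ?_ ?_ e ⟨he, he'⟩
  · obtain ⟨c, hc⟩ := hcen u (hu.1 _ DZ_mem) fun ψ hψ => by
      have h1 := hu.2 ψ hψ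
      rw [← qm_mul, ← qm_mul] at h1
      ext i j
      have h2 := congrFun (congrFun h1 i) j
      simp only [qm, Matrix.map_apply] at h2
      exact_mod_cast h2
    refine ⟨c, ?_⟩
    rw [hc]
    ext i j
    by_cases hij : i = j <;> simp [Matrix.one_apply, hij]
  · exact ⟨0, by rw [zero_smul]⟩
  · rintro X Y ⟨s, rfl⟩ ⟨t, rfl⟩
    exact ⟨s + t, by rw [add_smul]⟩
  · rintro c X ⟨s, rfl⟩
    exact ⟨c * s, by rw [smul_smul]⟩

/-- If the centre is `ℚ` then the Lie algebra acts faithfully on each stable subspace. -/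
theorem faithful_of_center (h : PM Z) (hcen : CenQ Z)
    {U : Submodule ℂ (Fin g ⊕ Fin g → ℂ)} (hU0 : U ≠ ⊥) (hU : Stab (LZ Z) U) :
    ∀ a ∈ AG (GG (LZ Z)), (∀ x ∈ U, a x = 0) → a = 0 := by
  obtain ⟨G, hG⟩ : ∃ G, G = GG (LZ Z) := ⟨_, rfl⟩
  have hS := h.setup
  have hUG := stab_GG.2 hU
  rw [← hG] at hS hUG ⊢
  let W : Submodule ℂ (Fin g ⊕ Fin g → ℂ) :=
    Submodule.span ℂ {w | ∃ a ∈ AG G, (∀ x ∈ U, a x = 0) ∧ ∃ v, w = a v}
  let N : Submodule ℂ (Fin g ⊕ Fin g → ℂ) :=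
    { carrier := {v | ∀ a ∈ AG G, (∀ x ∈ U, a x = 0) → a v = 0}
      zero_mem' := fun a _ _ => map_zero a
      add_mem' := fun {v w} hv hw a ha hau => by rw [map_add, hv a ha hau, hw a ha hau, add_zero]
      smul_mem' := fun c v hv a ha hau => by rw [map_smul, hv a ha hau, smul_zero] }
  have hyA : ∀ y ∈ G, y ∈ AG G := fun y hy => Algebra.subset_adjoin hy
  have hWs : ∀ y ∈ G, ∀ w ∈ W, y w ∈ W := by
    intro y hy w hw
    induction hw using Submodule.span_induction with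
    | mem w hw =>
      obtain ⟨a, ha, hau, v, rfl⟩ := hw
      exact Submodule.subset_span ⟨y * a, mul_mem (hyA y hy) ha, fun x hx => by
        rw [Module.End.mul_apply, hau x hx, map_zero], v, rfl⟩
    | zero => rw [map_zero]; exact W.zero_mem
    | add a b _ _ ha hb => rw [map_add]; exact W.add_mem ha hb
    | smul c a _ ha => rw [map_smul]; exact W.smul_mem c ha
  have hNs : ∀ y ∈ G, ∀ w ∈ N, y w ∈ N := by
    intro y hy w hw a ha hau
    exact hw (a * y) (mul_mem ha (hyA y hy)) fun x hx => hau _ (hUG y hy x hx)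
  -- elements of the commutant
  have hcA : ∀ c : End ℂ (Fin g ⊕ Fin g → ℂ), (∀ y ∈ G, c * y = y * c) → ∀ a ∈ AG G, ∀ v,
      c (a v) = a (c v) := by
    intro c hc a ha v
    exact LinearMap.congr_fun (comm_adjoin hc ha) v
  have hWc : ∀ c : End ℂ (Fin g ⊕ Fin g → ℂ), (∀ y ∈ G, c * y = y * c) → ∀ w ∈ W, c w ∈ W := by
    intro c hc w hw
    induction hw using Submodule.span_induction with
    | mem w hw =>
      obtain ⟨a, ha, hau, v, rfl⟩ := hw
      rw [hcA c hc a ha]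
      exact Submodule.subset_span ⟨a, ha, hau, _, rfl⟩
    | zero => rw [map_zero]; exact W.zero_mem
    | add a b _ _ ha hb => rw [map_add]; exact W.add_mem ha hb
    | smul c a _ ha => rw [map_smul]; exact W.smul_mem _ ha
  have hNc : ∀ c : End ℂ (Fin g ⊕ Fin g → ℂ), (∀ y ∈ G, c * y = y * c) → ∀ w ∈ N, c w ∈ N := by
    intro c hc w hw a ha hau
    rw [← hcA c hc a ha, hw a ha hau, map_zero]
  -- the intersection
  obtain ⟨πX, hX1, hX2, hX3⟩ := hS.cr (W ⊓ N) fun y hy w hw => ⟨hWs y hy w hw.1, hNs y hy w hw.2⟩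
  have hWX : ∀ w ∈ W, πX w = 0 := by
    intro w hw
    induction hw using Submodule.span_induction with
    | mem w hw =>
      obtain ⟨a, ha, hau, v, rfl⟩ := hw
      rw [hcA πX hX1 a ha]
      exact (hX2 v).2 a ha hau
    | zero => exact map_zero _
    | add a b _ _ ha hb => rw [map_add, ha, hb, add_zero]
    | smul c a _ ha => rw [map_smul, ha, smul_zero]
  have hWN : ∀ w ∈ W, w ∈ N → w = 0 := by
    intro w hw hwN
    rw [← hX3 w ⟨hw, hwN⟩, hWX w hw]
  obtain ⟨π, h1, h2, h3⟩ := hS.cr W hWs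
  have hker : ∀ v, π v = 0 → v ∈ N := by
    intro v hv a ha hau
    have h4 : a v ∈ W := Submodule.subset_span ⟨a, ha, hau, v, rfl⟩
    rw [← h3 _ h4, hcA π h1 a ha, hv, map_zero]
  have hNk : ∀ v ∈ N, π v = 0 := by
    intro v hv
    refine hWN _ (h2 v) ?_
    have h4 : v - (v - π v) = π v := by abel
    rw [← h4]
    refine N.sub_mem hv (hker _ ?_)
    rw [map_sub, h3 _ (h2 v), sub_self]
  have hcomm : ∀ c : End ℂ (Fin g ⊕ Fin g → ℂ), (∀ y ∈ G, c * y = y * c) → π * c = c * π := by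
    intro c hc
    refine LinearMap.ext fun v => ?_
    change π (c v) = c (π v)
    have h4 : v = π v + (v - π v) := by abel
    have h5 : π (v - π v) = 0 := by rw [map_sub, h3 _ (h2 v), sub_self]
    have h6 : π (c (v - π v)) = 0 := hNk _ (hNc c hc _ (hker _ h5))
    conv_lhs => rw [h4]
    rw [map_add, map_add, h6, add_zero, h3 _ (hWc c hc _ (h2 v))]
  obtain ⟨P, hP⟩ := (ph (Fin g ⊕ Fin g)).surjective π
  obtain ⟨s, hs⟩ := scal_of_center hcen (e := P) (fun X hX => by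
    apply (ph (Fin g ⊕ Fin g)).injective
    rw [map_mul, map_mul, hP]
    exact h1 _ (hG ▸ mem_GG.2 hX)) (fun ψ hψ => by
    apply (ph (Fin g ⊕ Fin g)).injective
    rw [map_mul, map_mul, hP]
    refine hcomm _ fun y hy => ?_
    rw [hG] at hy
    obtain ⟨A, hA, rfl⟩ := exists_GG hy
    rw [← map_mul, ← map_mul, qm_comm_LZ hψ A hA])
  have hπ : ∀ v, π v = s • v := by
    intro v
    rw [← hP, hs, map_smul, map_one]
    rfl
  obtain ⟨u, hu, hu0⟩ := Submodule.exists_mem_ne_zero_of_ne_bot hU0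
  have hs0 : s = 0 := by
    have h4 : π u = 0 := hNk u fun a _ hau => hau u hu
    rw [hπ] at h4
    exact (smul_eq_zero.1 h4).resolve_right hu0
  intro a ha hau
  refine LinearMap.ext fun v => ?_
  have h4 : a v ∈ W := Submodule.subset_span ⟨a, ha, hau, v, rfl⟩
  rw [← h3 _ h4, hπ, hs0, zero_smul]
  rfl

/-- **Pink's theorem**: rank one elements, if the centre of the endomorphism algebra is `ℚ`. -/
theorem rk1_center (h : PM Z) (hcen : CenQ Z) {U : Submodule ℂ (Fin g ⊕ Fin g → ℂ)}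
    (hU : IrS (LZ Z) U) (hni : ∃ u ∈ U, ∃ v ∈ U, Pool.Agent.Y90.om g u v ≠ 0)
    (h1 : ∀ d m : ℕ, 3 ≤ m → Odd m → d ^ m ≠ finrank ℂ U)
    (h2 : ∀ j : ℕ, 1 ≤ j → (4 * j + 2).choose (2 * j + 1) ≠ finrank ℂ U) : Rk1 Z U :=
  rk1_pink h hU hni (faithful_of_center h hcen hU.1 hU.2.1) h1 h2

end Pool.Agent.Y91.P
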